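import Pool.Agent.Lib.MP_0b721b_ag.Kl.Fld

/-!
Kleiman's theorem from the structure `Geo` of the line bundles on a cover.
-/

namespace Pool.Agent.Lib.MP_0b721b_ag

namespace Kl

open MvPolynomial Filter

universe u

variable {k : Type u} [Field k] {N : ℕ} {α : Type} [LinearOrder α] [Fintype α]
  {I : Ideal (MvPolynomial (Fin N) k)} {M : Dat (MvPolynomial (Fin N) k) α}

omit [Fintype α] in
theorem nef_sys (hM : M.Lb (fun _ => 1) I)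
    (G : Geo (fun _ => 1) I (twSub hM))
    (hh : ∀ (J : Hi (fun _ => 1) I) (A : twSub hM) (y : ℤ),
      G.h J A y = (h0 (DT M.f M.d A.1) (fun _ => 1) J.1 J.2.1 y : ℤ))
    (hnef : Nef M (fun _ => 1) I) : (G.sys fun _ => rfl).Nef (twSelf hM) := by
  rw [nef_iff_curve]
  intro P hP
  obtain ⟨h1, ⟨Q, hQ, hPQ⟩, h3⟩ := hP
  have hC : IsCurve (fun _ => 1) P.1 := by
    refine ⟨⟨P.2.1, h1⟩, ⟨Q.1, ⟨Q.2.1, hQ⟩, hPQ⟩, ?_⟩
    rintro ⟨Q', Q'', hQ', hQ'', h4, h5⟩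
    refine h3 ⟨Q', hQ'.1, P.2.2.trans h4.le⟩ ⟨Q'', hQ''.1, P.2.2.trans (h4.trans h5).le⟩
      hQ'.2 hQ''.2 h4 h5
  obtain ⟨b₀, hb⟩ := hnef P.1 hC P.2.2
  filter_upwards [eventually_ge_atTop b₀] with y hy
  change G.h P 1 y ≤ G.h P (twSelf hM) y
  rw [hh, hh]
  have h6 := hb y hy
  have h7 : DT M.f M.d (1 : twSub hM).1 = M.pw 0 := DT_one M.f M.d (twOf M)
  rw [h7]
  exact_mod_cast h6

/-- Kleiman's theorem from the structure `Geo` -/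
theorem kleiman_of (hI : (polyGr k (fun _ : Fin N => (1 : ℤ))).Sub I) (hM : M.Lb (fun _ => 1) I)
    (G : Geo (fun _ => 1) I (twSub hM))
    (hh : ∀ (J : Hi (fun _ => 1) I) (A : twSub hM) (y : ℤ),
      G.h J A y = (h0 (DT M.f M.d A.1) (fun _ => 1) J.1 J.2.1 y : ℤ))
    (ham : ∀ (J : Hi (fun _ => 1) I) (A : twSub hM) (y : ℤ),
      G.am J A y → (DT M.f M.d A.1).Amp (fun _ => 1) J.1 y)
    (hnef : Nef M (fun _ => 1) I) : ∀ a, 1 ≤ a → (M.pw a).Amp (fun _ => 1) I 1 := by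
  intro a _
  have h1 := ample (nef_sys hM G hh hnef) ⟨I, hI, le_rfl⟩ a (y := 1) le_rfl
  have h2 := ham ⟨I, hI, le_rfl⟩ ((twSelf hM) ^ a) 1 h1
  have h3 : DT M.f M.d ((twSelf hM) ^ a : twSub hM).1 = M.pw a := DT_pow M.f M.d (twOf M) a
  rw [h3] at h2
  exact h2

end Kl

end Pool.Agent.Lib.MP_0b721b_ag
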