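import Pool.Agent.Lib.MP_0b721b_ag.Kl.Num2

/-!
The interface of the induction for Kleiman's theorem. `V` is the set of the homogeneous ideals
which contain the ideal of `X`, `T` the monoid of the line bundles on `X` (twists, a power of
`O(1)` being kept apart), `h J A y` the dimension of `H⁰(R / J ⊗ A(y))`, `hv J A y` says that all
`Hⁱ(R / J ⊗ A(y))`, `i ≥ 1`, vanish, `am J A y` that `A(y)` is ample on `V(J)`.
-/

namespace Pool.Agent.Lib.MP_0b721b_ag

namespace Kl

open Filter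

/-- a function of an integer is, for large values, killed by the `k`-fold difference -/
def Ev : ℕ → (ℤ → ℤ) → Prop
  | 0, f => ∀ᶠ y in atTop, f y = 0
  | k + 1, f => Ev k (fun y => f (y + 1) - f y)

/-- the data and properties used in the induction -/
structure Sys (V T : Type*) [PartialOrder V] [CommMonoid T] where
  /-- dimension of the space of sections -/
  h : V → T → ℤ → ℤ
  /-- vanishing of the higher cohomology -/
  hv : V → T → ℤ → Prop
  /-- ampleness -/
  am : V → T → ℤ → Prop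
  /-- the homogeneous primes which do not contain all variables -/
  pr : V → Prop
  h_nonneg : ∀ J A y, 0 ≤ h J A y
  /-- Serre vanishing -/
  serre : ∀ J A, ∀ᶠ y in atTop, hv J A y
  /-- `O(n)` generates: line bundles have sections after a twist -/
  sec : ∀ P, pr P → ∀ A, ∀ᶠ y in atTop, 0 < h P A y
  /-- an ideal which is not prime: the sequence of `J : a`, `J`, `J + a`, or the ideal has no
  points at all -/
  dec : ∀ J, ¬ pr J → (∀ A y, h J A y = 0 ∧ hv J A y) ∨
    ∃ J₁ J₂ : V, J < J₁ ∧ J < J₂ ∧ ∃ δ : ℤ, (∀ A y, h J₁ A (y - δ) ≤ h J A y) ∧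
      (∀ A y, hv J₁ A (y - δ) → h J A y = h J₁ A (y - δ) + h J₂ A y) ∧
      (∀ A y, hv J₁ A (y - δ) → hv J₂ A y → hv J A y)
  /-- the hyperplane section of a prime -/
  hyp : ∀ P, pr P → ∃ H : V, P < H ∧ (∀ A y, h P A y ≤ h P A (y - 1) + h H A y) ∧
    (∀ A y, hv P A (y - 1) → h P A y = h P A (y - 1) + h H A y)
  /-- the zero scheme of a section of `B(n)` on a prime -/
  div : ∀ P, pr P → ∀ (B : T) (n : ℤ), 0 < h P B n → ∃ E : V, P < E ∧
    ∀ A y, hv P A y → h P (A * B) (y + n) = h P A y + h E (A * B) (y + n)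
  /-- comparison with the section by a form which vanishes on `J` and not on `P` -/
  cut : ∀ P, pr P → ∀ J, P < J → ∃ δ : ℕ, ∀ᶠ y in atTop, h J 1 y ≤ h P 1 y - h P 1 (y - δ)
  /-- the step of the dévissage: a section of `N ^ n (-1)`, and vanishing on all smaller closed
  subschemes -/
  six : ∀ P, pr P → ∀ (A : T) (b : ℤ), (∃ n : ℕ, 1 ≤ n ∧ 0 < h P (A ^ n) (b * n - 1)) →
    (∀ J, P < J → ∀ c : ℤ, ∀ᶠ m : ℕ in atTop, hv J (A ^ m) (b * m + c)) →
    ∀ c : ℤ, ∀ᶠ m : ℕ in atTop, hv P (A ^ m) (b * m + c)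
  /-- the cohomological criterion -/
  seven : ∀ J₀, ∀ (A : T) (b : ℤ),
    (∀ J, J₀ ≤ J → ∀ c : ℤ, ∀ᶠ m : ℕ in atTop, hv J (A ^ m) (b * m + c)) →
    (∀ Q, pr Q → J₀ ≤ Q → ∀ᶠ n : ℕ in atTop, 0 < h Q (A ^ n) (b * n - 1)) → am J₀ A b
  /-- the uniform vanishing theorem for ample line bundles -/
  five : ∀ J, ∃ m₀ : ℤ, ∀ A b, am J A b → ∀ y, b + m₀ ≤ y → hv J A y

/-- `M` is nef: its degree on every integral curve is at least zero -/
def Sys.Nef {V T : Type*} [PartialOrder V] [CommMonoid T] (S : Sys V T) (M : T) : Prop :=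
  ∀ P, S.pr P → Ev 2 (S.h P 1) → ¬ Ev 1 (S.h P 1) → ∀ᶠ y in atTop, S.h P 1 y ≤ S.h P M y

end Kl

end Pool.Agent.Lib.MP_0b721b_ag
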