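import Pool.Agent.Lib.MP_0b721b_ag.Kl.Hid
import Pool.Agent.Lib.MP_0b721b_ag.Kl.Sys

/-!
The fields `dec`, `hyp`, `cut` of `Sys` from the exact sequences of `J : a`, `J`, `J + a`.
-/

namespace Pool.Agent.Lib.MP_0b721b_ag

namespace Kl

open MvPolynomial Filter

variable {k : Type*} [Field k] {N : ℕ} {T : Type*} [CommMonoid T]

/-- the homogeneous ideals which contain `I` -/
def Hi (w : Fin N → ℤ) (I : Ideal (MvPolynomial (Fin N) k)) : Type _ :=
  {J : Ideal (MvPolynomial (Fin N) k) // (polyGr k w).Sub J ∧ I ≤ J}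

instance (w : Fin N → ℤ) (I : Ideal (MvPolynomial (Fin N) k)) : PartialOrder (Hi w I) :=
  inferInstanceAs (PartialOrder {J : Ideal (MvPolynomial (Fin N) k) // (polyGr k w).Sub J ∧ I ≤ J})

theorem Hi.lt_iff {w : Fin N → ℤ} {I : Ideal (MvPolynomial (Fin N) k)} {J J' : Hi w I} :
    J < J' ↔ J.1 < J'.1 := Iff.rfl

theorem Hi.le_iff {w : Fin N → ℤ} {I : Ideal (MvPolynomial (Fin N) k)} {J J' : Hi w I} :
    J ≤ J' ↔ J.1 ≤ J'.1 := Iff.rfl

instance (w : Fin N → ℤ) (I : Ideal (MvPolynomial (Fin N) k)) : WellFoundedGT (Hi w I) := by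
  have h : WellFoundedGT (Ideal (MvPolynomial (Fin N) k)) := inferInstance
  exact ⟨InvImage.wf (fun J : Hi w I => J.1) h.wf⟩

/-- a homogeneous prime which does not contain all variables -/
def Hi.Pr {w : Fin N → ℤ} {I : Ideal (MvPolynomial (Fin N) k)} (P : Hi w I) : Prop :=
  P.1.IsPrime ∧ ∃ i, (X i : MvPolynomial (Fin N) k) ∉ P.1

/-- the quotient by a homogeneous element -/
noncomputable def Hi.cln {w : Fin N → ℤ} {I : Ideal (MvPolynomial (Fin N) k)} (J : Hi w I)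
    {a : MvPolynomial (Fin N) k} {δ : ℤ} (ha : (polyGr k w).Hom δ a) : Hi w I :=
  ⟨qi J.1 a, qi_sub J.2.1 ha, J.2.2.trans (le_qi _ _)⟩

/-- the sum with a homogeneous element -/
noncomputable def Hi.add {w : Fin N → ℤ} {I : Ideal (MvPolynomial (Fin N) k)} (J : Hi w I)
    {a : MvPolynomial (Fin N) k} {δ : ℤ} (ha : (polyGr k w).Hom δ a) : Hi w I :=
  ⟨J.1 ⊔ Ideal.span {a}, sup_span_sub J.2.1 ha, J.2.2.trans le_sup_left⟩

theorem Hi.le_add {w : Fin N → ℤ} {I : Ideal (MvPolynomial (Fin N) k)} (J : Hi w I)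
    {a : MvPolynomial (Fin N) k} {δ : ℤ} (ha : (polyGr k w).Hom δ a) : J ≤ J.add ha :=
  Hi.le_iff.2 (le_sup_left (a := J.1) (b := Ideal.span {a}))

theorem Hi.cln_prime {w : Fin N → ℤ} {I : Ideal (MvPolynomial (Fin N) k)} (P : Hi w I)
    (hP : P.1.IsPrime) {a : MvPolynomial (Fin N) k} {δ : ℤ} (ha : (polyGr k w).Hom δ a)
    (h : a ∉ P.1) : P.cln ha = P := by
  refine Subtype.ext (le_antisymm (fun f hf => ?_) (le_qi _ _))
  exact (hP.mem_or_mem (mem_qi.1 hf)).resolve_left h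

theorem Hi.lt_add {w : Fin N → ℤ} {I : Ideal (MvPolynomial (Fin N) k)} (J : Hi w I)
    {a : MvPolynomial (Fin N) k} {δ : ℤ} (ha : (polyGr k w).Hom δ a) (h : a ∉ J.1) :
    J < J.add ha := by
  refine lt_of_le_of_ne (J.le_add ha) (fun he => h ?_)
  have h1 : a ∈ (J.add ha).1 := Ideal.mem_sup_right (Ideal.mem_span_singleton_self a)
  rw [← he] at h1
  exact h1

/-- the geometric input -/
structure Geo (w : Fin N → ℤ) (I : Ideal (MvPolynomial (Fin N) k)) (T : Type*) [CommMonoid T] where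
  /-- dimension of the space of sections -/
  h : Hi w I → T → ℤ → ℤ
  /-- vanishing of the higher cohomology -/
  hv : Hi w I → T → ℤ → Prop
  /-- ampleness -/
  am : Hi w I → T → ℤ → Prop
  h_nonneg : ∀ J A y, 0 ≤ h J A y
  /-- an ideal with all variables has no points -/
  zero : ∀ J : Hi w I, (∀ i, X i ∈ J.1) → ∀ A y, h J A y = 0 ∧ hv J A y
  /-- the sequence of `J : a`, `J`, `J + a` -/
  seq : ∀ (J : Hi w I) (a : MvPolynomial (Fin N) k) (δ : ℤ) (ha : (polyGr k w).Hom δ a),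
    (∀ A y, h (J.cln ha) A (y - δ) ≤ h J A y) ∧
    (∀ A y, h J A y ≤ h (J.cln ha) A (y - δ) + h (J.add ha) A y) ∧
    (∀ A y, hv (J.cln ha) A (y - δ) → h J A y = h (J.cln ha) A (y - δ) + h (J.add ha) A y) ∧
    (∀ A y, hv (J.cln ha) A (y - δ) → hv (J.add ha) A y → hv J A y)
  serre : ∀ J A, ∀ᶠ y in atTop, hv J A y
  sec : ∀ P, Hi.Pr P → ∀ A, ∀ᶠ y in atTop, 0 < h P A y
  div : ∀ P, Hi.Pr P → ∀ (B : T) (n : ℤ), 0 < h P B n → ∃ E : Hi w I, P < E ∧
    ∀ A y, hv P A y → h P (A * B) (y + n) = h P A y + h E (A * B) (y + n)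
  six : ∀ P, Hi.Pr P → ∀ (A : T) (b : ℤ), (∃ n : ℕ, 1 ≤ n ∧ 0 < h P (A ^ n) (b * n - 1)) →
    (∀ J, P < J → ∀ c : ℤ, ∀ᶠ m : ℕ in atTop, hv J (A ^ m) (b * m + c)) →
    ∀ c : ℤ, ∀ᶠ m : ℕ in atTop, hv P (A ^ m) (b * m + c)
  seven : ∀ J₀, ∀ (A : T) (b : ℤ),
    (∀ J, J₀ ≤ J → ∀ c : ℤ, ∀ᶠ m : ℕ in atTop, hv J (A ^ m) (b * m + c)) →
    (∀ Q, Hi.Pr Q → J₀ ≤ Q → ∀ᶠ n : ℕ in atTop, 0 < h Q (A ^ n) (b * n - 1)) → am J₀ A b
  five : ∀ J, ∃ m₀ : ℤ, ∀ A b, am J A b → ∀ y, b + m₀ ≤ y → hv J A y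

variable {w : Fin N → ℤ} {I : Ideal (MvPolynomial (Fin N) k)}

/-- `J + (s)` for a finite set of homogeneous elements has, for large `y`, at most as many sections
as `J` -/
theorem Geo.h_le_of_fin (G : Geo w I T) (s : Finset (MvPolynomial (Fin N) k)) :
    ∀ J J' : Hi w I, (∀ a ∈ s, ∃ δ, (polyGr k w).Hom δ a) →
      J'.1 = J.1 ⊔ Ideal.span (s : Set (MvPolynomial (Fin N) k)) →
      ∀ A, ∀ᶠ y in atTop, G.h J' A y ≤ G.h J A y := by
  classical
  induction s using Finset.induction_on with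
  | empty =>
    intro J J' _ h A
    have : J' = J := by
      refine Subtype.ext ?_
      rw [h]
      simp
    rw [this]
    exact Eventually.of_forall fun _ => le_rfl
  | insert a s ha ih =>
    intro J J' hs h A
    obtain ⟨δ, hδ⟩ := hs a (Finset.mem_insert_self _ _)
    have h1 := ih (J.add hδ) J' (fun b hb => hs b (Finset.mem_insert_of_mem hb)) (by
      rw [h, Finset.coe_insert, Ideal.span_insert]
      change J.1 ⊔ (Ideal.span {a} ⊔ _) = (J.1 ⊔ Ideal.span {a}) ⊔ _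
      rw [sup_assoc]) A
    obtain ⟨-, -, h3, -⟩ := G.seq J a δ hδ
    filter_upwards [h1, (tendsto_atTop_add_const_right atTop (-δ) tendsto_id).eventually
      (G.serre (J.cln hδ) A)] with y h4 h5
    have h6 := h3 A y (by rw [sub_eq_add_neg]; exact h5)
    have h7 := G.h_nonneg (J.cln hδ) A (y - δ)
    omega

/-- the system -/
def Geo.sys (G : Geo w I T) (hw : ∀ i, w i = 1) : Sys (Hi w I) T where
  h := G.h
  hv := G.hv
  am := G.am
  pr := Hi.Pr
  h_nonneg := G.h_nonneg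
  serre := G.serre
  sec := G.sec
  div := G.div
  six := G.six
  seven := G.seven
  five := G.five
  dec := by
    intro J hJ
    by_cases hall : ∀ i, X i ∈ J.1
    · exact Or.inl (G.zero J hall)
    · push Not at hall
      right
      have h1 : J.1 ≠ ⊤ := by
        intro h
        obtain ⟨i, hi⟩ := hall
        rw [h] at hi
        exact hi Submodule.mem_top
      have h2 : ¬ J.1.IsPrime := fun h => hJ ⟨h, hall⟩
      obtain ⟨a, b, m, n, ha, hb, haJ, hbJ, hab⟩ := exists_split J.2.1 h1 h2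
      obtain ⟨s1, s2, s3, s4⟩ := G.seq J a m ha
      refine ⟨J.cln ha, J.add ha, ?_, J.lt_add ha haJ, m, s1, s3, s4⟩
      refine lt_of_le_of_ne (Hi.le_iff.2 (le_qi J.1 a)) (fun he => hbJ ?_)
      have h3 : b ∈ (J.cln ha).1 := mem_qi.2 hab
      rw [← he] at h3
      exact h3
  hyp := by
    intro P hP
    obtain ⟨i, hi⟩ := hP.2
    have hX : (polyGr k w).Hom 1 (X i : MvPolynomial (Fin N) k) := by
      have := polyGr_X (A := k) w i
      rwa [hw i] at this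
    obtain ⟨s1, s2, s3, s4⟩ := G.seq P (X i) 1 hX
    rw [P.cln_prime hP.1 hX hi] at s1 s2 s3 s4
    exact ⟨P.add hX, P.lt_add hX hi, s2, s3⟩
  cut := by
    intro P hP J hJ
    obtain ⟨f, hfJ, hfP⟩ := SetLike.exists_of_lt (Hi.lt_iff.1 hJ)
    -- a homogeneous component outside `P`
    obtain ⟨δ, hδ⟩ : ∃ δ, (polyGr k w).pr δ f ∉ P.1 := by
      by_contra hcon
      push Not at hcon
      refine hfP ?_
      rw [← (polyGr k w).sum f]
      exact finsum_induction (p := fun x => x ∈ P.1) P.1.zero_mem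
        (fun _ _ => P.1.add_mem) (fun n => hcon n)
    set g := (polyGr k w).pr δ f with hg
    have hgh : (polyGr k w).Hom δ g := (polyGr k w).hom_pr δ f
    have hgJ : g ∈ J.1 := J.2.1 δ f hfJ
    obtain ⟨δ', rfl⟩ : ∃ δ' : ℕ, δ = δ' := Int.eq_ofNat_of_zero_le (deg_nonneg
      (fun i => by rw [hw i]; exact zero_le_one) hgh (fun h => hδ (by rw [h]; exact P.1.zero_mem)))
    obtain ⟨s1, s2, s3, s4⟩ := G.seq P g δ' hgh
    rw [P.cln_prime hP.1 hgh hδ] at s1 s2 s3 s4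
    obtain ⟨s, hs, hsJ⟩ := exists_fin J.2.1
    have h5 := G.h_le_of_fin s (P.add hgh) J hs (by
      rw [hsJ]
      refine le_antisymm le_sup_right (sup_le ?_ le_rfl)
      exact sup_le (Hi.lt_iff.1 hJ).le ((Ideal.span_singleton_le_iff_mem _).2 hgJ)) 1
    refine ⟨δ', ?_⟩
    filter_upwards [h5, (tendsto_atTop_add_const_right atTop (-(δ' : ℤ)) tendsto_id).eventually
      (G.serre P 1)] with y h6 h7
    have h8 := s3 1 y (by rw [sub_eq_add_neg]; exact h7)
    omega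

end Kl

end Pool.Agent.Lib.MP_0b721b_ag
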