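import Pool.Agent.Lib.MP_0b721b_ag.Kl.Snap

/-!
The induction for Kleiman's theorem together with the uniform vanishing for the powers of a nef
line bundle, over the interface `Sys`.
-/

namespace Pool.Agent.Lib.MP_0b721b_ag

namespace Kl

open Filter

variable {V T : Type*} [PartialOrder V] [WellFoundedGT V] [CommMonoid T] {S : Sys V T} {M : T}

/-- what the induction proves for `J` -/
structure Good (S : Sys V T) (M : T) (J : V) : Prop where
  nn : ∀ i j, Ev (i + j + 1) (S.h J 1) → 0 ≤ en M i j (S.p J)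
  uni : ∃ m : ℤ, ∀ (x : ℕ) (y : ℤ), m ≤ y →
    S.h J (M ^ x) y = S.p J (M ^ x) y ∧ S.hv J (M ^ x) y

omit [WellFoundedGT V] in
/-- the exact degree of the Hilbert function of a prime -/
theorem exists_dim {P : V} (hP : S.pr P) (h : ∃ k, Ev k (S.h P 1)) :
    ∃ d, Ev (d + 1) (S.h P 1) ∧ ¬ Ev d (S.h P 1) := by
  classical
  obtain ⟨k, hk, hmin⟩ : ∃ k, Ev k (S.h P 1) ∧ ∀ i < k, ¬ Ev i (S.h P 1) :=
    ⟨Nat.find h, Nat.find_spec h, fun i hi => Nat.find_min h hi⟩
  rcases k with _ | d
  · exact absurd hk (not_ev_zero hP)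
  · exact ⟨d, hk, hmin d (Nat.lt_succ_self d)⟩

theorem dd_one_zero (M : T) (d : ℕ) (p : T → ℤ → ℤ) (A : T) (y : ℤ) :
    dd M 0 d p A y = (dz^[d] (p A)) y := by
  unfold dd
  rw [Function.iterate_zero, id_eq]
  induction d generalizing p with
  | zero => rfl
  | succ d ih =>
    rw [Function.iterate_succ_apply, Function.iterate_succ_apply, ih]
    have : dl (1 : T) 1 p A = dz (p A) := by
      funext y
      simp only [dl, dz, mul_one]
    rw [this]

/-- the first number of a prime is positive -/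
theorem en_pos {P : V} {d : ℕ} (h1 : Ev (d + 1) (S.h P 1)) (h2 : ¬ Ev d (S.h P 1)) :
    0 < en M 0 d (S.p P) := by
  have hp := S.snap P
  have hdg : Dg (0 + d + 1) (S.p P) := by
    rw [zero_add]
    exact hp.dim _ h1
  have hconst : ∀ y, (dz^[d] (S.p P 1)) y = en M 0 d (S.p P) := fun y => by
    rw [← dd_one_zero M, dd_eq hdg]
  rcases lt_trichotomy (en M 0 d (S.p P)) 0 with h | h | h
  · exfalso
    have h3 : ∀ᶠ y in atTop, 0 < (dz^[d] (fun y => -(S.p P 1 y))) y := by
      rw [dz_iter_neg]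
      refine Eventually.of_forall fun y => ?_
      dsimp only
      rw [hconst]
      omega
    obtain ⟨y, h4, h5⟩ := ((eventually_pos_of_dz h3).and (hp.ev 1)).exists
    have h6 := S.h_nonneg P 1 y
    omega
  · exfalso
    refine h2 ?_
    have h3 : Ev d (S.p P 1) := by
      rw [ev_iff]
      refine Eventually.of_forall fun y => ?_
      rw [hconst, h]
    refine h3.congr ?_
    filter_upwards [hp.ev 1] with y hy
    exact hy.symm
  · exact h

/-- the numbers of a prime other than the last one come from the hyperplane section -/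
theorem nn_prime {P : V} (hP : S.pr P) (ih : ∀ J, P < J → Good S M J) {i j : ℕ}
    (h : Ev (i + (j + 1) + 1) (S.h P 1)) : 0 ≤ en M i (j + 1) (S.p P) := by
  obtain ⟨H, hH, -, hH2⟩ := S.hyp P hP
  have h1 : Ev (i + j + 1) (S.h H 1) := ev_lt hP hH (S.snap H) h
  rw [← en_dly, S.dl_hyp hH2, en_tr ((S.snap H).dim _ h1)]
  exact (ih H hH).nn i j h1

/-- below the range of uniform vanishing of the hyperplane section the dimension of the space of
sections is at least the value of the function of Snapper -/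
theorem p_le_h {P : V} (hP : S.pr P) (ih : ∀ J, P < J → Good S M J) :
    ∃ m : ℤ, ∀ (x : ℕ) (y : ℤ), m ≤ y → S.p P (M ^ x) y ≤ S.h P (M ^ x) y := by
  obtain ⟨H, hH, hH1, hH2⟩ := S.hyp P hP
  obtain ⟨m, hm⟩ := (ih H hH).uni
  have hrel := S.dl_hyp hH2
  refine ⟨m - 1, fun x y hy => ?_⟩
  obtain ⟨Y, hY⟩ := eventually_atTop.1 ((S.snap P).ev (M ^ x))
  -- descending induction from `y + n`
  have key : ∀ (n : ℕ) (y : ℤ), m - 1 ≤ y → Y ≤ y + n →
      S.p P (M ^ x) y ≤ S.h P (M ^ x) y := by
    intro n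
    induction n with
    | zero =>
      intro y _ h
      rw [Nat.cast_zero, add_zero] at h
      exact (hY y h).ge
    | succ n ihn =>
      intro y hy h
      have h1 := ihn (y + 1) (by omega) (by push_cast at h ⊢; omega)
      have h2 := hH1 (M ^ x) (y + 1)
      have h3 := (hm x (y + 1) (by omega)).1
      have h4 := congrFun (congrFun hrel (M ^ x)) y
      simp only [dl, tr, mul_one] at h4
      rw [show y + 1 - 1 = y by ring] at h2
      omega
  refine key (Y - y).toNat y hy ?_
  omega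

/-- a direction of positive volume has sections -/
theorem sections {P : V} (hP : S.pr P) (ih : ∀ J, P < J → Good S M J) {d : ℕ}
    (hd : Ev (d + 1) (S.h P 1)) {a b : ℕ} (hb : 1 ≤ b)
    (hv : 0 < vol d (fun i => en M i (d - i) (S.p P)) a b) :
    ∀ᶠ n : ℕ in atTop, 0 < S.h P (M ^ (a * n)) (b * n - 1) := by
  obtain ⟨m, hm⟩ := p_le_h hP ih
  have h1 := eventually_pos ((S.snap P).dim _ hd) hv (-1)
  filter_upwards [h1, eventually_ge_atTop (m + 1).toNat] with n h2 h3
  have h4 : m ≤ (b : ℤ) * n - 1 := by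
    have h5 : (m + 1 : ℤ) ≤ n := by omega
    have h6 : (1 : ℤ) ≤ b := by exact_mod_cast hb
    have h7 : (0 : ℤ) ≤ n := Int.natCast_nonneg n
    nlinarith
  refine lt_of_lt_of_le ?_ (hm (a * n) (b * n - 1) h4)
  rw [← sub_eq_add_neg] at h2
  exact h2

/-- the last number of a prime of dimension `d ≥ 2` -/
theorem last_prime {P : V} (hP : S.pr P) (ih : ∀ J, P < J → Good S M J) {d : ℕ}
    (hd : Ev (d + 1) (S.h P 1)) (hd' : ¬ Ev d (S.h P 1)) (h2 : 2 ≤ d) :
    0 ≤ en M d 0 (S.p P) := by
  have hdg := (S.snap P).dim _ hd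
  have h0 : 0 < (fun i => en M i (d - i) (S.p P)) 0 := by
    dsimp only
    rw [Nat.sub_zero]
    exact en_pos hd hd'
  have hlt : ∀ i < d, 0 ≤ (fun i => en M i (d - i) (S.p P)) i := by
    intro i hi
    dsimp only
    obtain ⟨j, hj⟩ : ∃ j, d - i = j + 1 := ⟨d - i - 1, by omega⟩
    rw [hj]
    refine nn_prime hP ih ?_
    rw [show i + (j + 1) + 1 = d + 1 by omega]
    exact hd
  have hmain := last_nonneg h2 h0 hlt (fun a b ha hb hv => by
    have hs := sections hP ih hd hb hv
    obtain ⟨n, hn, hn1⟩ := (hs.and (eventually_ge_atTop 1)).exists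
    -- the zero scheme of a section
    obtain ⟨b', hb'⟩ : ∃ b' : ℕ, (b : ℤ) * n - 1 = b' := by
      refine Int.eq_ofNat_of_zero_le ?_
      have h6 : (1 : ℤ) ≤ b := by exact_mod_cast hb
      have h7 : (1 : ℤ) ≤ n := by exact_mod_cast hn1
      nlinarith
    rw [hb'] at hn
    obtain ⟨E, hE, hE2⟩ := S.div P hP _ _ hn
    have h3 : Ev (d - 1 + 0 + 1) (S.h E 1) := by
      refine ev_lt hP hE (S.snap E) ?_
      rw [show d - 1 + 0 + 1 + 1 = d + 1 by omega]
      exact hd
    have h4 := (ih E hE).nn (d - 1) 0 h3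
    have h5 := en_dl (M := M) (i := d - 1) (j := 0) (p := S.p P) (by
      rw [show d - 1 + 0 + 2 = d + 1 by omega]
      exact hdg) (a * n) b'
    rw [S.dl_div hE2, en_tr ((S.snap E).dim _ h3), show d - 1 + 1 = d by omega, zero_add] at h5
    rw [h5] at h4
    have h6 : 0 ≤ en M (d - 1) 1 (S.p P) := by
      have := hlt (d - 1) (by omega)
      dsimp only at this
      rwa [show d - (d - 1) = 1 by omega] at this
    rw [Nat.sub_self, show d - (d - 1) = 1 by omega]
    have h7 : (b' : ℤ) = b * n - 1 := hb'.symm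
    rw [h7] at h4
    push_cast at h4
    have h8 : (1 : ℤ) ≤ n := by exact_mod_cast hn1
    by_contra hneg
    push Not at hneg
    nlinarith)
  simpa using hmain

/-- all numbers of a prime -/
theorem nn_all {P : V} (hM : S.Nef M) (hP : S.pr P) (ih : ∀ J, P < J → Good S M J) {i j : ℕ}
    (h : Ev (i + j + 1) (S.h P 1)) : 0 ≤ en M i j (S.p P) := by
  rcases j with _ | j
  · by_cases h' : Ev i (S.h P 1)
    · rw [en_eq_zero (by
        rw [add_zero]
        exact (S.snap P).dim _ h')]
    · rw [add_zero] at h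
      rcases i with _ | _ | i
      · exact (en_pos h h').le
      · -- the degree of `M` on a curve
        have hdg : Dg 2 (S.p P) := (S.snap P).dim _ h
        have hc : Dg 1 (dl M 0 (S.p P)) := hdg M 0
        obtain ⟨y, h1, h2, h3⟩ := ((hM P hP h h').and
          (((S.snap P).ev 1).and ((S.snap P).ev M))).exists
        have h4 := hc.const 1 y
        have h5 : en M (0 + 1) 0 (S.p P) = dl M 0 (S.p P) 1 0 := rfl
        rw [h5, ← h4]
        simp only [dl, one_mul, add_zero]
        omega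
      · exact last_prime hP ih h h' (by omega)
  · exact nn_prime hP ih h

/-- the volume of a prime is positive -/
theorem vol_prime {P : V} (hP : S.pr P)
    (hnn : ∀ i j, Ev (i + j + 1) (S.h P 1) → 0 ≤ en M i j (S.p P)) {d : ℕ}
    (hd : Ev (d + 1) (S.h P 1)) (hd' : ¬ Ev d (S.h P 1)) (a : ℕ) {b : ℕ} (hb : 1 ≤ b) :
    0 < vol d (fun i => en M i (d - i) (S.p P)) a b := by
  refine vol_pos ?_ ?_ hb
  · rw [Nat.sub_zero]
    exact en_pos hd hd'
  · intro i hi
    refine hnn _ _ ?_
    rw [show i + (d - i) + 1 = d + 1 by omega]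
    exact hd

/-- vanishing along `A ^ m (b m + c)` -/
theorem Good.along {J : V} (h : Good S M J) (x : ℕ) {y : ℤ} (hy : 1 ≤ y) (c : ℤ) :
    ∀ᶠ m : ℕ in atTop, S.h J ((M ^ x) ^ m) (y * m + c) = S.p J ((M ^ x) ^ m) (y * m + c) ∧
      S.hv J ((M ^ x) ^ m) (y * m + c) := by
  obtain ⟨m₀, hm⟩ := h.uni
  filter_upwards [eventually_ge_atTop (m₀ - c).toNat] with m h1
  rw [← pow_mul]
  refine hm _ _ ?_
  have h2 : m₀ - c ≤ m := by omega
  have h3 : (0 : ℤ) ≤ m := Int.natCast_nonneg m
  nlinarith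

/-- sections on a prime for which everything is known -/
theorem Good.sections {Q : V} (hQ : S.pr Q) (h : Good S M Q) (x : ℕ) {y : ℕ} (hy : 1 ≤ y) :
    ∀ᶠ n : ℕ in atTop, 0 < S.h Q ((M ^ x) ^ n) (y * n - 1) := by
  obtain ⟨d, hd, hd'⟩ := exists_dim hQ (S.snap Q).exists_ev
  have h1 := eventually_pos ((S.snap Q).dim _ hd) (vol_prime hQ h.nn hd hd' x hy) (-1)
  filter_upwards [h1, h.along x (y := y) (by exact_mod_cast hy) (-1)] with n h2 h3
  rw [sub_eq_add_neg, h3.1, ← pow_mul]
  exact h2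

/-- ampleness on a prime -/
theorem am_prime {P : V} (hM : S.Nef M) (hP : S.pr P) (ih : ∀ J, P < J → Good S M J) (x : ℕ)
    {y : ℕ} (hy : 1 ≤ y) : S.am P (M ^ x) y := by
  have hy' : (1 : ℤ) ≤ y := by exact_mod_cast hy
  obtain ⟨d, hd, hd'⟩ := exists_dim hP (S.snap P).exists_ev
  have hs : ∀ᶠ n : ℕ in atTop, 0 < S.h P ((M ^ x) ^ n) (y * n - 1) := by
    have h1 := Kl.sections hP ih hd hy
      (vol_prime hP (fun i j h => nn_all hM hP ih h) hd hd' x hy)
    filter_upwards [h1] with n h2
    rw [← pow_mul]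
    exact h2
  refine S.seven P _ _ ?_ ?_
  · intro J hJ
    rcases hJ.eq_or_lt with h | h
    · subst h
      refine S.six P hP _ _ ?_ (fun J hJ c => ?_)
      · obtain ⟨n, h1, h2⟩ := (hs.and (eventually_ge_atTop 1)).exists
        exact ⟨n, h2, h1⟩
      · filter_upwards [(ih J hJ).along x hy' c] with m hm using hm.2
    · intro c
      filter_upwards [(ih J h).along x hy' c] with m hm using hm.2
  · intro Q hQ hPQ
    rcases hPQ.eq_or_lt with h | h
    · subst h
      exact hs
    · exact (ih Q h).sections hQ x hy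

/-- the step for a prime -/
theorem good_prime {P : V} (hM : S.Nef M) (hP : S.pr P) (ih : ∀ J, P < J → Good S M J) :
    Good S M P := by
  refine ⟨fun i j h => nn_all hM hP ih h, ?_⟩
  obtain ⟨m₀, hm₀⟩ := S.five P
  obtain ⟨H, hH, -, hH2⟩ := S.hyp P hP
  obtain ⟨m, hm⟩ := (ih H hH).uni
  have hrel := S.dl_hyp hH2
  have hvan : ∀ (x : ℕ) (y : ℤ), 1 + m₀ ≤ y → S.hv P (M ^ x) y := fun x y hy =>
    hm₀ (M ^ x) 1 (by exact_mod_cast am_prime hM hP ih x (le_refl 1)) y hy
  refine ⟨max (1 + m₀) m, fun x y hy => ⟨?_, hvan x y (le_trans (le_max_left _ _) hy)⟩⟩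
  obtain ⟨Y, hY⟩ := eventually_atTop.1 ((S.snap P).ev (M ^ x))
  have key : ∀ (n : ℕ) (y : ℤ), max (1 + m₀) m ≤ y → Y ≤ y + n →
      S.h P (M ^ x) y = S.p P (M ^ x) y := by
    intro n
    induction n with
    | zero =>
      intro y _ h
      rw [Nat.cast_zero, add_zero] at h
      exact hY y h
    | succ n ihn =>
      intro y hy h
      have h1 := ihn (y + 1) (by omega) (by push_cast at h ⊢; omega)
      have h2 := hH2 (M ^ x) (y + 1) (by
        rw [show y + 1 - 1 = y by ring]
        exact hvan x y (le_trans (le_max_left _ _) hy))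
      have h3 := (hm x (y + 1) (by
        have := le_trans (le_max_right _ _) hy
        omega)).1
      have h4 := congrFun (congrFun hrel (M ^ x)) y
      simp only [dl, tr, mul_one] at h4
      rw [show y + 1 - 1 = y by ring] at h2
      omega
  exact key (Y - y).toNat y hy (by omega)

/-- the function of Snapper of an ideal which is not prime -/
theorem Sys.p_dec {J J₁ J₂ : V} {δ : ℤ}
    (h : ∀ A y, S.hv J₁ A (y - δ) → S.h J A y = S.h J₁ A (y - δ) + S.h J₂ A y) :
    S.p J = tr 1 (-δ) (S.p J₁) + S.p J₂ := by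
  obtain ⟨k₀, hk₀⟩ := (S.snap J).deg
  obtain ⟨k, hk⟩ := (S.snap J₁).deg
  obtain ⟨l, hl⟩ := (S.snap J₂).deg
  refine eq_of_ev ⟨k₀, hk₀⟩
    ⟨max k l, ((hk.mono (le_max_left _ _)).tr _ _).add (hl.mono (le_max_right _ _))⟩ fun A => ?_
  filter_upwards [(S.snap J).ev A, eventually_shift ((S.snap J₁).ev A) (-δ), (S.snap J₂).ev A,
    eventually_shift (S.serre J₁ A) (-δ)] with y h1 h2 h3 h4
  rw [← sub_eq_add_neg] at h4
  have h5 := h A y h4
  rw [← sub_eq_add_neg] at h2
  rw [← h1, h5, h2, h3]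
  simp only [tr, Pi.add_apply, mul_one, ← sub_eq_add_neg]

/-- the result of the induction -/
theorem good (hM : S.Nef M) (J : V) : Good S M J := by
  induction J using WellFoundedGT.induction with
  | ind J ih =>
    by_cases hJ : S.pr J
    · exact good_prime hM hJ ih
    · rcases S.dec J hJ with h0 | ⟨J₁, J₂, h1, h2, δ, hd1, hd2, hd3⟩
      · have hp : S.p J = 0 := by
          refine eq_of_ev (S.snap J).deg ⟨0, rfl⟩ fun A => ?_
          filter_upwards [(S.snap J).ev A] with y hy
          rw [← hy, (h0 A y).1]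
          rfl
        refine ⟨fun i j _ => ?_, 0, fun x y _ => ⟨?_, (h0 _ _).2⟩⟩
        · rw [hp, en_zero]
        · rw [(h0 _ _).1, hp]
          rfl
      · have hadd : ∀ A, ∀ᶠ y in atTop, S.h J A y = S.h J₁ A (y - δ) + S.h J₂ A y := by
          intro A
          filter_upwards [eventually_shift (S.serre J₁ A) (-δ)] with y hy
          rw [← sub_eq_add_neg] at hy
          exact hd2 A y hy
        have hp := Sys.p_dec hd2
        refine ⟨fun i j h => ?_, ?_⟩
        · have hE1 : Ev (i + j + 1) (S.h J₁ 1) := by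
            obtain ⟨l, hl⟩ := (S.snap J₁).exists_ev
            have h3 : Ev (i + j + 1) (fun y => S.h J₁ 1 (y + -δ)) :=
              (hl.shift (-δ)).of_le h (Eventually.of_forall fun y => S.h_nonneg _ _ _)
                (Eventually.of_forall fun y => hd1 1 y)
            refine (h3.shift δ).congr (Eventually.of_forall fun y => ?_)
            rw [show y + δ + -δ = y by ring]
          have hE2 : Ev (i + j + 1) (S.h J₂ 1) := by
            obtain ⟨l, hl⟩ := (S.snap J₂).exists_ev
            refine hl.of_le h (Eventually.of_forall fun y => S.h_nonneg _ _ _) ?_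
            filter_upwards [hadd 1] with y hy
            rw [hy]
            have := S.h_nonneg J₁ 1 (y - δ)
            omega
          rw [hp, en_add, en_tr ((S.snap J₁).dim _ hE1)]
          exact add_nonneg ((ih J₁ h1).nn i j hE1) ((ih J₂ h2).nn i j hE2)
        · obtain ⟨m₁, hm₁⟩ := (ih J₁ h1).uni
          obtain ⟨m₂, hm₂⟩ := (ih J₂ h2).uni
          refine ⟨max (m₁ + δ) m₂, fun x y hy => ?_⟩
          have h3 := hm₁ x (y - δ) (by
            have := le_trans (le_max_left _ _) hy
            omega)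
          have h4 := hm₂ x y (le_trans (le_max_right _ _) hy)
          refine ⟨?_, hd3 _ _ h3.2 h4.2⟩
          rw [hd2 _ _ h3.2, h3.1, h4.1, hp]
          simp only [tr, Pi.add_apply, mul_one, ← sub_eq_add_neg]

/-- uniform vanishing for the powers of a nef line bundle -/
theorem uniform (hM : S.Nef M) (J : V) : ∃ m : ℤ, ∀ (x : ℕ) (y : ℤ), m ≤ y →
    S.hv J (M ^ x) y := by
  obtain ⟨m, hm⟩ := (good hM J).uni
  exact ⟨m, fun x y hy => (hm x y hy).2⟩

/-- Kleiman's theorem -/
theorem ample (hM : S.Nef M) (J : V) (x : ℕ) {y : ℕ} (hy : 1 ≤ y) : S.am J (M ^ x) y := by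
  have hy' : (1 : ℤ) ≤ y := by exact_mod_cast hy
  refine S.seven J _ _ (fun J' _ c => ?_) (fun Q hQ _ => (good hM Q).sections hQ x hy)
  filter_upwards [(good hM J').along x hy' c] with m hm using hm.2

end Kl

end Pool.Agent.Lib.MP_0b721b_ag
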