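import Pool.Agent.Lib.MP_0b721b_ag.Kl.End

/-!
Primes whose Hilbert function has degree one are the integral curves: there is a prime above, and
no chain of two.
-/

namespace Pool.Agent.Lib.MP_0b721b_ag

namespace Kl

open Filter

variable {V T : Type*} [PartialOrder V] [WellFoundedGT V] [CommMonoid T] (S : Sys V T)

/-- `P` is an integral curve: it is not a closed point, and every prime above it is one -/
def Sys.Curve (P : V) : Prop :=
  S.pr P ∧ (∃ Q, S.pr Q ∧ P < Q) ∧ ∀ Q Q', S.pr Q → S.pr Q' → P < Q → ¬ Q < Q'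

variable {S}

/-- an ideal with no primes above has no sections -/
theorem p_eq_zero_of {J : V} (h : ∀ Q, S.pr Q → ¬ J ≤ Q) : S.p J = 0 := by
  induction J using WellFoundedGT.induction with
  | ind J ih =>
    have hJ : ¬ S.pr J := fun hJ => h J hJ le_rfl
    rcases S.dec J hJ with h0 | ⟨J₁, J₂, h1, h2, δ, -, hd2, -⟩
    · refine eq_of_ev (S.snap J).deg ⟨0, rfl⟩ fun A => ?_
      filter_upwards [(S.snap J).ev A] with y hy
      rw [← hy, (h0 A y).1]
      rfl
    · rw [Sys.p_dec hd2, ih J₁ h1 fun Q hQ hle => h Q hQ (h1.le.trans hle),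
        ih J₂ h2 fun Q hQ hle => h Q hQ (h2.le.trans hle), tr_zero, add_zero]

theorem curve_of_ev {P : V} (hP : S.pr P) (h : Ev 2 (S.h P 1)) (h' : ¬ Ev 1 (S.h P 1)) :
    S.Curve P := by
  refine ⟨hP, ?_, ?_⟩
  · by_contra hno
    push Not at hno
    obtain ⟨H, hH, -, hH2⟩ := S.hyp P hP
    have hz : S.p H = 0 := p_eq_zero_of fun Q hQ hle => hno Q hQ (lt_of_lt_of_le hH hle)
    have h0 : Ev 0 (S.h H 1) := (S.snap H).ev_h (k := 0) hz 1
    refine h' (ev_succ_of h0 ?_)
    filter_upwards [eventually_shift (S.serre P 1) (-1)] with y hy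
    rw [← sub_eq_add_neg] at hy
    exact hH2 1 y hy
  · intro Q Q' hQ hQ' h1 h2
    have h3 : Ev 1 (S.h Q 1) := ev_lt hP h1 (S.snap Q) h
    have h4 : Ev 0 (S.h Q' 1) := ev_lt hQ h2 (S.snap Q') h3
    exact not_ev_zero hQ' h4

/-- conversely, an integral curve has a Hilbert function of degree one -/
theorem ev_of_curve {P : V} (h : S.Curve P) : Ev 2 (S.h P 1) ∧ ¬ Ev 1 (S.h P 1) := by
  obtain ⟨hP, ⟨Q, hQ, hPQ⟩, hch⟩ := h
  constructor
  · -- everything above `P` has degree at most zero
    have key : ∀ J, P < J → Ev 1 (S.h J 1) := by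
      intro J
      induction J using WellFoundedGT.induction with
      | ind J ih =>
        intro hJ
        by_cases hJp : S.pr J
        · obtain ⟨H, hH, -, hH2⟩ := S.hyp J hJp
          have hz : S.p H = 0 := p_eq_zero_of fun Q' hQ' hle =>
            hch J Q' hJp hQ' hJ (lt_of_lt_of_le hH hle)
          have h0 : Ev 0 (S.h H 1) := (S.snap H).ev_h (k := 0) hz 1
          refine ev_succ_of h0 ?_
          filter_upwards [eventually_shift (S.serre J 1) (-1)] with y hy
          rw [← sub_eq_add_neg] at hy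
          exact hH2 1 y hy
        · rcases S.dec J hJp with h0 | ⟨J₁, J₂, h1, h2, δ, -, hd2, -⟩
          · exact (Ev.zero 1).congr (Eventually.of_forall fun y => (h0 1 y).1.symm)
          · refine (((ih J₁ h1 (hJ.trans h1)).shift (-δ)).add (ih J₂ h2 (hJ.trans h2))).congr ?_
            filter_upwards [eventually_shift (S.serre J₁ 1) (-δ)] with y hy
            rw [← sub_eq_add_neg] at hy
            rw [hd2 1 y hy, sub_eq_add_neg]
    obtain ⟨H, hH, -, hH2⟩ := S.hyp P hP
    refine ev_succ_of (key H hH) ?_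
    filter_upwards [eventually_shift (S.serre P 1) (-1)] with y hy
    rw [← sub_eq_add_neg] at hy
    exact hH2 1 y hy
  · intro h1
    exact not_ev_zero hQ (ev_lt hP hPQ (S.snap Q) h1)

/-- the definition of nef by integral curves -/
theorem nef_iff_curve {M : T} :
    S.Nef M ↔ ∀ P, S.Curve P → ∀ᶠ y in atTop, S.h P 1 y ≤ S.h P M y :=
  ⟨fun h P hP => h P hP.1 (ev_of_curve hP).1 (ev_of_curve hP).2,
    fun h P hP h1 h2 => h P (curve_of_ev hP h1 h2)⟩

end Kl

end Pool.Agent.Lib.MP_0b721b_ag
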