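import Pool.Agent.Lib.MP_0b721b_ag.Kl.Sec

/-!
The exact sequence of twisted Cech complexes given by a section of a line bundle:
`M ⊗ A → M ⊗ A ⊗ B(n) → (M / K) ⊗ A ⊗ B(n)`.
-/

namespace Pool.Agent.Lib.MP_0b721b_ag

open Finset

section quot

variable {S : Type*} [CommRing S] {M N : Type*} [AddCommGroup M] [Module S M]
  [AddCommGroup N] [Module S N]

/-- the map on fractions induced by a linear map -/
def lmap (s : S) (π : M →ₗ[S] N) : Loc s M →+ Loc s N :=
  smap (s := s) (s' := s) π.toAddMonoidHom (fun m => map_smul π s m)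

theorem lmap_fr (s : S) (π : M →ₗ[S] N) (m : M) (k : ℕ) :
    lmap s π (fr s m k) = fr s (π m) k := rfl

theorem lmap_opm (s : S) (π : M →ₗ[S] N) (w : S) (j : ℕ) (z : Loc s M) :
    lmap s π (opm s w j z) = opm s w j (lmap s π z) := by
  obtain ⟨m, k, rfl⟩ := fr_surj z
  rw [opm_fr, lmap_fr, lmap_fr, opm_fr, map_smul]

theorem lmap_locRes (s r t : S) (ht : s * r = t) (π : M →ₗ[S] N) (z : Loc s M) :
    lmap t π (locRes s r t ht z) = locRes s r t ht (lmap s π z) := by
  obtain ⟨m, k, rfl⟩ := fr_surj z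
  rw [locRes_fr, lmap_fr, lmap_fr, locRes_fr, map_smul]

theorem lmap_eq_zero {s : S} {π : M →ₗ[S] N} {m : M} {k : ℕ}
    (h : lmap s π (fr s m k) = 0) : ∃ j : ℕ, π (s ^ j • m) = 0 := by
  rw [lmap_fr, fr_eq_zero] at h
  obtain ⟨j, hj⟩ := h
  exact ⟨j, by rw [map_smul, hj]⟩

variable {g : Gr M} {gN : Gr N} {π : M →ₗ[S] N}

/-- `π` respects the gradings -/
def GrHom (g : Gr M) (gN : Gr N) (π : M →ₗ[S] N) : Prop := ∀ n m, π (g.pr n m) = gN.pr n (π m)

theorem GrHom.lDeg (h : GrHom g gN π) {s : S} {d n : ℤ} {z : Loc s M} (hz : LDeg g s d n z) :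
    LDeg gN s d n (lmap s π z) := by
  obtain ⟨k, m, hm, rfl⟩ := hz
  refine ⟨k, π m, ?_, lmap_fr _ _ _ _⟩
  unfold Gr.Hom at *
  rw [← h, hm]

theorem GrHom.surj (h : GrHom g gN π) (hs : Function.Surjective π) {s : S} {d n : ℤ}
    {z : Loc s N} (hz : LDeg gN s d n z) : ∃ y : Loc s M, LDeg g s d n y ∧ lmap s π y = z := by
  obtain ⟨k, m, hm, rfl⟩ := hz
  obtain ⟨m', rfl⟩ := hs m
  refine ⟨fr s (g.pr (n + k * d) m') k, ⟨k, _, g.hom_pr _ _, rfl⟩, ?_⟩
  rw [lmap_fr, h]
  unfold Gr.Hom at hm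
  rw [hm]

end quot

section div

variable {S : Type*} [CommRing S] {α : Type*} [LinearOrder α] {D : Dat S α}
  {M N : Type*} [AddCommGroup M] [Module S M] [AddCommGroup N] [Module S N]
  {g : Gr M} {gN : Gr N} {π : M →ₗ[S] N}

theorem lmap_tw (D : Dat S α) (π : M →ₗ[S] N) (J J' : Finset α) (h0 : J.Nonempty) (h : J ⊆ J')
    (z : Loc (D.fJ J) M) :
    lmap (D.fJ J') π (D.tw M J J' h0 h z) = D.tw N J J' h0 h (lmap (D.fJ J) π z) := by
  rw [Dat.tw_eq, Dat.tw_eq, lmap_opm]
  congr 1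
  exact lmap_locRes _ _ _ _ _ _

variable (π) in
/-- the quotient map in degree `n` -/
def quoG (hD : D.Ok g) (hN : D.Ok gN) (hπ : GrHom g gN π) (n : ℤ) (J : Finset α) :
    hD.G D n J →+ hN.G D n J :=
  ((lmap (D.fJ J) π).comp (AddSubgroup.subtype _)).codRestrict _ (fun z => hπ.lDeg z.2)

theorem quoG_val (hD : D.Ok g) (hN : D.Ok gN) (hπ : GrHom g gN π) (n : ℤ) (J : Finset α)
    (z : hD.G D n J) : (quoG π hD hN hπ n J z).1 = lmap (D.fJ J) π z.1 := rfl

theorem quoG_nat (hD : D.Ok g) (hN : D.Ok gN) (hπ : GrHom g gN π) (n : ℤ) :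
    Nat' (hD.ρ D n) (hN.ρ D n) (quoG π hD hN hπ n) := by
  intro J J' h0 h z
  apply Subtype.ext
  exact lmap_tw D π J J' h0 h z.1

theorem quoG_surj (hD : D.Ok g) (hN : D.Ok gN) (hπ : GrHom g gN π) (hs : Function.Surjective π)
    (n : ℤ) (J : Finset α) : Function.Surjective (quoG π hD hN hπ n J) := by
  rintro ⟨z, hz⟩
  obtain ⟨y, hy, h⟩ := hπ.surj hs hz
  exact ⟨⟨y, hy⟩, Subtype.ext h⟩

variable {t2 : ℕ} {v2 : α → α → S} {w : α → S} {e : ℕ} {n : ℤ}

variable (D M w e) in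
/-- multiplication by the section over `J` (zero for empty `J`) -/
def mulD (J : Finset α) : Loc (D.fJ J) M →+ Loc (D.fJ J) M :=
  if h0 : J.Nonempty then D.mulS M w e J h0 else 0

theorem mulD_lDeg (hD : D.Ok g) (hs : SecOk D g t2 v2 w e n) {l : ℤ} {J : Finset α}
    {z : Loc (D.fJ J) M} (hz : LDeg g (D.fJ J) (D.dJ J) l z) :
    LDeg g (D.fJ J) (D.dJ J) (l + n) (mulD D M w e J z) := by
  unfold mulD
  by_cases h0 : J.Nonempty
  · rw [dif_pos h0]
    exact hs.lDeg hD h0 hz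
  · rw [dif_neg h0]
    exact (locDeg g (hD.opJ J) (l + n)).zero_mem

/-- multiplication by the section in degree `l` -/
def mulG (hD : D.Ok g) (hD' : (D.tens t2 v2).Ok g) (hs : SecOk D g t2 v2 w e n) (l : ℤ)
    (J : Finset α) : hD.G D l J →+ hD'.G (D.tens t2 v2) (l + n) J :=
  AddMonoidHom.mk' (fun z => ⟨mulD D M w e J z.1, mulD_lDeg hD hs z.2⟩) (by
    intro z z'
    apply Subtype.ext
    exact map_add (mulD D M w e J) _ _)

theorem mulG_val (hD : D.Ok g) (hD' : (D.tens t2 v2).Ok g) (hs : SecOk D g t2 v2 w e n) (l : ℤ)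
    (J : Finset α) (h0 : J.Nonempty) (z : hD.G D l J) :
    (mulG hD hD' hs l J z).1 = D.mulS M w e J h0 z.1 := by
  change mulD D M w e J z.1 = _
  unfold mulD
  rw [dif_pos h0]

theorem mulG_nat (hD : D.Ok g) (hD' : (D.tens t2 v2).Ok g) (hs : SecOk D g t2 v2 w e n) (l : ℤ) :
    Nat' (hD.ρ D l) (hD'.ρ (D.tens t2 v2) (l + n)) (mulG hD hD' hs l) := by
  intro J J' h0 h z
  apply Subtype.ext
  rw [mulG_val _ _ _ _ _ (h0.mono h)]
  change _ = (D.tens t2 v2).tw M J J' h0 h (mulG hD hD' hs l J z).1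
  rw [mulG_val _ _ _ _ _ h0]
  exact hs.nat J J' h0 h z.1

/-- the exact sequence of a section; `K = ker π` consists of the `m` which are locally multiples of
the section -/
theorem sesDiv [Fintype α] (hD : D.Ok g) (hD' : (D.tens t2 v2).Ok g) (hN : (D.tens t2 v2).Ok gN)
    (hs : SecOk D g t2 v2 w e n) (hπ : GrHom g gN π) (hsurj : Function.Surjective π)
    (hinj : ∀ (a : α) (m : M), (∃ i : ℕ, D.f a ^ i • w a • m = 0) → ∃ i : ℕ, D.f a ^ i • m = 0)
    (hker : ∀ m, π m = 0 ↔ ∀ a, ∃ (i : ℕ) (m' : M), D.f a ^ i • m = w a • m') (l : ℤ) :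
    SES (ρ₁ := hD.ρ D l) (ρ₂ := hD'.ρ (D.tens t2 v2) (l + n))
      (ρ₃ := hN.ρ (D.tens t2 v2) (l + n)) (mulG hD hD' hs l) (quoG π hD' hN hπ (l + n)) where
  natφ := mulG_nat hD hD' hs l
  natψ := quoG_nat hD' hN hπ (l + n)
  inj := by
    intro J h0
    rw [injective_iff_map_eq_zero]
    intro z hz
    have hz1 : D.mulS M w e J h0 z.1 = 0 := by
      rw [← mulG_val hD hD' hs l J h0 z, hz]
      rfl
    apply Subtype.ext
    obtain ⟨m, k, hmk⟩ := fr_surj z.1
    rw [hmk, Dat.mulS_fr, fr_eq_zero] at hz1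
    obtain ⟨j, hj⟩ := hz1
    have haJ : J.min' h0 ∈ J := Finset.min'_mem _ _
    have hF : D.f (J.min' h0) * D.fJ (J.erase (J.min' h0)) = D.fJ J := D.fJ_erase haJ
    change z.1 = 0
    rw [hmk, fr_eq_zero]
    generalize J.min' h0 = a at *
    obtain ⟨i, hi⟩ := hinj a (D.fJ (J.erase a) ^ (j + e) • m) ⟨j, by
      rw [smul_smul, smul_smul]
      rw [smul_smul, ← hF] at hj
      rw [← hj]
      congr 1
      ring⟩
    refine ⟨i + (j + e), ?_⟩
    rw [smul_smul] at hi
    have : D.fJ J ^ (i + (j + e)) • m = (D.fJ (J.erase a) ^ i * D.f a ^ (j + e)) •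
        (D.f a ^ i * D.fJ (J.erase a) ^ (j + e)) • m := by
      rw [smul_smul, ← hF]
      congr 1
      ring
    rw [this, hi, smul_zero]
  exact := by
    intro J h0 z
    have haJ : J.min' h0 ∈ J := Finset.min'_mem _ _
    have hF : D.f (J.min' h0) * D.fJ (J.erase (J.min' h0)) = D.fJ J := D.fJ_erase haJ
    constructor
    · intro hz
      have hz1 : lmap (D.fJ J) π z.1 = 0 := congrArg Subtype.val hz
      -- a homogeneous representative
      obtain ⟨k, m, hm, hmk⟩ := z.2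
      have hz2 : lmap (D.fJ J) π (fr (D.fJ J) m k) = 0 := by
        have : z.1 = fr (D.fJ J) m k := hmk
        rw [← this]
        exact hz1
      obtain ⟨j, hj⟩ := lmap_eq_zero hz2
      obtain ⟨i, m', hm'⟩ := (hker _).1 hj (J.min' h0)
      have hopw := hs.opw (J.min' h0)
      have hopf := hD.opf (J.min' h0)
      have hopF := hD.opJ J
      have hopF' := hD.opJ (J.erase (J.min' h0))
      have hdF := D.dJ_erase haJ
      have hmulS : ∀ (m : M) (k : ℕ), D.mulS M w e J h0 (fr _ m k) =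
        fr _ ((w (J.min' h0) * D.fJ (J.erase (J.min' h0)) ^ e) • m) (k + e) := fun m k => rfl
      generalize J.min' h0 = a at *
      -- replace `m'` by its component
      have hdeg1 : g.Hom (l + n + k * D.dJ J + (j * D.dJ J) + i * D.d a)
          (D.f a ^ i • D.fJ J ^ j • m) := (hopf.pow i).hom ((hopF.pow j).hom hm)
      have hm'' : D.f a ^ i • D.fJ J ^ j • m =
          w a • g.pr (l + k * D.dJ J + j * D.dJ J + i * D.d a - e * D.d a) m' := by
        have h1 := hopw (l + k * D.dJ J + j * D.dJ J + i * D.d a - e * D.d a) m'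
        rw [← hm', show l + k * D.dJ J + j * D.dJ J + i * D.d a - e * D.d a + (n + e * D.d a) =
          l + n + k * D.dJ J + (j * D.dJ J) + i * D.d a by ring] at h1
        rw [← h1]
        exact hdeg1.symm
      have hy : LDeg g (D.fJ J) (D.dJ J) l (fr (D.fJ J) ((D.fJ (J.erase a) ^ i * D.f a ^ e) •
          g.pr (l + k * D.dJ J + j * D.dJ J + i * D.d a - e * D.d a) m') (k + i + j)) := by
        refine ⟨k + i + j, _, ?_, rfl⟩
        have h1 := ((hopF'.pow i).mul (hopf.pow e)).hom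
          (g.hom_pr (l + k * D.dJ J + j * D.dJ J + i * D.d a - e * D.d a) m')
        convert h1 using 1
        push_cast
        rw [← hdF]
        ring
      refine ⟨⟨_, hy⟩, ?_⟩
      apply Subtype.ext
      rw [mulG_val _ _ _ _ _ h0]
      change D.mulS M w e J h0 (fr (D.fJ J) _ _) = z.1
      rw [hmulS, hmk]
      refine fr_eq_of 0 ?_
      have h2 : (D.fJ J) ^ (0 + k) • (w a * D.fJ (J.erase a) ^ e) • (D.fJ (J.erase a) ^ i * D.f a ^ e) •
          g.pr (l + k * D.dJ J + j * D.dJ J + i * D.d a - e * D.d a) m' =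
          (D.fJ J ^ k * D.fJ (J.erase a) ^ e * D.fJ (J.erase a) ^ i * D.f a ^ e) •
          (w a • g.pr (l + k * D.dJ J + j * D.dJ J + i * D.d a - e * D.d a) m') := by
        rw [smul_smul, smul_smul, smul_smul]
        congr 1
        ring
      rw [h2, ← hm'', smul_smul, smul_smul]
      congr 1
      rw [← hF]
      ring
    · rintro ⟨y, rfl⟩
      apply Subtype.ext
      rw [quoG_val]
      obtain ⟨m, k, hmk⟩ := fr_surj y.1
      have h1 : (mulG hD hD' hs l J y).1 = fr (D.fJ J)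
          ((w (J.min' h0) * D.fJ (J.erase (J.min' h0)) ^ e) • m) (k + e) := by
        rw [mulG_val _ _ _ _ _ h0, hmk]
        rfl
      have h2 : lmap ((D.tens t2 v2).fJ J) π (mulG hD hD' hs l J y).1 = fr (D.fJ J)
          (π ((w (J.min' h0) * D.fJ (J.erase (J.min' h0)) ^ e) • m)) (k + e) := by
        rw [h1]
        rfl
      rw [h2]
      change fr (D.fJ J) _ _ = 0
      rw [fr_eq_zero]
      generalize J.min' h0 = a at *
      choose i hi using fun b => hs.comp a b m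
      have hib : ∀ b, i b ≤ ∑ b, i b := fun b =>
        Finset.single_le_sum (f := i) (fun _ _ => Nat.zero_le _) (Finset.mem_univ b)
      refine ⟨∑ b, i b + t2, ?_⟩
      rw [← map_smul, hker]
      intro b
      obtain ⟨c, hc⟩ := Nat.exists_eq_add_of_le (hib b)
      refine ⟨i b + e + t2, (D.f a ^ c * D.fJ (J.erase a) ^ (∑ b, i b + t2 + e) *
        (D.f a * D.f b) ^ i b * v2 a b * D.f a ^ e) • m, ?_⟩
      have h3 := hi b
      rw [smul_smul, smul_smul] at h3
      rw [smul_smul, smul_smul, smul_smul]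
      have h4 : D.f b ^ (i b + e + t2) * (D.fJ J ^ (∑ b, i b + t2) * (w a * D.fJ (J.erase a) ^ e)) =
          (D.f a ^ c * D.fJ (J.erase a) ^ (∑ b, i b + t2 + e)) *
          ((D.f a * D.f b) ^ i b * (w a * D.f b ^ e * (D.f a * D.f b) ^ t2)) := by
        rw [← hF, mul_pow (D.f a) (D.fJ (J.erase a))]
        have h5 : D.f a ^ (∑ b, i b + t2) = D.f a ^ (i b + c + t2) := by rw [hc]
        rw [h5]
        ring
      have h6 : w b * (D.f a ^ c * D.fJ (J.erase a) ^ (∑ b, i b + t2 + e) *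
          (D.f a * D.f b) ^ i b * v2 a b * D.f a ^ e) =
          (D.f a ^ c * D.fJ (J.erase a) ^ (∑ b, i b + t2 + e)) *
          ((D.f a * D.f b) ^ i b * (v2 a b * w b * D.f a ^ e)) := by ring
      have key : ∀ C x y : S, x • m = y • m → (C * x) • m = (C * y) • m := fun C x y h => by
        rw [mul_smul, mul_smul, h]
      rw [mul_assoc, h4, h6]
      exact key _ _ _ h3
  surj := by
    intro J _
    exact quoG_surj hD' hN hπ hsurj (l + n) J

end div

end Pool.Agent.Lib.MP_0b721b_ag
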