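import Pool.Agent.Lib.MP_0b721b_ag.NefDef

/-!
Homogeneous ideals of a weighted polynomial ring: the elements which show that an ideal is not
prime, finite homogeneous generation.
-/

namespace Pool.Agent.Lib.MP_0b721b_ag

namespace Kl

open MvPolynomial

variable {k : Type*} [CommRing k] {σ : Type*} {w : σ → ℤ}

theorem sub_iff {J : Ideal (MvPolynomial σ k)} :
    letI := weightedGradedAlgebra k w
    (polyGr k w).Sub J ↔ J.IsHomogeneous (weightedHomogeneousSubmodule k w) := by
  classical
  let := weightedGradedAlgebra k w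
  have e : ∀ (f : MvPolynomial σ k) (n : ℤ),
      (DirectSum.decompose (weightedHomogeneousSubmodule k w) f n : MvPolynomial σ k) =
        (polyGr k w).pr n f := by
    intro f n
    exact weightedDecomposition.decompose'_apply k w f n
  constructor
  · intro h n f hf
    have h1 := h n f hf
    rw [← e] at h1
    exact h1
  · intro h n f hf
    have h1 := h n hf
    rw [e] at h1
    exact h1

/-- a homogeneous ideal which is neither prime nor the whole ring -/
theorem exists_split {J : Ideal (MvPolynomial σ k)} (hJ : (polyGr k w).Sub J) (h1 : J ≠ ⊤)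
    (h2 : ¬ J.IsPrime) : ∃ (a b : MvPolynomial σ k) (m n : ℤ), (polyGr k w).Hom m a ∧
      (polyGr k w).Hom n b ∧ a ∉ J ∧ b ∉ J ∧ a * b ∈ J := by
  classical
  let := weightedGradedAlgebra k w
  by_contra hcon
  push Not at hcon
  refine h2 ((sub_iff.1 hJ).isPrime_of_homogeneous_mem_or_mem h1 ?_)
  intro x y hx hy hxy
  obtain ⟨m, hm⟩ := hx
  obtain ⟨n, hn⟩ := hy
  by_contra hno
  push Not at hno
  exact hcon x y m n (polyGr_hom_iff.2 ((mem_weightedHomogeneousSubmodule _ _ _ _).1 hm))
    (polyGr_hom_iff.2 ((mem_weightedHomogeneousSubmodule _ _ _ _).1 hn)) hno.1 hno.2 hxy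

/-- a homogeneous ideal is generated by finitely many homogeneous elements -/
theorem exists_fin {N : ℕ} [IsNoetherianRing k] {w : Fin N → ℤ}
    {J : Ideal (MvPolynomial (Fin N) k)} (hJ : (polyGr k w).Sub J) :
    ∃ s : Finset (MvPolynomial (Fin N) k), (∀ a ∈ s, ∃ δ, (polyGr k w).Hom δ a) ∧
      Ideal.span (s : Set (MvPolynomial (Fin N) k)) = J := by
  classical
  obtain ⟨t, ht⟩ := (inferInstance : IsNoetherianRing (MvPolynomial (Fin N) k)).noetherian J
  let s : Finset (MvPolynomial (Fin N) k) := t.biUnion fun f =>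
    ((polyGr k w).fin f).toFinset.image fun n => (polyGr k w).pr n f
  have hs : ∀ x, x ∈ s ↔ ∃ f ∈ t, ∃ n, (polyGr k w).pr n f ≠ 0 ∧ (polyGr k w).pr n f = x := by
    intro x
    simp only [s, Finset.mem_biUnion, Finset.mem_image, Set.Finite.mem_toFinset, Set.mem_ofPred_eq]
  refine ⟨s, ?_, le_antisymm ?_ ?_⟩
  · intro a ha
    obtain ⟨f, hf, n, -, rfl⟩ := (hs a).1 ha
    exact ⟨n, (polyGr k w).hom_pr n f⟩
  · rw [Ideal.span_le]
    intro a ha
    obtain ⟨f, hf, n, -, rfl⟩ := (hs a).1 (Finset.mem_coe.1 ha)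
    refine hJ n f ?_
    rw [← ht]
    exact Submodule.subset_span hf
  · rw [← ht]
    change Submodule.span _ _ ≤ _
    rw [Submodule.span_le]
    intro f hf
    change f ∈ Ideal.span (s : Set (MvPolynomial (Fin N) k))
    rw [← (polyGr k w).sum f]
    refine finsum_induction (p := fun x => x ∈ Ideal.span (s : Set (MvPolynomial (Fin N) k)))
      (Ideal.zero_mem _) (fun _ _ => Ideal.add_mem _) (fun n => ?_)
    by_cases h : (polyGr k w).pr n f = 0
    · rw [h]
      exact Ideal.zero_mem _
    · exact Ideal.subset_span (Finset.mem_coe.2 ((hs _).2 ⟨f, hf, n, h, rfl⟩))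

/-- with weights one all degrees are at least zero -/
theorem deg_nonneg {w : σ → ℤ} (hw : ∀ i, 0 ≤ w i) {a : MvPolynomial σ k} {δ : ℤ}
    (ha : (polyGr k w).Hom δ a) (h : a ≠ 0) : 0 ≤ δ := by
  obtain ⟨m, hm⟩ := MvPolynomial.ne_zero_iff.1 h
  have h1 := (polyGr_hom_iff.1 ha) hm
  rw [← h1, Finsupp.weight_apply]
  exact Finset.sum_nonneg fun i _ => smul_nonneg (Nat.zero_le _) (hw i)

end Kl

end Pool.Agent.Lib.MP_0b721b_ag
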