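import Pool.Agent.Lib.MP_0b721b_ag.Kl.Div

/-!
Line bundles on a fixed cover as a commutative monoid; cochains without degree conditions on the
types.
-/

namespace Pool.Agent.Lib.MP_0b721b_ag

open Finset

/-- twists: an exponent and the numerators of the transition functions -/
abbrev Twt (S α : Type*) := Multiplicative ℕ × (α → α → S)

/-- the twist `A` on the cover `f` with degrees `d` -/
def DT {S α : Type*} (f : α → S) (d : α → ℤ) (A : Twt S α) : Dat S α where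
  f := f
  d := d
  t := Multiplicative.toAdd A.1
  v := A.2

section

variable {S : Type*} [CommRing S] {α : Type*} [LinearOrder α] {f : α → S} {d : α → ℤ}

theorem DT_mul (A B : Twt S α) :
    DT f d (A * B) = (DT f d A).tens (Multiplicative.toAdd B.1) B.2 := rfl

variable {M : Type*} [AddCommGroup M] [Module S M] {g : Gr M}

theorem dC_val (D : Dat S α) (hD : D.Ok g) (n : ℤ) (z : ∀ J, hD.G D n J) (J : Finset α) :
    (dC (hD.ρ D n) z J).1 = dC (D.tw M) (fun J => (z J).1) J := by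
  have key := dC_map (ρ₁ := hD.ρ D n) (ρ₂ := D.tw M)
    (φ := fun J => (locDeg g (hD.opJ J) n).subtype) (by
      intro J J' h0 h z
      rfl) z J
  exact key.symm

/-- vanishing of the cohomology in terms of cochains of fractions -/
theorem van_iff_raw (D : Dat S α) (hD : D.Ok g) (n : ℤ) (p : ℕ) :
    Van (hD.ρ D n) p ↔ ∀ z : ∀ J, Loc (D.fJ J) M,
      (∀ J, LDeg g (D.fJ J) (D.dJ J) n (z J)) → (∀ J, J.card = p + 2 → dC (D.tw M) z J = 0) →
      ∃ w : ∀ J, Loc (D.fJ J) M, (∀ J, LDeg g (D.fJ J) (D.dJ J) n (w J)) ∧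
        ∀ J, J.card = p + 1 → dC (D.tw M) w J = z J := by
  constructor
  · intro h z hz hc
    obtain ⟨w, hw⟩ := h (fun J => ⟨z J, hz J⟩) (fun J hJ => by
      apply Subtype.ext
      rw [dC_val]
      exact hc J hJ)
    refine ⟨fun J => (w J).1, fun J => (w J).2, fun J hJ => ?_⟩
    rw [← dC_val, hw J hJ]
  · intro h z hz
    obtain ⟨w, hw, hw'⟩ := h (fun J => (z J).1) (fun J => (z J).2) (fun J hJ => by
      rw [← dC_val, hz J hJ]
      rfl)
    refine ⟨fun J => ⟨w J, hw J⟩, fun J hJ => ?_⟩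
    apply Subtype.ext
    rw [dC_val]
    exact hw' J hJ

/-- scalars of `S` commute with the twisted restrictions -/
theorem tw_smulS (D : Dat S α) (r : S) (J J' : Finset α) (h0 : J.Nonempty) (h : J ⊆ J')
    (z : Loc (D.fJ J) M) : D.tw M J J' h0 h (r • z) = r • D.tw M J J' h0 h z := by
  obtain ⟨m, k, rfl⟩ := fr_surj z
  rw [Dat.tw_eq, Dat.tw_eq]
  change fr _ _ _ = fr _ _ _
  congr 1
  rw [smul_smul, smul_smul, smul_smul, smul_smul]
  congr 1
  ring

theorem dC_smul (D : Dat S α) (r : S) (z : ∀ J, Loc (D.fJ J) M) (J : Finset α) :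
    dC (D.tw M) (fun J => r • z J) J = r • dC (D.tw M) z J := by
  have key := dC_map (ρ₁ := D.tw M) (ρ₂ := D.tw M)
    (φ := fun J => (DistribSMul.toAddMonoidHom (Loc (D.fJ J) M) r)) (by
      intro J J' h0 h z
      exact (tw_smulS D r J J' h0 h z).symm) z J
  exact key

theorem lDeg_smul {s : S} {dd n e : ℤ} {r : S} (hr : g.Op r e) {z : Loc s M}
    (hz : LDeg g s dd n z) : LDeg g s dd (n + e) (r • z) := by
  obtain ⟨k, m, hm, rfl⟩ := hz
  refine ⟨k, r • m, ?_, rfl⟩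
  have := hr.hom hm
  convert this using 1
  ring

end

/-- lifting classes through the first map of a short exact sequence, if the third functor has no
cohomology -/
theorem SES.class_lift {α : Type*} [LinearOrder α]
    {G₁ : Finset α → Type*} [∀ J, AddCommGroup (G₁ J)]
    {G₂ : Finset α → Type*} [∀ J, AddCommGroup (G₂ J)]
    {G₃ : Finset α → Type*} [∀ J, AddCommGroup (G₃ J)]
    {ρ₁ : ∀ J J' : Finset α, J.Nonempty → J ⊆ J' → G₁ J →+ G₁ J'}
    {ρ₂ : ∀ J J' : Finset α, J.Nonempty → J ⊆ J' → G₂ J →+ G₂ J'}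
    {ρ₃ : ∀ J J' : Finset α, J.Nonempty → J ⊆ J' → G₃ J →+ G₃ J'}
    {φ : ∀ J, G₁ J →+ G₂ J} {ψ : ∀ J, G₂ J →+ G₃ J}
    (h : SES (ρ₁ := ρ₁) (ρ₂ := ρ₂) (ρ₃ := ρ₃) φ ψ) (hρ₂ : Fct ρ₂) {p : ℕ} (hp : 1 ≤ p)
    (h3 : Van ρ₃ p) (z : ∀ J, G₂ J) (hz : ∀ J, J.card = p + 2 → dC ρ₂ z J = 0) :
    ∃ (y : ∀ J, G₁ J) (w : ∀ J, G₂ J), (∀ J, J.card = p + 2 → dC ρ₁ y J = 0) ∧
      ∀ J, J.card = p + 1 → z J = φ J (y J) + dC ρ₂ w J := by
  obtain ⟨w3, hw3⟩ := h3 (fun J => ψ J (z J)) (fun J hJ => by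
    rw [dC_map h.natψ, hz J hJ, map_zero])
  obtain ⟨w, hw⟩ := h.lift w3
  obtain ⟨y, hy⟩ := h.pull (k := p) (z - dC ρ₂ w) (fun J hJ => by
    rw [Pi.sub_apply, map_sub, ← dC_map h.natψ, ← hw3 J hJ, sub_eq_zero]
    refine dC_congr fun K hK => ?_
    exact (hw K (nonempty_of_card (k := p - 1) (by omega))).symm)
  refine ⟨y, w, fun J hJ => ?_, fun J hJ => ?_⟩
  · apply h.inj J (nonempty_of_card (k := p + 1) hJ)
    rw [map_zero, ← dC_map h.natφ]
    have : dC ρ₂ (fun J => φ J (y J)) J = dC ρ₂ (z - dC ρ₂ w) J :=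
      dC_congr fun K hK => hy K (by omega)
    rw [this, dC_sub, hz J hJ, dC_dC hρ₂, sub_zero]
  · rw [hy J hJ, Pi.sub_apply, sub_add_cancel]

end Pool.Agent.Lib.MP_0b721b_ag
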