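import Pool.Agent.Lib.MP_0b721b_ag.Cyc
import Pool.Agent.Lib.MP_0b721b_ag.Kl.Raw

/-!
The commutative monoid of the line bundles on a fixed cover of `V(I)`.
-/

namespace Pool.Agent.Lib.MP_0b721b_ag

open MvPolynomial

section

variable {A : Type*} [CommRing A] {σ : Type*} {α : Type*} {w : σ → ℤ}
  {M : Dat (MvPolynomial σ A) α} {I : Ideal (MvPolynomial σ A)}

theorem DT_pow {S α : Type*} [CommRing S] (f : α → S) (d : α → ℤ) (B : Twt S α) (n : ℕ) :
    DT f d (B ^ n) = (DT f d B).pw n := by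
  unfold DT Dat.pw
  simp only [Prod.pow_fst, Prod.pow_snd, toAdd_pow, smul_eq_mul, Dat.mk.injEq, true_and]
  funext x y
  rfl

theorem DT_one {S α : Type*} [CommRing S] (f : α → S) (d : α → ℤ) (B : Twt S α) :
    DT f d (1 : Twt S α) = (DT f d B).pw 0 := by
  rw [← DT_pow, pow_zero]

/-- the twist of `M` -/
def twOf {S α : Type*} (M : Dat S α) : Twt S α := (Multiplicative.ofAdd M.t, M.v)

theorem DT_twOf {S α : Type*} (M : Dat S α) : DT M.f M.d (twOf M) = M := rfl

/-- the product of two line bundles on the same cover -/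
theorem Dat.Lb.mulT {B C : Twt (MvPolynomial σ A) α} {f : α → MvPolynomial σ A} {d : α → ℤ}
    (hB : (DT f d B).Lb w I) (hC : (DT f d C).Lb w I) : (DT f d (B * C)).Lb w I where
  pos := hB.pos
  hf := hB.hf
  hv a b := by
    have h1 : (polyGr A w).Hom (((Multiplicative.toAdd B.1 : ℕ) : ℤ) * (d a + d b) +
      ((Multiplicative.toAdd C.1 : ℕ) : ℤ) * (d a + d b)) (B.2 a b * C.2 a b) :=
      polyGr_mul (hB.hv a b) (hC.hv a b)
    change (polyGr A w).Hom (((Multiplicative.toAdd B.1 + Multiplicative.toAdd C.1 : ℕ) : ℤ) *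
      (d a + d b)) (B.2 a b * C.2 a b)
    convert h1 using 1
    push_cast
    ring
  self a := by
    obtain ⟨e, he⟩ := hB.self a
    obtain ⟨e', he'⟩ := hC.self a
    refine ⟨e + e', ?_⟩
    change f a ^ e * (B.2 a a - f a ^ (2 * Multiplicative.toAdd B.1)) ∈ I at he
    change f a ^ e' * (C.2 a a - f a ^ (2 * Multiplicative.toAdd C.1)) ∈ I at he'
    change f a ^ (e + e') * (B.2 a a * C.2 a a -
      f a ^ (2 * (Multiplicative.toAdd B.1 + Multiplicative.toAdd C.1))) ∈ I
    have h1 : f a ^ (e + e') * (B.2 a a * C.2 a a -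
        f a ^ (2 * (Multiplicative.toAdd B.1 + Multiplicative.toAdd C.1))) =
        (f a ^ e' * C.2 a a) * (f a ^ e * (B.2 a a - f a ^ (2 * Multiplicative.toAdd B.1))) +
        (f a ^ e * f a ^ (2 * Multiplicative.toAdd B.1)) *
          (f a ^ e' * (C.2 a a - f a ^ (2 * Multiplicative.toAdd C.1))) := by
      ring
    rw [h1]
    exact I.add_mem (I.mul_mem_left _ he) (I.mul_mem_left _ he')
  cocy a b c := by
    obtain ⟨e, he⟩ := hB.cocy a b c
    obtain ⟨e', he'⟩ := hC.cocy a b c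
    refine ⟨e + e', ?_⟩
    change (f a * f b * f c) ^ e * (B.2 a b * B.2 b c - B.2 a c *
      f b ^ (2 * Multiplicative.toAdd B.1)) ∈ I at he
    change (f a * f b * f c) ^ e' * (C.2 a b * C.2 b c - C.2 a c *
      f b ^ (2 * Multiplicative.toAdd C.1)) ∈ I at he'
    change (f a * f b * f c) ^ (e + e') * (B.2 a b * C.2 a b * (B.2 b c * C.2 b c) -
      B.2 a c * C.2 a c * f b ^ (2 * (Multiplicative.toAdd B.1 + Multiplicative.toAdd C.1))) ∈ I
    have h1 : (f a * f b * f c) ^ (e + e') * (B.2 a b * C.2 a b * (B.2 b c * C.2 b c) -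
        B.2 a c * C.2 a c * f b ^ (2 * (Multiplicative.toAdd B.1 + Multiplicative.toAdd C.1))) =
        ((f a * f b * f c) ^ e' * (C.2 a b * C.2 b c)) * ((f a * f b * f c) ^ e *
          (B.2 a b * B.2 b c - B.2 a c * f b ^ (2 * Multiplicative.toAdd B.1))) +
        ((f a * f b * f c) ^ e * (B.2 a c * f b ^ (2 * Multiplicative.toAdd B.1))) *
          ((f a * f b * f c) ^ e' * (C.2 a b * C.2 b c - C.2 a c *
            f b ^ (2 * Multiplicative.toAdd C.1))) := by
      ring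
    rw [h1]
    exact I.add_mem (I.mul_mem_left _ he) (I.mul_mem_left _ he')
  cov := hB.cov

/-- the trivial line bundle -/
theorem Dat.Lb.oneT (hM : M.Lb w I) : (DT M.f M.d (1 : Twt (MvPolynomial σ A) α)).Lb w I where
  pos := hM.pos
  hf := hM.hf
  hv a b := by
    change (polyGr A w).Hom (((0 : ℕ) : ℤ) * _) (1 : MvPolynomial σ A)
    rw [Nat.cast_zero, zero_mul]
    have := polyGr_C (A := A) w 1
    rwa [map_one] at this
  self a := ⟨0, by
    change M.f a ^ 0 * ((1 : MvPolynomial σ A) - M.f a ^ (2 * 0)) ∈ I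
    simp⟩
  cocy a b c := ⟨0, by
    change (M.f a * M.f b * M.f c) ^ 0 * ((1 : MvPolynomial σ A) * 1 - 1 * M.f b ^ (2 * 0)) ∈ I
    simp⟩
  cov := hM.cov

/-- the line bundles on the cover of `M` -/
def twSub (hM : M.Lb w I) : Submonoid (Twt (MvPolynomial σ A) α) where
  carrier := {B | (DT M.f M.d B).Lb w I}
  one_mem' := hM.oneT
  mul_mem' h h' := Dat.Lb.mulT h h'

theorem mem_twSub {hM : M.Lb w I} {B : Twt (MvPolynomial σ A) α} :
    B ∈ twSub hM ↔ (DT M.f M.d B).Lb w I := Iff.rfl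

/-- `M` itself -/
def twSelf (hM : M.Lb w I) : twSub hM := ⟨twOf M, hM⟩

end

end Pool.Agent.Lib.MP_0b721b_ag
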