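import Pool.Agent.Lib.MP_0b721b_ag.Kl.Sc2
import Pool.Agent.Lib.MP_0b721b_ag.Kl.Tws
import Pool.Agent.Lib.MP_0b721b_ag.Kl.Hid

/-!
The zero scheme of a section on an integral subscheme, and the exact sequence of the section.
-/

namespace Pool.Agent.Lib.MP_0b721b_ag

open MvPolynomial Finset

section zid

variable {A : Type*} [CommRing A] {σ : Type*} {w : σ → ℤ} {α : Type*}
  {f : α → MvPolynomial σ A} {d : α → ℤ} {J : Ideal (MvPolynomial σ A)}

/-- the ideal of the zero scheme of the section `ε` over `V(J)` -/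
def Zid (f : α → MvPolynomial σ A) (J : Ideal (MvPolynomial σ A)) (ε : α → MvPolynomial σ A) :
    Ideal (MvPolynomial σ A) where
  carrier := {x | ∀ a, ∃ i : ℕ, f a ^ i * x ∈ J ⊔ Ideal.span {ε a}}
  zero_mem' a := ⟨0, by
    rw [mul_zero]
    exact Ideal.zero_mem _⟩
  add_mem' {x y} hx hy a := by
    obtain ⟨i, hi⟩ := hx a
    obtain ⟨j, hj⟩ := hy a
    refine ⟨i + j, ?_⟩
    have : f a ^ (i + j) * (x + y) = f a ^ j * (f a ^ i * x) + f a ^ i * (f a ^ j * y) := by ring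
    rw [this]
    exact Ideal.add_mem _ (Ideal.mul_mem_left _ _ hi) (Ideal.mul_mem_left _ _ hj)
  smul_mem' c x hx a := by
    obtain ⟨i, hi⟩ := hx a
    refine ⟨i, ?_⟩
    rw [smul_eq_mul, mul_left_comm]
    exact Ideal.mul_mem_left _ _ hi

theorem mem_Zid {ε : α → MvPolynomial σ A} {x : MvPolynomial σ A} :
    x ∈ Zid f J ε ↔ ∀ a, ∃ i : ℕ, f a ^ i * x ∈ J ⊔ Ideal.span {ε a} := Iff.rfl

theorem le_Zid (ε : α → MvPolynomial σ A) : J ≤ Zid f J ε := fun x hx a => ⟨0, by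
  rw [pow_zero, one_mul]
  exact Ideal.mem_sup_left hx⟩

theorem Zid_sub (hJ : (polyGr A w).Sub J) (hf : ∀ a, (polyGr A w).Hom (d a) (f a))
    {ε : α → MvPolynomial σ A} {e : α → ℤ} (hε : ∀ a, (polyGr A w).Hom (e a) (ε a)) :
    (polyGr A w).Sub (Zid f J ε) := by
  intro n x hx a
  obtain ⟨i, hi⟩ := hx a
  refine ⟨i, ?_⟩
  have h1 := polyGr_op (polyGr_pow (hf a) i) n x
  rw [smul_eq_mul, smul_eq_mul] at h1
  rw [← h1]
  exact (sup_span_sub hJ (hε a)) _ _ hi

/-- `f_a ^ j ε_a` is, up to powers of `f_b`, a multiple of `ε_b` -/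
theorem IsSec.mem_loc {D : Dat (MvPolynomial σ A) α} {T : ℕ} {u : ℤ} {ε : α → MvPolynomial σ A}
    (h : IsSec D w J T u ε) (a b : α) : ∃ j i : ℕ,
      D.f b ^ i * (D.f a ^ j * ε a) ∈ J ⊔ Ideal.span {ε b} := by
  obtain ⟨e, he⟩ := h.comp a b
  refine ⟨e + D.t, e + T + D.t, ?_⟩
  have h1 : D.f b ^ (e + T + D.t) * (D.f a ^ (e + D.t) * ε a) =
      (D.f a * D.f b) ^ e * (ε a * D.f b ^ T * (D.f a * D.f b) ^ D.t - D.v a b * ε b * D.f a ^ T) +
      ((D.f a * D.f b) ^ e * D.v a b * D.f a ^ T) * ε b := by ring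
  rw [h1]
  exact Ideal.add_mem _ (Ideal.mem_sup_left he) (Ideal.mem_sup_right (Ideal.mul_mem_left _ _
    (Ideal.mem_span_singleton_self _)))

theorem IsSec.mem_Zid [Finite α] {D : Dat (MvPolynomial σ A) α} {T : ℕ} {u : ℤ}
    {ε : α → MvPolynomial σ A} (h : IsSec D w J T u ε) (a : α) :
    ∃ j : ℕ, D.f a ^ j * ε a ∈ Zid D.f J ε := by
  classical
  cases nonempty_fintype α
  choose j i hi using fun b => h.mem_loc a b
  refine ⟨∑ b, j b, fun b => ⟨i b, ?_⟩⟩
  obtain ⟨c, hc⟩ := Nat.exists_eq_add_of_le (Finset.single_le_sum (f := j)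
    (fun _ _ => Nat.zero_le _) (Finset.mem_univ b))
  have h1 : D.f b ^ i b * (D.f a ^ (∑ b, j b) * ε a) =
      D.f a ^ c * (D.f b ^ i b * (D.f a ^ j b * ε a)) := by
    rw [hc]
    ring
  rw [h1]
  exact Ideal.mul_mem_left _ _ (hi b)

/-- a section over an integral scheme which is not zero over one member of the cover is not zero
over any -/
theorem IsSec.notMem {D : Dat (MvPolynomial σ A) α} [hJ : J.IsPrime] {T : ℕ} {u : ℤ}
    {ε : α → MvPolynomial σ A} (h : IsSec D w J T u ε) {a b : α} (ha : D.f a ∉ J)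
    (hb : D.f b ∉ J) (h0 : ε a ∉ J) : ε b ∉ J := by
  intro hεb
  obtain ⟨j, i, hij⟩ := h.mem_loc a b
  have h1 : J ⊔ Ideal.span {ε b} ≤ J := sup_le le_rfl (by
    rw [Ideal.span_le, Set.singleton_subset_iff]
    exact hεb)
  rcases hJ.mem_or_mem (h1 hij) with h2 | h2
  · exact hb (hJ.mem_of_pow_mem _ h2)
  · rcases hJ.mem_or_mem h2 with h3 | h3
    · exact ha (hJ.mem_of_pow_mem _ h3)
    · exact h0 h3

theorem lt_Zid [Finite α] {D : Dat (MvPolynomial σ A) α} [hJ : J.IsPrime] {T : ℕ} {u : ℤ}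
    {ε : α → MvPolynomial σ A} (h : IsSec D w J T u ε) {a : α} (ha : D.f a ∉ J) (h0 : ε a ∉ J) :
    J < Zid D.f J ε := by
  refine lt_of_le_of_ne (le_Zid ε) (fun he => ?_)
  obtain ⟨j, hj⟩ := h.mem_Zid a
  rw [← he] at hj
  rcases hJ.mem_or_mem hj with h3 | h3
  · exact ha (hJ.mem_of_pow_mem _ h3)
  · exact h0 h3

end zid

section ses

variable {A : Type*} [CommRing A] {σ : Type*} {w : σ → ℤ} {α : Type*} [LinearOrder α]
  {f : α → MvPolynomial σ A} {d : α → ℤ} {J J' : Ideal (MvPolynomial σ A)}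

/-- the quotient map -/
noncomputable def quq (h : J ≤ J') : (MvPolynomial σ A ⧸ J) →ₗ[MvPolynomial σ A] (MvPolynomial σ A ⧸ J') :=
  Submodule.mapQ J J' LinearMap.id (fun _ hx => h hx)

theorem quq_mk (h : J ≤ J') (x : MvPolynomial σ A) :
    quq h (Submodule.Quotient.mk x) = Submodule.Quotient.mk x := rfl

theorem quq_surj (h : J ≤ J') : Function.Surjective (quq h) := by
  intro z
  obtain ⟨x, rfl⟩ := Submodule.Quotient.mk_surjective J' z
  exact ⟨Submodule.Quotient.mk x, rfl⟩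

theorem quq_gr (h : J ≤ J') (hJ : (polyGr A w).Sub J) (hJ' : (polyGr A w).Sub J') :
    GrHom (cyc w J hJ) (cyc w J' hJ') (quq h) := by
  intro n m
  obtain ⟨x, rfl⟩ := Submodule.Quotient.mk_surjective J m
  rfl

omit [LinearOrder α] in
theorem zinj {ε : α → MvPolynomial σ A} [hp : J.IsPrime]
    (hne : ∀ a, f a ∉ J → ε a ∉ J) (a : α) (m : MvPolynomial σ A ⧸ J)
    (h : ∃ i : ℕ, f a ^ i • ε a • m = 0) : ∃ i : ℕ, f a ^ i • m = 0 := by
  obtain ⟨x, rfl⟩ := Submodule.Quotient.mk_surjective J m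
  by_cases ha : f a ∈ J
  · refine ⟨1, ?_⟩
    rw [pow_one, ← Submodule.Quotient.mk_smul, Submodule.Quotient.mk_eq_zero, smul_eq_mul]
    exact Ideal.mul_mem_right _ _ ha
  · obtain ⟨i, hi⟩ := h
    refine ⟨0, ?_⟩
    rw [← Submodule.Quotient.mk_smul, ← Submodule.Quotient.mk_smul,
      Submodule.Quotient.mk_eq_zero, smul_eq_mul, smul_eq_mul] at hi
    rw [pow_zero, one_smul, Submodule.Quotient.mk_eq_zero]
    rcases hp.mem_or_mem hi with h1 | h1
    · exact absurd (hp.mem_of_pow_mem _ h1) ha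
    · exact (hp.mem_or_mem h1).resolve_left (hne a ha)

omit [LinearOrder α] in
theorem zker {ε : α → MvPolynomial σ A} (m : MvPolynomial σ A ⧸ J) :
    quq (le_Zid (f := f) ε) m = 0 ↔
      ∀ a, ∃ (i : ℕ) (m' : MvPolynomial σ A ⧸ J), f a ^ i • m = ε a • m' := by
  obtain ⟨x, rfl⟩ := Submodule.Quotient.mk_surjective J m
  rw [quq_mk, Submodule.Quotient.mk_eq_zero, mem_Zid]
  refine forall_congr' fun a => exists_congr fun i => ?_
  constructor
  · intro h
    obtain ⟨y, hy, z, hz, hyz⟩ := Submodule.mem_sup.1 h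
    obtain ⟨c, rfl⟩ := Ideal.mem_span_singleton'.1 hz
    refine ⟨Submodule.Quotient.mk c, ?_⟩
    rw [← Submodule.Quotient.mk_smul, ← Submodule.Quotient.mk_smul, smul_eq_mul, smul_eq_mul]
    apply (Submodule.Quotient.eq J).2
    rw [← hyz]
    have : y + c * ε a - ε a * c = y := by ring
    rw [this]
    exact hy
  · rintro ⟨m', hm'⟩
    obtain ⟨c, rfl⟩ := Submodule.Quotient.mk_surjective J m'
    rw [← Submodule.Quotient.mk_smul, ← Submodule.Quotient.mk_smul, smul_eq_mul,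
      smul_eq_mul] at hm'
    have h := (Submodule.Quotient.eq J).1 hm'
    have : f a ^ i * x = (f a ^ i * x - ε a * c) + c * ε a := by ring
    rw [this]
    exact Submodule.add_mem_sup h (Ideal.mem_span_singleton'.2 ⟨c, rfl⟩)

variable {B : Twt (MvPolynomial σ A) α}

omit [LinearOrder α] in
theorem Dat.Lb.okq {C : Twt (MvPolynomial σ A) α} (h : (DT f d C).Lb w J)
    (hJ : (polyGr A w).Sub J) : (DT f d C).Ok (cyc w J hJ) := h.okc hJ

omit [LinearOrder α] in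
/-- a section of `B(n)` over `V(J)` acts on `P / J` -/
theorem IsSec.secQ {T : ℕ} {n : ℤ} {ε : α → MvPolynomial σ A} (h : IsSec (DT f d B) w J T n ε)
    (hJ : (polyGr A w).Sub J) : SecT f d (cyc w J hJ) B ε T n :=
  h.secT (cyc_gmod hJ) (fun a ha m => by
    obtain ⟨m, rfl⟩ := Submodule.Quotient.mk_surjective J m
    rw [← Submodule.Quotient.mk_smul, Submodule.Quotient.mk_eq_zero, smul_eq_mul]
    exact Ideal.mul_mem_right _ _ ha)

/-- the exact sequence of a section which is not zero, over an integral scheme -/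
theorem zses [Fintype α] [hp : J.IsPrime] (hJ : (polyGr A w).Sub J) {T : ℕ} {n : ℤ}
    {ε : α → MvPolynomial σ A} (h : IsSec (DT f d B) w J T n ε) {a : α} (ha : f a ∉ J)
    (h0 : ε a ∉ J) (hE : (polyGr A w).Sub (Zid f J ε)) {C : Twt (MvPolynomial σ A) α}
    (hC : (DT f d C).Lb w J) (hB : (DT f d (C * B)).Lb w J) (l : ℤ) :
    SES (ρ₁ := (hC.okq hJ).ρ (DT f d C) l) (ρ₂ := (hB.okq hJ).ρ (DT f d (C * B)) (l + n))
      (ρ₃ := ((hB.mono (le_Zid ε)).okq hE).ρ (DT f d (C * B)) (l + n))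
      (mulG (hC.okq hJ) (hB.okq hJ) ((h.secQ hJ).ok C) l)
      (quoG (quq (le_Zid ε)) (hB.okq hJ) ((hB.mono (le_Zid ε)).okq hE)
        (quq_gr (le_Zid ε) hJ hE) (l + n)) :=
  sesDiv (π := quq (le_Zid (f := f) ε)) (hC.okq hJ) (hB.okq hJ) ((hB.mono (le_Zid ε)).okq hE)
    ((h.secQ hJ).ok C) (quq_gr (le_Zid ε) hJ hE) (quq_surj (le_Zid ε))
    (fun a' m hm => zinj (f := f) (ε := ε) (fun _ hb => h.notMem (D := DT f d B) ha hb h0) a' m hm)
    (fun m => zker (f := f) (ε := ε) m) l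

end ses

end Pool.Agent.Lib.MP_0b721b_ag
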