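import Pool.Agent.Lib.MP_0b721b_ag.Kl.Core

/-!
Twisted line bundles, products of nef line bundles, and the final form of Kleiman's theorem:
`L ^ m ⊗ M (- m₀)` is ample for an ample `L`, a nef `M`, and all large `m`.
-/

namespace Pool.Agent.Lib.MP_0b721b_ag

namespace Kl

open Filter

section tw

variable {V T : Type*} [PartialOrder V] [CommMonoid T]

theorem toAdd_pow' (a : Multiplicative ℤ) (n : ℕ) :
    Multiplicative.toAdd (a ^ n) = n * Multiplicative.toAdd a := by
  rw [toAdd_pow]
  simp

/-- the same system, for line bundles with a twist -/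
def Sys.tw (S : Sys V T) : Sys V (T × Multiplicative ℤ) where
  h J A y := S.h J A.1 (y + Multiplicative.toAdd A.2)
  hv J A y := S.hv J A.1 (y + Multiplicative.toAdd A.2)
  am J A y := S.am J A.1 (y + Multiplicative.toAdd A.2)
  pr := S.pr
  h_nonneg J A y := S.h_nonneg _ _ _
  serre J A := eventually_shift (S.serre J A.1) _
  sec P hP A := eventually_shift (S.sec P hP A.1) _
  dec J hJ := by
    rcases S.dec J hJ with h0 | ⟨J₁, J₂, h1, h2, δ, h3, h4, h5⟩
    · exact Or.inl fun A y => h0 _ _
    · refine Or.inr ⟨J₁, J₂, h1, h2, δ, fun A y => ?_, fun A y h => ?_, fun A y h h' => ?_⟩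
      · have := h3 A.1 (y + Multiplicative.toAdd A.2)
        rwa [show y + Multiplicative.toAdd A.2 - δ = y - δ + Multiplicative.toAdd A.2 by ring]
          at this
      · have := h4 A.1 (y + Multiplicative.toAdd A.2)
        rw [show y + Multiplicative.toAdd A.2 - δ = y - δ + Multiplicative.toAdd A.2 by ring]
          at this
        exact this h
      · have := h5 A.1 (y + Multiplicative.toAdd A.2)
        rw [show y + Multiplicative.toAdd A.2 - δ = y - δ + Multiplicative.toAdd A.2 by ring]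
          at this
        exact this h h'
  hyp P hP := by
    obtain ⟨H, h1, h2, h3⟩ := S.hyp P hP
    refine ⟨H, h1, fun A y => ?_, fun A y h => ?_⟩
    · have := h2 A.1 (y + Multiplicative.toAdd A.2)
      rwa [show y + Multiplicative.toAdd A.2 - 1 = y - 1 + Multiplicative.toAdd A.2 by ring]
        at this
    · have := h3 A.1 (y + Multiplicative.toAdd A.2)
      rw [show y + Multiplicative.toAdd A.2 - 1 = y - 1 + Multiplicative.toAdd A.2 by ring] at this
      exact this h
  div P hP B n hn := by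
    obtain ⟨E, h1, h2⟩ := S.div P hP B.1 (n + Multiplicative.toAdd B.2) hn
    refine ⟨E, h1, fun A y h => ?_⟩
    have := h2 A.1 (y + Multiplicative.toAdd A.2) h
    rw [show y + Multiplicative.toAdd A.2 + (n + Multiplicative.toAdd B.2) =
      y + n + Multiplicative.toAdd (A * B).2 by
        rw [Prod.snd_mul, toAdd_mul]
        ring] at this
    exact this
  cut P hP J hJ := by
    obtain ⟨δ, h⟩ := S.cut P hP J hJ
    refine ⟨δ, ?_⟩
    filter_upwards [h] with y hy
    simpa using hy
  six P hP A b h1 h2 c := by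
    have e : ∀ (n : ℕ) (c : ℤ), b * n + c + Multiplicative.toAdd (A ^ n).2 =
        (b + Multiplicative.toAdd A.2) * n + c := by
      intro n c
      rw [Prod.pow_snd, toAdd_pow']
      ring
    have := S.six P hP A.1 (b + Multiplicative.toAdd A.2) (by
      obtain ⟨n, h3, h4⟩ := h1
      refine ⟨n, h3, ?_⟩
      have h5 := e n (-1)
      rw [← sub_eq_add_neg, ← sub_eq_add_neg] at h5
      rw [← h5]
      exact h4) (fun J hJ c => by
        filter_upwards [h2 J hJ c] with m hm
        rw [← e m c]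
        exact hm) c
    filter_upwards [this] with m hm
    rw [← e m c] at hm
    exact hm
  seven J₀ A b h1 h2 := by
    have e : ∀ (n : ℕ) (c : ℤ), b * n + c + Multiplicative.toAdd (A ^ n).2 =
        (b + Multiplicative.toAdd A.2) * n + c := by
      intro n c
      rw [Prod.pow_snd, toAdd_pow']
      ring
    refine S.seven J₀ A.1 (b + Multiplicative.toAdd A.2) (fun J hJ c => ?_) (fun Q hQ hJQ => ?_)
    · filter_upwards [h1 J hJ c] with m hm
      rw [← e m c]
      exact hm
    · filter_upwards [h2 Q hQ hJQ] with n hn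
      have h5 := e n (-1)
      rw [← sub_eq_add_neg, ← sub_eq_add_neg] at h5
      rw [← h5]
      exact hn
  five J := by
    obtain ⟨m₀, h⟩ := S.five J
    refine ⟨m₀, fun A b ham y hy => ?_⟩
    exact h A.1 (b + Multiplicative.toAdd A.2) ham _ (by omega)

end tw

variable {V T : Type*} [PartialOrder V] [WellFoundedGT V] [CommMonoid T] {S : Sys V T}

theorem Nef.mul {M N : T} (hM : S.Nef M) (hN : S.Nef N) : S.Nef (M * N) := by
  intro P hP h h'
  have hdg : Dg 2 (S.p P) := (S.snap P).dim _ h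
  have hc : Dg 1 (dl M 0 (S.p P)) := hdg M 0
  filter_upwards [hM P hP h h', hN P hP h h', (S.snap P).ev 1, (S.snap P).ev M,
    (S.snap P).ev N, (S.snap P).ev (M * N)] with y h1 h2 h3 h4 h5 h6
  have h7 := (hc.const N y).trans (hc.const 1 y).symm
  simp only [dl, one_mul, add_zero] at h7
  rw [mul_comm N M] at h7
  omega

omit [WellFoundedGT V] in
theorem nef_one : S.Nef (1 : T) := fun _ _ _ _ => Eventually.of_forall fun _ => le_rfl

theorem Nef.pow {M : T} (hM : S.Nef M) (n : ℕ) : S.Nef (M ^ n) := by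
  induction n with
  | zero => rw [pow_zero]; exact nef_one
  | succ n ih => rw [pow_succ]; exact Nef.mul ih hM

omit [WellFoundedGT V] in
/-- a twisted line bundle with a section on every prime is nef -/
theorem nef_of_sec {B : T} {u : ℤ} (h : ∀ P, S.pr P → 0 < S.h P B u) :
    S.tw.Nef (B, Multiplicative.ofAdd u) := by
  intro P hP _ _
  obtain ⟨E, -, h2⟩ := S.div P hP B u (h P hP)
  filter_upwards [S.serre P 1] with y hy
  have h3 := h2 1 y hy
  rw [one_mul] at h3
  change S.h P 1 (y + 0) ≤ S.h P B (y + u)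
  rw [add_zero, h3]
  have := S.h_nonneg E B (y + u)
  omega

omit [WellFoundedGT V] in
theorem nef_tw {M : T} (h : S.Nef M) : S.tw.Nef (M, 1) := by
  intro P hP h1 h2
  have e : ∀ A y, S.tw.h P (A, 1) y = S.h P A y := fun A y => by
    change S.h P A (y + 0) = _
    rw [add_zero]
  have h3 : S.tw.h P 1 = S.h P 1 := funext fun y => e 1 y
  rw [h3] at h1 h2
  filter_upwards [h P hP h1 h2] with y hy
  rw [e, h3]
  exact hy

/-- the final form: `L ^ n₀ (u)` with `u ≤ - 1` and the `L ^ r (c)` with `r < n₀` have sections on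
all primes, `M` is nef; then `L ^ m ⊗ M (- m₀)` is ample for `m ≥ n₀ (c + 1 + m₀)` -/
theorem final {L M : T} {n₀ : ℕ} (hn : 1 ≤ n₀) {u : ℤ} (hu : u ≤ -1)
    (hL : ∀ P, S.pr P → 0 < S.h P (L ^ n₀) u) {c : ℤ}
    (hr : ∀ r < n₀, ∀ P, S.pr P → 0 < S.h P (L ^ r) c) (hM : S.Nef M) (m₀ : ℤ) (J : V) {m : ℕ}
    (hm : n₀ * (c + 1 + m₀).toNat ≤ m) : S.am J (L ^ m * M) (-m₀) := by
  have hq : (c + 1 + m₀).toNat ≤ m / n₀ := by
    rw [Nat.le_div_iff_mul_le (by omega), mul_comm]
    exact hm
  have hmod := Nat.div_add_mod m n₀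
  have hlt := Nat.mod_lt m (by omega : 0 < n₀)
  set q := m / n₀ with hqdef
  set r := m % n₀ with hrdef
  have h1 : S.tw.Nef ((L ^ n₀, Multiplicative.ofAdd u) ^ q * (L ^ r, Multiplicative.ofAdd c) *
      (M, 1)) :=
    Nef.mul (Nef.mul (Nef.pow (nef_of_sec hL) q) (nef_of_sec (hr r hlt))) (nef_tw hM)
  obtain ⟨y, hy⟩ : ∃ y : ℕ, -m₀ - q * u - c = y := by
    refine Int.eq_ofNat_of_zero_le ?_
    have h3 : (c + 1 + m₀) ≤ q := by omega
    have h4 : (0 : ℤ) ≤ q := Int.natCast_nonneg q
    nlinarith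
  have hy1 : 1 ≤ y := by
    have h3 : (c + 1 + m₀) ≤ q := by omega
    have h4 : (0 : ℤ) ≤ q := Int.natCast_nonneg q
    have h5 : (1 : ℤ) ≤ y := by
      rw [← hy]
      nlinarith
    exact_mod_cast h5
  have h2 := ample h1 J 1 hy1
  rw [pow_one] at h2
  change S.am J _ ((y : ℤ) + Multiplicative.toAdd (_ : Multiplicative ℤ)) at h2
  have e1 : ((L ^ n₀, Multiplicative.ofAdd u) ^ q * (L ^ r, Multiplicative.ofAdd c) *
      ((M, 1) : T × Multiplicative ℤ)).1 = L ^ m * M := by
    simp only [Prod.fst_mul, Prod.pow_fst]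
    rw [← pow_mul, ← pow_add, hmod]
  have e2 : Multiplicative.toAdd ((L ^ n₀, Multiplicative.ofAdd u) ^ q *
      (L ^ r, Multiplicative.ofAdd c) * ((M, 1) : T × Multiplicative ℤ)).2 = q * u + c := by
    simp only [Prod.snd_mul, Prod.pow_snd, toAdd_mul, toAdd_pow', toAdd_ofAdd, toAdd_one,
      add_zero]
  rw [e1, e2, ← hy] at h2
  rw [show -m₀ - q * u - c + (q * u + c) = -m₀ by ring] at h2
  exact h2

end Kl

end Pool.Agent.Lib.MP_0b721b_ag
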