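import Pool.Agent.Lib.MP_0b721b_ag.Kl.Sys

/-!
Functions of an integer which are, for large values, killed by an iterated difference.
-/

namespace Pool.Agent.Lib.MP_0b721b_ag

namespace Kl

open Filter

/-- the forward difference -/
def dz (f : ℤ → ℤ) : ℤ → ℤ := fun y => f (y + 1) - f y

theorem eventually_shift {q : ℤ → Prop} (h : ∀ᶠ y in atTop, q y) (n : ℤ) :
    ∀ᶠ y in atTop, q (y + n) := by
  obtain ⟨a, ha⟩ := eventually_atTop.1 h
  refine eventually_atTop.2 ⟨a - n, fun y hy => ha _ (by omega)⟩

theorem Ev.congr {k : ℕ} {f g : ℤ → ℤ} (hf : Ev k f) (h : ∀ᶠ y in atTop, f y = g y) : Ev k g := by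
  induction k generalizing f g with
  | zero =>
    have hf' : ∀ᶠ y in atTop, f y = 0 := hf
    change ∀ᶠ y in atTop, g y = 0
    filter_upwards [hf', h] with y h1 h2
    rw [← h2, h1]
  | succ k ih =>
    refine ih (f := fun y => f (y + 1) - f y) hf ?_
    filter_upwards [h, eventually_shift h 1] with y h1 h2
    rw [h1, h2]

theorem Ev.zero (k : ℕ) : Ev k (fun _ => (0 : ℤ)) := by
  induction k with
  | zero => exact Eventually.of_forall fun _ => rfl
  | succ k ih =>
    refine ih.congr (Eventually.of_forall fun y => ?_)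
    simp

theorem Ev.add {k : ℕ} {f g : ℤ → ℤ} (hf : Ev k f) (hg : Ev k g) : Ev k (fun y => f y + g y) := by
  induction k generalizing f g with
  | zero =>
    have hf' : ∀ᶠ y in atTop, f y = 0 := hf
    have hg' : ∀ᶠ y in atTop, g y = 0 := hg
    change ∀ᶠ y in atTop, f y + g y = 0
    filter_upwards [hf', hg'] with y h1 h2
    rw [h1, h2, add_zero]
  | succ k ih =>
    refine (ih (f := fun y => f (y + 1) - f y) (g := fun y => g (y + 1) - g y) hf hg).congr
      (Eventually.of_forall fun y => ?_)
    ring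

theorem Ev.neg {k : ℕ} {f : ℤ → ℤ} (hf : Ev k f) : Ev k (fun y => -f y) := by
  induction k generalizing f with
  | zero =>
    have hf' : ∀ᶠ y in atTop, f y = 0 := hf
    change ∀ᶠ y in atTop, -f y = 0
    filter_upwards [hf'] with y h1
    rw [h1, neg_zero]
  | succ k ih =>
    refine (ih (f := fun y => f (y + 1) - f y) hf).congr (Eventually.of_forall fun y => ?_)
    ring

theorem Ev.sub {k : ℕ} {f g : ℤ → ℤ} (hf : Ev k f) (hg : Ev k g) : Ev k (fun y => f y - g y) :=
  (hf.add hg.neg).congr (Eventually.of_forall fun y => by ring)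

theorem Ev.shift {k : ℕ} {f : ℤ → ℤ} (hf : Ev k f) (n : ℤ) : Ev k (fun y => f (y + n)) := by
  induction k generalizing f with
  | zero =>
    have hf' : ∀ᶠ y in atTop, f y = 0 := hf
    exact eventually_shift hf' n
  | succ k ih =>
    refine (ih (f := fun y => f (y + 1) - f y) hf).congr (Eventually.of_forall fun y => ?_)
    rw [show y + n + 1 = y + 1 + n by ring]

theorem Ev.succ {k : ℕ} {f : ℤ → ℤ} (hf : Ev k f) : Ev (k + 1) f := by
  induction k generalizing f with
  | zero =>
    have hf' : ∀ᶠ y in atTop, f y = 0 := hf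
    change ∀ᶠ y in atTop, f (y + 1) - f y = 0
    filter_upwards [hf', eventually_shift hf' 1] with y h1 h2
    rw [h1, h2, sub_zero]
  | succ k ih => exact ih (f := fun y => f (y + 1) - f y) hf

theorem Ev.mono {k l : ℕ} {f : ℤ → ℤ} (hf : Ev k f) (h : k ≤ l) : Ev l f := by
  induction l, h using Nat.le_induction with
  | base => exact hf
  | succ l _ ih => exact ih.succ

/-- the difference over `n` steps -/
theorem Ev.steps {k : ℕ} {f : ℤ → ℤ} (hf : Ev (k + 1) f) (n : ℕ) :
    Ev k (fun y => f y - f (y - n)) := by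
  induction n with
  | zero =>
    refine (Ev.zero k).congr (Eventually.of_forall fun y => ?_)
    simp
  | succ n ih =>
    have h1 : Ev k (fun y => f (y + 1) - f y) := hf
    refine (ih.add (h1.shift (-((n : ℤ) + 1)))).congr (Eventually.of_forall fun y => ?_)
    push_cast
    rw [show y + -((n : ℤ) + 1) + 1 = y - n by ring, show y + -((n : ℤ) + 1) = y - (n + 1) by ring]
    ring

theorem ev_succ_of {k : ℕ} {f g : ℤ → ℤ} (hg : Ev k g)
    (h : ∀ᶠ y in atTop, f y = f (y - 1) + g y) : Ev (k + 1) f := by
  refine (hg.shift 1).congr ?_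
  filter_upwards [eventually_shift h 1] with y h1
  rw [h1, show y + 1 - 1 = y by ring]
  ring

theorem ev_iff {k : ℕ} {f : ℤ → ℤ} : Ev k f ↔ ∀ᶠ y in atTop, (dz^[k] f) y = 0 := by
  induction k generalizing f with
  | zero => exact Iff.rfl
  | succ k ih =>
    rw [Function.iterate_succ_apply]
    exact ih

theorem dz_iter_sub (f g : ℤ → ℤ) (k : ℕ) :
    dz^[k] (fun y => f y - g y) = fun y => (dz^[k] f) y - (dz^[k] g) y := by
  induction k generalizing f g with
  | zero => rfl
  | succ k ih =>
    have : dz (fun y => f y - g y) = fun y => dz f y - dz g y := by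
      funext y
      simp only [dz]
      ring
    rw [Function.iterate_succ_apply, this, ih]
    rfl

theorem dz_iter_neg (f : ℤ → ℤ) (k : ℕ) :
    dz^[k] (fun y => - f y) = fun y => -(dz^[k] f) y := by
  induction k generalizing f with
  | zero => rfl
  | succ k ih =>
    have : dz (fun y => - f y) = fun y => - dz f y := by
      funext y
      simp only [dz]
      ring
    rw [Function.iterate_succ_apply, this, ih]
    rfl

/-- positivity of an iterated difference gives positivity -/
theorem eventually_pos_of_dz {k : ℕ} {f : ℤ → ℤ} (h : ∀ᶠ y in atTop, 0 < (dz^[k] f) y) :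
    ∀ᶠ y in atTop, 0 < f y := by
  induction k generalizing f with
  | zero => exact h
  | succ k ih =>
    rw [Function.iterate_succ_apply] at h
    obtain ⟨y0, hy0⟩ := eventually_atTop.1 (ih h)
    have hlow : ∀ n : ℕ, f y0 + n ≤ f (y0 + n) := by
      intro n
      induction n with
      | zero => simp
      | succ n ihn =>
        have h1 := hy0 (y0 + n) (by omega)
        unfold dz at h1
        have h2 : y0 + ((n + 1 : ℕ) : ℤ) = y0 + (n : ℤ) + 1 := by
          push_cast
          ring
        rw [h2]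
        push_cast
        omega
    refine eventually_atTop.2 ⟨y0 + ((f y0).natAbs + 1 : ℕ), fun y hy => ?_⟩
    obtain ⟨n, hn⟩ := Int.eq_ofNat_of_zero_le (sub_nonneg.2 hy)
    have h1 := hlow ((f y0).natAbs + 1 + n)
    have h2 : y = y0 + (((f y0).natAbs + 1 + n : ℕ) : ℤ) := by
      change y - (y0 + (((f y0).natAbs + 1 : ℕ) : ℤ)) = (n : ℤ) at hn
      rw [Nat.cast_add]
      linarith
    rw [h2]
    have h3 : -(((f y0).natAbs : ℕ) : ℤ) ≤ f y0 := by omega
    have h4 : (0 : ℤ) ≤ n := Int.natCast_nonneg n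
    have h5 : (((f y0).natAbs + 1 + n : ℕ) : ℤ) = ((f y0).natAbs : ℤ) + 1 + n := by
      rw [Nat.cast_add, Nat.cast_add, Nat.cast_one]
    have h6 : (((f y0).natAbs + 1 + n : ℕ) : ℤ) ≤ f (y0 + (((f y0).natAbs + 1 + n : ℕ) : ℤ)) - f y0 :=
      by linarith
    omega

/-- a function whose difference vanishes for large values is constant for large values -/
theorem eventually_const {f : ℤ → ℤ} (h : ∀ᶠ y in atTop, f (y + 1) - f y = 0) :
    ∃ c, ∀ᶠ y in atTop, f y = c := by
  obtain ⟨y0, hy0⟩ := eventually_atTop.1 h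
  refine ⟨f y0, eventually_atTop.2 ⟨y0, fun y hy => ?_⟩⟩
  obtain ⟨n, hn⟩ := Int.eq_ofNat_of_zero_le (sub_nonneg.2 hy)
  have hy' : y = y0 + n := by
    change y - y0 = (n : ℤ) at hn
    omega
  rw [hy']
  clear hn hy' hy
  induction n with
  | zero => simp
  | succ n ih =>
    have := hy0 (y0 + n) (by omega)
    push_cast
    rw [← add_assoc]
    omega

/-- comparison -/
theorem Ev.of_le {k l : ℕ} {f g : ℤ → ℤ} (hf : Ev l f) (hg : Ev k g)
    (h0 : ∀ᶠ y in atTop, 0 ≤ f y) (h : ∀ᶠ y in atTop, f y ≤ g y) : Ev k f := by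
  classical
  have hex : ∃ l, Ev l f := ⟨l, hf⟩
  obtain ⟨j, hj, hmin⟩ : ∃ j, Ev j f ∧ ∀ i < j, ¬ Ev i f :=
    ⟨Nat.find hex, Nat.find_spec hex, fun i hi => Nat.find_min hex hi⟩
  by_cases hjk : j ≤ k
  · exact hj.mono hjk
  · exfalso
    obtain ⟨i, hi⟩ : ∃ i, j = i + 1 := ⟨j - 1, by omega⟩
    have hi' : ¬ Ev i f := hmin i (by omega)
    rw [hi] at hj
    have hc : ∀ᶠ y in atTop, (dz^[i] f) (y + 1) - (dz^[i] f) y = 0 := by
      have := ev_iff.1 hj
      rw [Function.iterate_succ_apply'] at this
      exact this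
    obtain ⟨c, hc⟩ := eventually_const hc
    rcases lt_trichotomy c 0 with h1 | h1 | h1
    · have h2 : ∀ᶠ y in atTop, 0 < (dz^[i] (fun y => -f y)) y := by
        rw [dz_iter_neg]
        filter_upwards [hc] with y hy
        rw [hy]
        omega
      have h3 := eventually_pos_of_dz h2
      obtain ⟨y, hy1, hy2⟩ := (h3.and h0).exists
      omega
    · refine hi' (ev_iff.2 ?_)
      filter_upwards [hc] with y hy
      rw [hy, h1]
    · have hg' : ∀ᶠ y in atTop, (dz^[i] g) y = 0 := ev_iff.1 (hg.mono (by omega))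
      have h2 : ∀ᶠ y in atTop, 0 < (dz^[i] (fun y => f y - g y)) y := by
        rw [dz_iter_sub]
        filter_upwards [hc, hg'] with y hy1 hy2
        rw [hy1, hy2]
        omega
      have h3 := eventually_pos_of_dz h2
      obtain ⟨y, hy1, hy2⟩ := (h3.and h).exists
      omega

/-- a discrete primitive -/
theorem exists_prim (q : ℤ → ℤ) : ∃ G : ℤ → ℤ, ∀ y, G y = G (y - 1) + q y := by
  refine ⟨fun y => ∑ i ∈ Finset.range y.toNat, q (i + 1) -
    ∑ i ∈ Finset.range (-y).toNat, q (-i), fun y => ?_⟩
  dsimp only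
  rcases lt_or_ge 0 y with hy | hy
  · have h1 : (-y).toNat = 0 := by omega
    have h2 : (-(y - 1)).toNat = 0 := by omega
    have h3 : y.toNat = (y - 1).toNat + 1 := by omega
    have h4 : (((y - 1).toNat : ℕ) : ℤ) + 1 = y := by omega
    rw [h1, h2, h3, Finset.sum_range_succ, h4]
    ring
  · have h1 : y.toNat = 0 := by omega
    have h2 : (y - 1).toNat = 0 := by omega
    have h3 : (-(y - 1)).toNat = (-y).toNat + 1 := by omega
    have h4 : -(((-y).toNat : ℕ) : ℤ) = y := by omega
    rw [h1, h2, h3, Finset.sum_range_succ, h4]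
    ring

/-- a function with prescribed differences for large values is, for large values, equal to one with
these differences everywhere -/
theorem exists_ext {f q : ℤ → ℤ} (h : ∀ᶠ y in atTop, f y = f (y - 1) + q y) :
    ∃ g : ℤ → ℤ, (∀ y, g y = g (y - 1) + q y) ∧ ∀ᶠ y in atTop, f y = g y := by
  obtain ⟨G, hG⟩ := exists_prim q
  obtain ⟨c, hc⟩ : ∃ c, ∀ᶠ y in atTop, f y - G y = c := by
    refine eventually_const ?_
    filter_upwards [eventually_shift h 1] with y hy
    have h2 := hG (y + 1)
    rw [show y + 1 - 1 = y by ring] at h2 hy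
    rw [hy, h2]
    ring
  refine ⟨fun y => G y + c, fun y => ?_, ?_⟩
  · dsimp only
    rw [hG y]
    ring
  · filter_upwards [hc] with y hy
    omega

variable {T : Type*} [CommMonoid T]

theorem Dg.ev {k : ℕ} {p : T → ℤ → ℤ} (h : Dg k p) (A : T) : Ev k (p A) := by
  induction k generalizing p with
  | zero =>
    refine Eventually.of_forall fun y => ?_
    rw [show p = 0 from h]
    rfl
  | succ k ih =>
    refine (ih (h 1 1)).congr (Eventually.of_forall fun y => ?_)
    simp only [dl, mul_one]

/-- a function of bounded degree which vanishes for large `y` is zero -/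
theorem Dg.eq_zero {k : ℕ} {p : T → ℤ → ℤ} (h : Dg k p) (h0 : ∀ A, ∀ᶠ y in atTop, p A y = 0) :
    p = 0 := by
  induction k generalizing p with
  | zero => exact h
  | succ k ih =>
    have h1 : dl (1 : T) 1 p = 0 := by
      refine ih (h 1 1) fun A => ?_
      filter_upwards [h0 A, eventually_shift (h0 A) 1] with y h1 h2
      simp only [dl, mul_one, h1, h2, sub_zero]
    have h2 : ∀ (A : T) (y : ℤ), p A (y + 1) = p A y := by
      intro A y
      have := congrFun (congrFun h1 A) y
      simp only [dl, mul_one, Pi.zero_apply] at this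
      omega
    have h3 : ∀ (A : T) (y : ℤ) (n : ℕ), p A (y + n) = p A y := by
      intro A y n
      induction n with
      | zero => simp
      | succ n ihn =>
        push_cast
        rw [← add_assoc, h2, ihn]
    funext A y
    obtain ⟨a, ha⟩ := eventually_atTop.1 (h0 A)
    have h4 := ha (y + (a - y).toNat) (by omega)
    rw [h3] at h4
    exact h4

end Kl

end Pool.Agent.Lib.MP_0b721b_ag
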