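import Pool.Agent.Lib.MP_0b721b_ag.Kl.Eid

/-!
The step of the dévissage (field `six`) for prime ideals.
-/

namespace Pool.Agent.Lib.MP_0b721b_ag

open MvPolynomial Finset Filter

section

variable {A : Type*} [CommRing A] {σ : Type*} {w : σ → ℤ} {α : Type*}
  {D : Dat (MvPolynomial σ A) α} {J : Ideal (MvPolynomial σ A)}

/-- the product of a section and a homogeneous element -/
theorem IsSec.mulx {T : ℕ} {u δ : ℤ} {ε : α → MvPolynomial σ A} (h : IsSec D w J T u ε)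
    {x : MvPolynomial σ A} (hx : (polyGr A w).Hom δ x) :
    IsSec D w J T (u + δ) (fun a => x * ε a) where
  hom a := by
    have h1 := polyGr_mul hx (h.hom a)
    convert h1 using 1
    ring
  comp a b := by
    refine (EqF.of_eq ?_).trans (((h.comp a b).mul x).trans (EqF.of_eq ?_))
    · ring
    · ring

/-- the powers of a line bundle on the same cover -/
theorem Dat.Lb.powT {f : α → MvPolynomial σ A} {d : α → ℤ} {B : Twt (MvPolynomial σ A) α}
    (h : (DT f d B).Lb w J) (m : ℕ) : (DT f d (B ^ m)).Lb w J := by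
  rw [DT_pow]
  exact h.pw m

theorem Tit_pow {S α : Type*} [CommRing S] [LinearOrder α] (A : Twt S α) (m n j : ℕ) :
    Tit (A ^ m) (A ^ n) j = A ^ (m + n * j) := by
  rw [Tit_eq, ← pow_mul, ← pow_add]

end

section

variable {k : Type*} [Field k] {N : ℕ} {α : Type*} [LinearOrder α] [Fintype α]
  {f : α → MvPolynomial (Fin N) k} {d : α → ℤ} {Q : Ideal (MvPolynomial (Fin N) k)}

/-- `Hᵖ (A ^ m (b m + c)) = 0` for large `m` on an integral scheme with a section of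
`A ^ n (b n - 1)`, if this holds on the proper closed subschemes -/
theorem six_prime [hp : Q.IsPrime] (hQ : (polyGr k (fun _ : Fin N => (1 : ℤ))).Sub Q) {i : Fin N}
    (hi : (X i : MvPolynomial (Fin N) k) ∉ Q) {A : Twt (MvPolynomial (Fin N) k) α}
    (hA : (DT f d A).Lb (fun _ => 1) Q) {b : ℤ} {n : ℕ} (hn : 1 ≤ n) {T : ℕ}
    {ε : α → MvPolynomial (Fin N) k} (hs : IsSec (DT f d (A ^ n)) (fun _ => 1) Q T (b * n - 1) ε)
    {a : α} (ha : f a ∉ Q) (h0 : ε a ∉ Q)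
    (hser : ∀ C, (DT f d C).Lb (fun _ => 1) Q → ∀ᶠ y : ℤ in atTop, ∀ p, 1 ≤ p →
      HV (DT f d C) (cyc (fun _ => 1) Q hQ) y p)
    (hE : ∀ (J : Ideal (MvPolynomial (Fin N) k)) (hJ : (polyGr k (fun _ => 1)).Sub J), Q < J →
      ∀ c : ℤ, ∀ᶠ m : ℕ in atTop, ∀ p, 1 ≤ p →
        HV (DT f d (A ^ m)) (cyc (fun _ => 1) J hJ) (b * m + c) p) (c : ℤ) :
    ∀ᶠ m : ℕ in atTop, ∀ p, 1 ≤ p →
      HV (DT f d (A ^ m)) (cyc (fun _ => 1) Q hQ) (b * m + c) p := by
  classical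
  -- the section `x s`
  have hs1 : IsSec (DT f d (A ^ n)) (fun _ => 1) Q T (b * n - 1 + 1) (fun a => X i * ε a) :=
    hs.mulx (polyGr_X (fun _ => 1) i)
  have hne1 : ∀ b', f b' ∉ Q → X i * ε b' ∉ Q := fun b' hb' h1 => by
    rcases hp.mem_or_mem h1 with h2 | h2
    · exact hi h2
    · exact hs.notMem (D := DT f d (A ^ n)) ha hb' h0 h2
  have hEs : (polyGr k (fun _ : Fin N => (1 : ℤ))).Sub (Zid f Q (fun a => X i * ε a)) :=
    Zid_sub hQ hA.hf hs1.hom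
  have hlt : Q < Zid f Q (fun a => X i * ε a) :=
    lt_Zid (D := DT f d (A ^ n)) hs1 (a := a) ha (hne1 a ha)
  obtain ⟨m₁, hm₁⟩ := eventually_atTop.1 (hE _ hEs hlt c)
  have hY : ∀ r : ℕ, ∃ y₀ : ℤ, ∀ y, y₀ ≤ y → ∀ p, 1 ≤ p →
      HV (DT f d (A ^ (m₁ + r))) (cyc (fun _ => 1) Q hQ) y p := fun r =>
    eventually_atTop.1 (hser _ (hA.powT (m₁ + r)))
  choose Y hY using hY
  refine eventually_atTop.2 ⟨m₁ + n * (∑ r ∈ range n, (Y r - (b * ((m₁ + r : ℕ) : ℤ) + c)).toNat),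
    fun m hm p hp1 => ?_⟩
  -- `m = m₁ + r + n j`
  obtain ⟨r, hr, j, hj, hmj⟩ : ∃ r, r < n ∧ ∃ j, (∑ r ∈ range n,
      (Y r - (b * ((m₁ + r : ℕ) : ℤ) + c)).toNat) ≤ j ∧ m = m₁ + r + n * j := by
    refine ⟨(m - m₁) % n, Nat.mod_lt _ (by omega), (m - m₁) / n, ?_, ?_⟩
    · rw [Nat.le_div_iff_mul_le (by omega), mul_comm]
      omega
    · have h1 := Nat.mod_add_div (m - m₁) n
      have h2 : m₁ ≤ m := by
        have := Nat.zero_le (n * (∑ r ∈ range n, (Y r - (b * ((m₁ + r : ℕ) : ℤ) + c)).toNat))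
        omega
      omega
  have hYj : Y r ≤ b * ((m₁ + r : ℕ) : ℤ) + c + j := by
    have h4 : (Y r - (b * ((m₁ + r : ℕ) : ℤ) + c)).toNat ≤
        ∑ r ∈ range n, (Y r - (b * ((m₁ + r : ℕ) : ℤ) + c)).toNat :=
      Finset.single_le_sum (f := fun r : ℕ => (Y r - (b * ((m₁ + r : ℕ) : ℤ) + c)).toNat)
        (fun _ _ => Nat.zero_le _) (Finset.mem_range.2 hr)
    have h5 := Int.self_le_toNat (Y r - (b * ((m₁ + r : ℕ) : ℤ) + c))
    have h6 : ((Y r - (b * ((m₁ + r : ℕ) : ℤ) + c)).toNat : ℤ) ≤ (j : ℤ) := by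
      exact_mod_cast h4.trans hj
    linarith
  have hOk : ∀ j, (DT f d (Tit (A ^ (m₁ + r)) (A ^ n) j)).Ok (cyc (fun _ => 1) Q hQ) := fun j => by
    rw [Tit_pow]
    exact (hA.powT _).okc hQ
  have hOkN : ∀ j, (DT f d (Tit (A ^ (m₁ + r)) (A ^ n) j)).Ok
      (cyc (fun _ => 1) (Zid f Q (fun a => X i * ε a)) hEs) := fun j => by
    rw [Tit_pow]
    exact ((hA.powT _).mono (le_Zid _)).okc hEs
  have key := six_core (A ^ (m₁ + r)) (A ^ n) hOk hOkN (hs.secQ hQ)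
    (x := X i) (cyc_gmod hQ _ _ (polyGr_X (fun _ => 1) i))
    (π := quq (le_Zid (f := f) (fun a => X i * ε a))) (quq_gr _ hQ hEs) (quq_surj _)
    (fun a' m' h => zinj (f := f) (ε := fun a => X i * ε a) hne1 a' m' h)
    (fun m' => zker (f := f) (ε := fun a => X i * ε a) m')
    (b * ((m₁ + r : ℕ) : ℤ) + c) hp1 (fun j => by
      rw [Tit_pow]
      have h1 := hm₁ (m₁ + r + n * (j + 1)) (by
        have := Nat.zero_le (n * (j + 1))
        omega) p hp1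
      have e1 : b * ((m₁ + r + n * (j + 1) : ℕ) : ℤ) + c =
          b * ((m₁ + r : ℕ) : ℤ) + c + ((j : ℤ) + 1) * (b * n - 1 + 1) := by
        push_cast
        ring
      rw [e1] at h1
      exact h1) j (hY r _ hYj p hp1)
  rw [Tit_pow] at key
  have e2 : b * ((m₁ + r : ℕ) : ℤ) + c + (j : ℤ) * (b * n - 1 + 1) = b * (m : ℤ) + c := by
    rw [hmj]
    push_cast
    ring
  rw [e2, ← hmj] at key
  exact key

end

end Pool.Agent.Lib.MP_0b721b_ag
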