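import Pool.Agent.Lib.MP_0b721b_ag.Kl.Lift

/-!
Field `seven`: global generation from sections on all integral subschemes.
-/

namespace Pool.Agent.Lib.MP_0b721b_ag

open MvPolynomial Finset Filter

section eqf

variable {S : Type*} [CommRing S] {I : Ideal S} {F x y : S}

theorem EqF.pow (h : EqF I F x y) (l : ℕ) : EqF I F (x ^ l) (y ^ l) := by
  obtain ⟨e, he⟩ := h
  obtain ⟨c, hc⟩ := sub_dvd_pow_sub_pow x y l
  refine ⟨e, ?_⟩
  rw [hc, ← mul_assoc]
  exact I.mul_mem_right _ he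

end eqf

section

variable {A : Type*} [CommRing A] {σ : Type*} {w : σ → ℤ} {α : Type*}
  {D : Dat (MvPolynomial σ A) α} {J : Ideal (MvPolynomial σ A)}

/-- a section with a larger exponent -/
theorem IsSec.raise (hf : ∀ a, (polyGr A w).Hom (D.d a) (D.f a)) {T : ℕ} {u : ℤ}
    {ε : α → MvPolynomial σ A} (h : IsSec D w J T u ε) (e : ℕ) :
    IsSec D w J (T + e) u (fun a => D.f a ^ e * ε a) where
  hom a := by
    have h1 := polyGr_mul (polyGr_pow (hf a) e) (h.hom a)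
    convert h1 using 1
    push_cast
    ring
  comp a b := by
    refine (EqF.of_eq ?_).trans (((h.comp a b).mul ((D.f a * D.f b) ^ e)).trans (EqF.of_eq ?_))
    · ring
    · ring

/-- the powers of a section -/
theorem IsSec.pow {T : ℕ} {u : ℤ} {ε : α → MvPolynomial σ A} (h : IsSec D w J T u ε) (l : ℕ) :
    IsSec (D.pw l) w J (l * T) (l * u) (fun a => ε a ^ l) where
  hom a := by
    have h1 := polyGr_pow (h.hom a) l
    change (polyGr A w).Hom (((l * T : ℕ) : ℤ) * D.d a + l * u) (ε a ^ l)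
    convert h1 using 1
    push_cast
    ring
  comp a b := by
    have h1 := (h.comp a b).pow l
    change EqF J (D.f a * D.f b) (ε a ^ l * D.f b ^ (l * T) * (D.f a * D.f b) ^ (l * D.t))
      (D.v a b ^ l * ε b ^ l * D.f a ^ (l * T))
    refine (EqF.of_eq ?_).trans (h1.trans (EqF.of_eq ?_))
    · ring
    · ring

/-- the numerators over `f a ≠ 0` of the sections of degree `u` -/
def Nums (D : Dat (MvPolynomial σ A) α) (w : σ → ℤ) (J : Ideal (MvPolynomial σ A)) (u : ℤ)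
    (a : α) : Set (MvPolynomial σ A) :=
  {y | ∃ (T : ℕ) (ε : α → MvPolynomial σ A), IsSec D w J T u ε ∧ y = ε a}

/-- if finitely many sections generate over each `f a ≠ 0`, the line bundle is generated by global
sections -/
theorem gg_of_nums [Finite α] (hf : ∀ a, (polyGr A w).Hom (D.d a) (D.f a)) {u : ℤ}
    (H : ∀ a, ∃ e : ℕ, D.f a ^ e ∈ J ⊔ Ideal.span (Nums D w J u a)) : D.GG w J u := by
  classical
  cases nonempty_fintype α
  choose e he using H
  -- finitely many numerators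
  have h1 : ∀ a, ∃ s : Finset (MvPolynomial σ A), (s : Set (MvPolynomial σ A)) ⊆ Nums D w J u a ∧
      D.f a ^ e a ∈ J ⊔ Ideal.span (s : Set (MvPolynomial σ A)) := by
    intro a
    obtain ⟨y, hy, z, hz, hyz⟩ := Submodule.mem_sup.1 (he a)
    obtain ⟨s, hs, hzs⟩ := Submodule.mem_span_finite_of_mem_span hz
    exact ⟨s, hs, Submodule.mem_sup.2 ⟨y, hy, z, hzs, hyz⟩⟩
  choose s hs hs' using h1
  have h2 : ∀ p : (Σ a : α, {y // y ∈ s a}), ∃ (T : ℕ) (ε : α → MvPolynomial σ A),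
      IsSec D w J T u ε ∧ p.2.1 = ε p.1 := fun p => hs p.1 p.2.2
  choose T ε hε hε' using h2
  let Tm : ℕ := ∑ p, T p
  have hT : ∀ p, T p ≤ Tm := fun p =>
    Finset.single_le_sum (f := T) (fun _ _ => Nat.zero_le _) (Finset.mem_univ p)
  obtain ⟨r, ⟨φ⟩⟩ := Finite.exists_equiv_fin (Σ a : α, {y // y ∈ s a})
  have hsec : ∀ p, IsSec D w J Tm u (fun a => D.f a ^ (Tm - T p) * ε p a) := by
    intro p
    have h3 := (hε p).raise hf (Tm - T p)
    rw [Nat.add_sub_cancel' (hT p)] at h3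
    exact h3
  refine ⟨Tm, r, fun j a => D.f a ^ (Tm - T (φ.symm j)) * ε (φ.symm j) a,
    fun j a => (hsec (φ.symm j)).hom a, fun j a b => (hsec (φ.symm j)).comp a b, fun a => ?_⟩
  refine ⟨Tm + e a, ?_⟩
  -- the ideal of the `x` with `f ^ Tm x` in the span
  have h4 : J ⊔ Ideal.span (s a : Set (MvPolynomial σ A)) ≤
      qi (Ideal.span (Set.range fun j => D.f a ^ (Tm - T (φ.symm j)) * ε (φ.symm j) a) ⊔ J)
        (D.f a ^ Tm) := by
    refine sup_le (fun x hx => ?_) ?_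
    · rw [mem_qi]
      exact Ideal.mul_mem_left _ _ (Ideal.mem_sup_right hx)
    · rw [Ideal.span_le]
      intro y hy
      change y ∈ qi _ _
      rw [mem_qi]
      refine Ideal.mem_sup_left ?_
      have h5 := hε' ⟨a, y, hy⟩
      have h6 : D.f a ^ Tm * y = D.f a ^ T ⟨a, y, hy⟩ *
          (D.f a ^ (Tm - T ⟨a, y, hy⟩) * ε ⟨a, y, hy⟩ a) := by
        rw [← mul_assoc, ← pow_add, Nat.add_sub_cancel' (hT _), ← h5]
      rw [h6]
      refine Ideal.mul_mem_left _ _ (Ideal.subset_span ⟨φ ⟨a, y, hy⟩, ?_⟩)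
      dsimp only
      rw [Equiv.symm_apply_apply]
  have h7 := h4 (hs' a)
  rw [mem_qi, ← pow_add] at h7
  exact h7

end

section prime

variable {k : Type*} [Field k] {σ : Type*} {w : σ → ℤ}

/-- a homogeneous prime ideal which avoids the powers of `g` -/
theorem exists_prime_notMem {K : Ideal (MvPolynomial σ k)} (hK : (polyGr k w).Sub K)
    {g : MvPolynomial σ k} (hg : ∀ e : ℕ, g ^ e ∉ K) :
    ∃ Q : Ideal (MvPolynomial σ k), (polyGr k w).Sub Q ∧ Q.IsPrime ∧ K ≤ Q ∧ g ∉ Q := by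
  classical
  let := weightedGradedAlgebra k w
  obtain ⟨Q', hQ', hKQ, hd⟩ := Ideal.exists_le_prime_disjoint K (Submonoid.powers g) (by
    rw [Set.disjoint_left]
    rintro x hx ⟨e, rfl⟩
    exact hg e hx)
  refine ⟨(Ideal.homogeneousCore (weightedHomogeneousSubmodule k w) Q').toIdeal, ?_, ?_, ?_, ?_⟩
  · exact Kl.sub_iff.2 (HomogeneousIdeal.isHomogeneous _)
  · exact hQ'.homogeneousCore
  · have h1 := Kl.sub_iff.1 hK
    rw [← h1.toIdeal_homogeneousCore_eq_self]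
    exact Ideal.homogeneousCore_mono (weightedHomogeneousSubmodule k w) hKQ
  · intro h
    exact Set.disjoint_left.1 hd (Ideal.toIdeal_homogeneousCore_le _ _ h) ⟨1, pow_one g⟩

end prime

section main

variable {k : Type*} [Field k] {N : ℕ} {α : Type*} [LinearOrder α] [Finite α]
  {f : α → MvPolynomial (Fin N) k} {d : α → ℤ} {J₀ : Ideal (MvPolynomial (Fin N) k)}

/-- the products `f a * ε a`, `ε` a section of `A ^ n (b n - 1)` over `V(J₀)` -/
def Bas (f : α → MvPolynomial (Fin N) k) (d : α → ℤ) (J₀ : Ideal (MvPolynomial (Fin N) k))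
    (A : Twt (MvPolynomial (Fin N) k) α) (b : ℤ) (n : ℕ) : Set (MvPolynomial (Fin N) k) :=
  {y | ∃ a, ∃ x ∈ Nums (DT f d (A ^ n)) (fun _ => 1) J₀ (b * n + -1) a, y = f a * x}

/-- a homogeneous polynomial of positive degree lies in every ideal which contains the variables -/
theorem mem_of_vars {Q : Ideal (MvPolynomial (Fin N) k)}
    (hX : ∀ i, (X i : MvPolynomial (Fin N) k) ∈ Q) {g : MvPolynomial (Fin N) k} {δ : ℤ}
    (hδ : 0 < δ) (hg : (polyGr k (fun _ : Fin N => (1 : ℤ))).Hom δ g) : g ∈ Q := by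
  classical
  rw [g.as_sum]
  refine Ideal.sum_mem _ fun m hm => ?_
  have h1 := (polyGr_hom_iff.1 hg) (MvPolynomial.mem_support_iff.1 hm)
  have h2 : m ≠ 0 := by
    rintro rfl
    rw [map_zero] at h1
    omega
  obtain ⟨i, hi⟩ := Finsupp.ne_iff.1 h2
  rw [Finsupp.coe_zero, Pi.zero_apply] at hi
  have h3 : m = Finsupp.single i 1 + (m - Finsupp.single i 1) := by
    rw [add_comm, tsub_add_cancel_of_le]
    rw [Finsupp.single_le_iff]
    omega
  rw [h3, ← one_mul (coeff _ g), ← MvPolynomial.monomial_mul]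
  exact Ideal.mul_mem_right _ _ (hX i)

omit [LinearOrder α] [Finite α] in
/-- a prime over the base locus of `A ^ (n l)` is over the base locus of `A ^ n` -/
theorem bas_le {A : Twt (MvPolynomial (Fin N) k) α} {b : ℤ} (hA : (DT f d A).Lb (fun _ => 1) J₀)
    {n l : ℕ} (hl : 1 ≤ l) {Q : Ideal (MvPolynomial (Fin N) k)} [hQ : Q.IsPrime]
    (h : Bas f d J₀ A b (n * l) ⊆ Q) : Bas f d J₀ A b n ⊆ Q := by
  rintro y ⟨a, x, ⟨T, ε, hε, rfl⟩, rfl⟩
  by_cases ha : f a ∈ Q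
  · exact Ideal.mul_mem_right _ _ ha
  · -- some variable is not in `Q`
    have h1 : ∃ i, (X i : MvPolynomial (Fin N) k) ∉ Q := by
      by_contra hcon
      push Not at hcon
      exact ha (mem_of_vars hcon (hA.pos a) (hA.hf a))
    obtain ⟨i, hi⟩ := h1
    have h2 := (hε.pow l).mulx (polyGr_pow (polyGr_X (fun _ => 1) i) (l - 1))
    have h3 : (l : ℤ) * (b * n + -1) + ((l - 1 : ℕ) : ℤ) * 1 = b * ((n * l : ℕ) : ℤ) + -1 := by
      rw [Nat.cast_sub hl]
      push_cast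
      ring
    rw [h3, ← DT_pow, ← pow_mul] at h2
    have h4 : f a * (X i ^ (l - 1) * ε a ^ l) ∈ Q := h ⟨a, _, ⟨_, _, h2, rfl⟩, rfl⟩
    rcases hQ.mem_or_mem h4 with h5 | h5
    · exact absurd h5 ha
    · rcases hQ.mem_or_mem h5 with h6 | h6
      · exact absurd (hQ.mem_of_pow_mem _ h6) hi
      · exact Ideal.mul_mem_left _ _ (hQ.mem_of_pow_mem _ h6)

/-- field `seven` -/
theorem seven_gg {A : Twt (MvPolynomial (Fin N) k) α} {b : ℤ}
    (hJ₀ : (polyGr k (fun _ : Fin N => (1 : ℤ))).Sub J₀) (hA : (DT f d A).Lb (fun _ => 1) J₀)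
    (H : ∀ (J : Ideal (MvPolynomial (Fin N) k)) (hJ : (polyGr k (fun _ => 1)).Sub J), J₀ ≤ J →
      ∀ c : ℤ, ∀ᶠ m : ℕ in atTop, HV (DT f d (A ^ m)) (cyc (fun _ => 1) J hJ) (b * m + c) 1)
    (H' : ∀ Q : Ideal (MvPolynomial (Fin N) k), (polyGr k (fun _ => 1)).Sub Q → Q.IsPrime →
      (∃ i, (X i : MvPolynomial (Fin N) k) ∉ Q) → J₀ ≤ Q → ∀ᶠ n : ℕ in atTop,
      ∃ (T : ℕ) (ε : α → MvPolynomial (Fin N) k) (a : α),
        IsSec (DT f d (A ^ n)) (fun _ => 1) Q T (b * n + -1) ε ∧ f a ∉ Q ∧ ε a ∉ Q) :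
    ∃ n : ℕ, 1 ≤ n ∧ (DT f d (A ^ n)).GG (fun _ => 1) J₀ (b * n + -1) := by
  classical
  -- the largest radical
  obtain ⟨-, ⟨n, hn, rfl⟩, hmax⟩ := (inferInstance :
    WellFoundedGT (Ideal (MvPolynomial (Fin N) k))).wf.has_min
    {K | ∃ n : ℕ, 1 ≤ n ∧ K = (J₀ ⊔ Ideal.span (Bas f d J₀ A b n)).radical} ⟨_, 1, le_rfl, rfl⟩
  refine ⟨n, hn, gg_of_nums (D := DT f d (A ^ n)) hA.hf fun a => ?_⟩
  by_contra hcon
  push Not at hcon
  -- the homogeneous prime
  obtain ⟨Q, hQ, hQp, hKQ, haQ⟩ := exists_prime_notMem (w := fun _ => (1 : ℤ))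
    (K := J₀ ⊔ Ideal.span (Nums (DT f d (A ^ n)) (fun _ => 1) J₀ (b * n + -1) a))
    (Gr.sub_sup hJ₀ (polyGr_sub_span (by
      rintro x ⟨T, ε, hε, rfl⟩
      exact ⟨_, hε.hom a⟩))) (g := f a) hcon
  have hJQ : J₀ ≤ Q := le_sup_left.trans hKQ
  have hXQ : ∃ i, (X i : MvPolynomial (Fin N) k) ∉ Q := by
    by_contra hcon'
    push Not at hcon'
    exact haQ (mem_of_vars hcon' (hA.pos a) (hA.hf a))
  obtain ⟨n₁, hn₁⟩ := eventually_atTop.1 (H' Q hQ hQp hXQ hJQ)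
  obtain ⟨n₂, hn₂⟩ := eventually_atTop.1 (liftE hA H (-1) hJ₀ hQ hJQ)
  have hbig : n₁ ≤ n * (n₁ + n₂ + 1) ∧ n₂ ≤ n * (n₁ + n₂ + 1) := by
    have h1 : 1 * (n₁ + n₂ + 1) ≤ n * (n₁ + n₂ + 1) := Nat.mul_le_mul_right _ hn
    omega
  obtain ⟨T', ε', a', hε', ha', h0'⟩ := hn₁ _ hbig.1
  obtain ⟨T, ε, hε, heq⟩ := hn₂ _ hbig.2 T' ε' hε'
  -- the section is not zero at `Q`
  have h1 : ε' a ∉ Q := hε'.notMem (D := DT f d (A ^ (n * (n₁ + n₂ + 1)))) ha' haQ h0'
  have h2 : ε a ∉ Q := by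
    intro h3
    obtain ⟨e, he⟩ := heq a
    have h4 : f a ^ e * (f a ^ T * ε' a) ∈ Q := by
      have h5 : f a ^ e * (f a ^ T * ε' a) = f a ^ e * (f a ^ T' * ε a) -
        f a ^ e * (f a ^ T' * ε a - f a ^ T * ε' a) := by ring
      rw [h5]
      exact Q.sub_mem (Ideal.mul_mem_left _ _ (Ideal.mul_mem_left _ _ h3)) he
    rcases hQp.mem_or_mem h4 with h5 | h5
    · exact haQ (hQp.mem_of_pow_mem _ h5)
    · rcases hQp.mem_or_mem h5 with h6 | h6
      · exact haQ (hQp.mem_of_pow_mem _ h6)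
      · exact h1 h6
  -- the base locus of level `n` is in `Q`
  have h3 : Bas f d J₀ A b n ⊆ Q := by
    rintro y ⟨a₁, x, ⟨T₁, ε₁, hε₁, rfl⟩, rfl⟩
    have h4 : ε₁ a ∈ Q := hKQ (Ideal.mem_sup_right (Ideal.subset_span ⟨T₁, ε₁, hε₁, rfl⟩))
    by_contra h5
    have h6 : f a₁ ∉ Q := fun h7 => h5 (Ideal.mul_mem_right _ _ h7)
    have h7 : ε₁ a₁ ∉ Q := fun h8 => h5 (Ideal.mul_mem_left _ _ h8)
    exact (hε₁.mono hJQ).notMem (D := DT f d (A ^ n)) h6 haQ h7 h4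
  have h4 : J₀ ⊔ Ideal.span (Bas f d J₀ A b n) ≤ Q := sup_le hJQ (Ideal.span_le.2 h3)
  refine hmax (J₀ ⊔ Ideal.span (Bas f d J₀ A b (n * (n₁ + n₂ + 1)))).radical
    ⟨_, Nat.mul_pos hn (by omega), rfl⟩ (lt_of_le_of_ne ?_ ?_)
  · rw [Ideal.radical_le_radical_iff, Ideal.radical_eq_sInf]
    refine le_sInf ?_
    rintro Q' ⟨h5, h6⟩
    have := h6
    refine sup_le (le_sup_left.trans h5) (Ideal.span_le.2 (bas_le (l := n₁ + n₂ + 1) hA (by omega) ?_))
    · exact fun y hy => h5 (Ideal.mem_sup_right (Ideal.subset_span hy))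
  · intro h5
    have h6 : (J₀ ⊔ Ideal.span (Bas f d J₀ A b n)).radical ≤ Q :=
      hQp.radical_le_iff.2 h4
    rw [h5] at h6
    have h7 : f a * ε a ∈ Q := h6 (Ideal.le_radical (Ideal.mem_sup_right (Ideal.subset_span
      ⟨a, _, ⟨T, ε, hε, rfl⟩, rfl⟩)))
    rcases hQp.mem_or_mem h7 with h8 | h8
    · exact haQ h8
    · exact h2 h8

end main

end Pool.Agent.Lib.MP_0b721b_ag
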