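import Pool.Agent.Lib.MP_0b721b_ag.Kl.Asm
import Pool.Agent.Lib.MP_0b721b_ag.Kl.F7

/-!
The fields `div`, `six`, `seven` of `Geo` for the line bundles on a cover of `V(I)`.
-/

namespace Pool.Agent.Lib.MP_0b721b_ag

namespace Kl

open MvPolynomial Filter

universe u

section

variable {k : Type u} [Field k] {N : ℕ} {w : Fin N → ℤ} {α : Type} [LinearOrder α] [Fintype α]
  {D : Dat (MvPolynomial (Fin N) k) α} {J : Ideal (MvPolynomial (Fin N) k)}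

/-- a nonzero section -/
theorem exists_sec_of_h0 (hD : D.Lb w J) (hJ : (polyGr k w).Sub J) {n : ℤ}
    (h : 0 < (h0 D w J hJ n : ℤ)) : ∃ (T : ℕ) (ε : α → MvPolynomial (Fin N) k) (a : α),
      IsSec D w J T n ε ∧ D.f a ∉ J ∧ ε a ∉ J := by
  have h1 : ∃ z ∈ secs D (cyc w J hJ) n, z ≠ 0 := by
    by_contra hcon
    push Not at hcon
    have h2 : Submodule.span k (secs D (cyc w J hJ) n) = ⊥ := by
      rw [Submodule.span_eq_bot]
      exact hcon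
    rw [h0_eq, h2, finrank_bot] at h
    exact lt_irrefl _ h
  obtain ⟨z, hz, hz0⟩ := h1
  rw [secs_iff] at hz
  obtain ⟨T, ε, -, hε, hfr⟩ := exists_isSec hJ hD z hz.1 (fun a b hab _ _ => hz.2 a b hab) 0
  obtain ⟨a, ha⟩ := Function.ne_iff.1 hz0
  have h3 : ∀ j : ℕ, D.f a ^ j * ε a ∉ J := by
    intro j hj
    apply ha
    rw [hfr a]
    change fr (D.fJ {a}) (Submodule.Quotient.mk (ε a) : MvPolynomial (Fin N) k ⧸ J) T = 0
    rw [fr_eq_zero]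
    refine ⟨j, ?_⟩
    rw [← Submodule.Quotient.mk_smul, Submodule.Quotient.mk_eq_zero, smul_eq_mul, fJ_singleton]
    exact hj
  refine ⟨T, ε, a, hε, fun h4 => h3 1 ?_, fun h4 => h3 0 ?_⟩
  · rw [pow_one]
    exact Ideal.mul_mem_right _ _ h4
  · exact Ideal.mul_mem_left _ _ h4

omit [Fintype α] in
theorem mulD_csmul {S : Type*} [CommRing S] [Algebra k S] {M : Type*} [AddCommGroup M] [Module S M]
    [Module k M] [IsScalarTower k S M] (D : Dat S α) (w : α → S) (e : ℕ) (s : Finset α) (c : k)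
    (z : Loc (D.fJ s) M) : mulD D M w e s (c • z) = c • mulD D M w e s z := by
  unfold mulD
  split_ifs with h0
  · obtain ⟨m, j, rfl⟩ := fr_surj z
    rw [smul_fr, Dat.mulS_fr, Dat.mulS_fr, smul_fr]
    congr 1
    rw [smul_comm _ c m]
  · exact (smul_zero c).symm

theorem lmap_csmul {S : Type*} [CommRing S] [Algebra k S] {M : Type*} [AddCommGroup M] [Module S M]
    [Module k M] [IsScalarTower k S M] {M' : Type*} [AddCommGroup M'] [Module S M']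
    [Module k M'] [IsScalarTower k S M'] (s : S) (π : M →ₗ[S] M') (c : k) (z : Loc s M) :
    lmap s π (c • z) = c • lmap s π z := by
  obtain ⟨m, j, rfl⟩ := fr_surj z
  rw [smul_fr, lmap_fr, lmap_fr, smul_fr]
  congr 1
  exact LinearMap.map_smul_of_tower π c m

/-- the exact sequence of a section on the dimensions -/
theorem div_h0 {f : α → MvPolynomial (Fin N) k} {d : α → ℤ}
    {B : Twt (MvPolynomial (Fin N) k) α} (hJp : J.IsPrime) (hJ : (polyGr k w).Sub J)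
    (hB : (DT f d B).Lb w J) {n : ℤ} (hpos : 0 < (h0 (DT f d B) w J hJ n : ℤ)) :
    ∃ (E : Ideal (MvPolynomial (Fin N) k)) (hE : (polyGr k w).Sub E), J < E ∧
      ∀ C, (DT f d C).Lb w J → ∀ y : ℤ, HF k (DT f d (C * B)) (cyc w J hJ) (y + n) 0 →
        HV (DT f d C) (cyc w J hJ) y 1 →
        (h0 (DT f d (C * B)) w J hJ (y + n) : ℤ) =
          h0 (DT f d C) w J hJ y + h0 (DT f d (C * B)) w E hE (y + n) := by
  obtain ⟨T, ε, a, hε, ha, h0'⟩ := exists_sec_of_h0 hB hJ hpos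
  have hE : (polyGr k w).Sub (Zid f J ε) := Zid_sub hJ hB.hf hε.hom
  refine ⟨Zid f J ε, hE, lt_Zid (D := DT f d B) hε ha h0', fun C hC y hfin hv => ?_⟩
  have hCB : (DT f d (C * B)).Lb w J := hC.mulT hB
  have hCE : (DT f d (C * B)).Lb w (Zid f J ε) := hCB.mono (le_Zid ε)
  let i₁ : ∀ s, Module k ((hC.okq hJ).G (DT f d C) y s) := fun s =>
    modDeg (cyc_glin hJ) ((hC.okq hJ).opJ s) y
  let i₂ : ∀ s, Module k ((hCB.okq hJ).G (DT f d (C * B)) (y + n) s) := fun s =>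
    modDeg (cyc_glin hJ) ((hCB.okq hJ).opJ s) (y + n)
  let i₃ : ∀ s, Module k ((hCE.okq hE).G (DT f d (C * B)) (y + n) s) := fun s =>
    modDeg (cyc_glin hE) ((hCE.okq hE).opJ s) (y + n)
  have hS := zses hJ hε (C := C) ha h0' hE hC hCB y
  have F2 := H0_finite (hCB.okq hJ) (cyc_glin hJ) (y + n) hfin
  rw [h0_eq, h0_eq, h0_eq, finrank_secs (hC.okq hJ) (cyc_glin hJ) y,
    finrank_secs (hCB.okq hJ) (cyc_glin hJ) (y + n),
    finrank_secs (hCE.okq hE) (cyc_glin hE) (y + n)]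
  refine hS.h0_add ((hCB.okq hJ).fctn _ (y + n)) (lin_rho (hC.okq hJ) (cyc_glin hJ) y)
    (lin_rho (hCB.okq hJ) (cyc_glin hJ) (y + n)) (lin_rho (hCE.okq hE) (cyc_glin hE) (y + n))
    ?_ ?_ F2 (((hC.okq hJ).hv_iff y 1).1 hv)
  · intro s c z
    exact Subtype.ext (mulD_csmul (DT f d C) ε T s c z.1)
  · intro s c z
    exact Subtype.ext (lmap_csmul _ _ c z.1)

end

section fields

variable {k : Type u} [Field k] {N : ℕ} {α : Type} [LinearOrder α] [Fintype α]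
  {I : Ideal (MvPolynomial (Fin N) k)} {M : Dat (MvPolynomial (Fin N) k) α}
  (hM : M.Lb (fun _ => 1) I)

/-- the field `div` -/
theorem fld_div (hfin : ∀ (J : Ideal (MvPolynomial (Fin N) k)) (hJ : (polyGr k (fun _ => 1)).Sub J)
      (A : Twt (MvPolynomial (Fin N) k) α), (DT M.f M.d A).Lb (fun _ => 1) J → ∀ n,
      HF k (DT M.f M.d A) (cyc (fun _ => 1) J hJ) n 0)
    (P : Hi (fun _ => 1) I) (hP : Hi.Pr P) (B : twSub hM) (n : ℤ)
    (h : 0 < (h0 (DT M.f M.d B.1) (fun _ => 1) P.1 P.2.1 n : ℤ)) :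
    ∃ E : Hi (fun _ => 1) I, P < E ∧ ∀ (A : twSub hM) (y : ℤ),
      (∀ p, 1 ≤ p → HV (DT M.f M.d A.1) (cyc (fun _ => 1) P.1 P.2.1) y p) →
      (h0 (DT M.f M.d (A * B).1) (fun _ => 1) P.1 P.2.1 (y + n) : ℤ) =
        h0 (DT M.f M.d A.1) (fun _ => 1) P.1 P.2.1 y +
        h0 (DT M.f M.d (A * B).1) (fun _ => 1) E.1 E.2.1 (y + n) := by
  have hmem : ∀ A : twSub hM, (DT M.f M.d A.1).Lb (fun _ => 1) P.1 := fun A => A.2.mono P.2.2
  obtain ⟨E, hE, hlt, H⟩ := div_h0 hP.1 P.2.1 (hmem B) h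
  refine ⟨⟨E, hE, P.2.2.trans hlt.le⟩, Hi.lt_iff.2 hlt, fun A y hv => ?_⟩
  exact H A.1 (hmem A) y (hfin _ _ _ (hmem (A * B)) _) (hv 1 le_rfl)

/-- the field `six` -/
theorem fld_six (P : Hi (fun _ => 1) I) (hP : Hi.Pr P) (A : twSub hM) (b : ℤ)
    (h : ∃ n : ℕ, 1 ≤ n ∧
      0 < (h0 (DT M.f M.d (A ^ n).1) (fun _ => 1) P.1 P.2.1 (b * n - 1) : ℤ))
    (hE : ∀ J : Hi (fun _ => 1) I, P < J → ∀ c : ℤ, ∀ᶠ m : ℕ in atTop, ∀ p, 1 ≤ p →
      HV (DT M.f M.d (A ^ m).1) (cyc (fun _ => 1) J.1 J.2.1) (b * m + c) p) (c : ℤ) :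
    ∀ᶠ m : ℕ in atTop, ∀ p, 1 ≤ p →
      HV (DT M.f M.d (A ^ m).1) (cyc (fun _ => 1) P.1 P.2.1) (b * m + c) p := by
  have hmem : ∀ A : twSub hM, (DT M.f M.d A.1).Lb (fun _ => 1) P.1 := fun A => A.2.mono P.2.2
  obtain ⟨n, hn, hpos⟩ := h
  obtain ⟨T, ε, a, hε, ha, h0'⟩ := exists_sec_of_h0 (hmem (A ^ n)) P.2.1 hpos
  obtain ⟨i, hi⟩ := hP.2
  have := hP.1
  exact six_prime P.2.1 hi (hmem A) hn hε ha h0'
    (fun C hC => fld_serre (fun _ => one_pos) hC P.2.1)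
    (fun J hJ hlt c => hE ⟨J, hJ, P.2.2.trans hlt.le⟩ (Hi.lt_iff.2 hlt) c) c

/-- the field `seven` -/
theorem fld_seven (J₀ : Hi (fun _ => 1) I) (A : twSub hM) (b : ℤ)
    (H : ∀ J : Hi (fun _ => 1) I, J₀ ≤ J → ∀ c : ℤ, ∀ᶠ m : ℕ in atTop, ∀ p, 1 ≤ p →
      HV (DT M.f M.d (A ^ m).1) (cyc (fun _ => 1) J.1 J.2.1) (b * m + c) p)
    (H' : ∀ Q : Hi (fun _ => 1) I, Hi.Pr Q → J₀ ≤ Q → ∀ᶠ n : ℕ in atTop,
      0 < (h0 (DT M.f M.d (A ^ n).1) (fun _ => 1) Q.1 Q.2.1 (b * n - 1) : ℤ)) :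
    (DT M.f M.d A.1).Amp (fun _ => 1) J₀.1 b := by
  obtain ⟨n, hn, hG⟩ := seven_gg (A := A.1) (b := b) J₀.2.1 (A.2.mono J₀.2.2)
    (fun J hJ hJ₀ c => by
      filter_upwards [H ⟨J, hJ, J₀.2.2.trans hJ₀⟩ (Hi.le_iff.2 hJ₀) c] with m hm
      exact hm 1 le_rfl)
    (fun Q hQ hQp hX hJ₀ => by
      filter_upwards [H' ⟨Q, hQ, J₀.2.2.trans hJ₀⟩ ⟨hQp, hX⟩ (Hi.le_iff.2 hJ₀)] with m hm
      obtain ⟨T, ε, a, hε, ha, h0'⟩ := exists_sec_of_h0
        ((A ^ m).2.mono (J₀.2.2.trans hJ₀)) hQ hm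
      rw [sub_eq_add_neg] at hε
      exact ⟨T, ε, a, hε, ha, h0'⟩)
  refine ⟨n, b * n + -1, hn, ?_, ?_⟩
  · have : (n : ℤ) * b = b * n := mul_comm _ _
    omega
  · rw [← DT_pow]
    exact hG

end fields

end Kl

end Pool.Agent.Lib.MP_0b721b_ag
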