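import Pool.Agent.Lib.MP_0b721b_ag.Kl.Fld

/-!
A positive dimension gives a section which is not zero.
-/

namespace Pool.Agent.Lib.MP_0b721b_ag

namespace Kl

open MvPolynomial Filter

universe u

variable {k : Type u} [Field k] {N : ℕ} {w : Fin N → ℤ} {α : Type} [LinearOrder α]
  {D : Dat (MvPolynomial (Fin N) k) α} {J : Ideal (MvPolynomial (Fin N) k)}

/-- a section which is not zero -/
theorem sec_of_pos [Finite α] (hD : D.Lb w J) (hJ : (polyGr k w).Sub J) {y : ℤ}
    (h : 0 < (h0 D w J hJ y : ℤ)) : ∃ (T : ℕ) (ε : α → MvPolynomial (Fin N) k) (a : α),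
      IsSec D w J T y ε ∧ D.f a ∉ J ∧ ε a ∉ J := by
  obtain ⟨z, hz, hz0⟩ : ∃ z ∈ secs D (cyc w J hJ) y, z ≠ 0 := by
    by_contra hcon
    push Not at hcon
    have h1 : Submodule.span k (secs D (cyc w J hJ) y) = ⊥ := by
      rw [Submodule.span_eq_bot]
      exact hcon
    rw [h0_eq, h1, finrank_bot] at h
    exact absurd h (lt_irrefl _)
  rw [secs_iff] at hz
  obtain ⟨a, ha⟩ : ∃ a, z a ≠ 0 := by
    by_contra hcon
    push Not at hcon
    exact hz0 (funext hcon)
  obtain ⟨T, ε, -, h1, h2⟩ := exists_isSec hJ hD z hz.1 (fun a b hab _ _ => hz.2 a b hab) 0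
  refine ⟨T, ε, a, h1, fun hfa => ha ?_, fun hεa => ha ?_⟩
  · have : Subsingleton (Loc (D.fJ {a}) (MvPolynomial (Fin N) k ⧸ J)) := by
      refine loc_subsingleton fun m => ?_
      obtain ⟨m, rfl⟩ := Submodule.Quotient.mk_surjective J m
      rw [← Submodule.Quotient.mk_smul, Submodule.Quotient.mk_eq_zero, smul_eq_mul, fJ_singleton]
      exact Ideal.mul_mem_right _ _ hfa
    exact Subsingleton.elim _ _
  · rw [h2 a, (Submodule.Quotient.mk_eq_zero J).2 hεa, fr_zero]

end Kl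

end Pool.Agent.Lib.MP_0b721b_ag
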