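import Pool.Agent.Lib.MP_0b721b_ag.Kl.Hf0
import Pool.Agent.Lib.MP_0b721b_ag.Kl.Pos

/-!
Finiteness for the cyclic modules.
-/

namespace Pool.Agent.Lib.MP_0b721b_ag

namespace Kl

open MvPolynomial Filter

universe u

variable {k : Type u} [Field k] {N : ℕ} {w : Fin N → ℤ} {α : Type} [LinearOrder α] [Fintype α]

/-- the spaces of sections of the twists of `P / J` are finite-dimensional -/
theorem fld_fin (hw : ∀ i, 0 < w i) (D : Dat (MvPolynomial (Fin N) k) α)
    (J : Ideal (MvPolynomial (Fin N) k)) (hJ : (polyGr k w).Sub J) (hD : D.Lb w J) (n : ℤ) :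
    HF k D (cyc w J hJ) n 0 :=
  hf_tw0 hw hJ hD (cyc_gmod hJ) (fun a ha m => by
    obtain ⟨m, rfl⟩ := Submodule.Quotient.mk_surjective J m
    rw [← Submodule.Quotient.mk_smul, Submodule.Quotient.mk_eq_zero, smul_eq_mul]
    exact Ideal.mul_mem_right _ _ ha) n

end Kl

end Pool.Agent.Lib.MP_0b721b_ag
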