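import Pool.Agent.Lib.MP_0b721b_ag.Kl.Sc

/-!
Compatible families of fractions on the sets `{a}` come from numerators, and conversely.
-/

namespace Pool.Agent.Lib.MP_0b721b_ag

open MvPolynomial Finset

section pairs

variable {α : Type*} [LinearOrder α]

theorem min'_pair {a b : α} (hab : a < b) (h : ({a, b} : Finset α).Nonempty) :
    ({a, b} : Finset α).min' h = a := by
  apply le_antisymm
  · exact Finset.min'_le _ _ (Finset.mem_insert_self _ _)
  · apply Finset.le_min'
    intro y hy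
    rw [Finset.mem_insert, Finset.mem_singleton] at hy
    rcases hy with rfl | rfl
    · exact le_rfl
    · exact hab.le

theorem pair_erase_left {a b : α} (hab : a < b) : ({a, b} : Finset α).erase a = {b} := by
  ext x
  simp only [Finset.mem_erase, Finset.mem_insert, Finset.mem_singleton]
  constructor
  · rintro ⟨h1, h2 | h2⟩
    · exact absurd h2 h1
    · exact h2
  · rintro rfl
    exact ⟨hab.ne', Or.inr rfl⟩

theorem pair_erase_right {a b : α} (hab : a < b) : ({a, b} : Finset α).erase b = {a} := by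
  ext x
  simp only [Finset.mem_erase, Finset.mem_insert, Finset.mem_singleton]
  constructor
  · rintro ⟨h1, h2 | h2⟩
    · exact h2
    · exact absurd h2 h1
  · rintro rfl
    exact ⟨hab.ne, Or.inl rfl⟩

theorem pair_sdiff_left {a b : α} (hab : a < b) : ({a, b} : Finset α) \ {a} = {b} := by
  rw [Finset.sdiff_singleton_eq_erase, pair_erase_left hab]

theorem pair_sdiff_right {a b : α} (hab : a < b) : ({a, b} : Finset α) \ {b} = {a} := by
  rw [Finset.sdiff_singleton_eq_erase, pair_erase_right hab]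

variable {S : Type*} [CommRing S] (D : Dat S α) {M : Type*} [AddCommGroup M] [Module S M]

theorem fJ_singleton (a : α) : D.fJ {a} = D.f a := Finset.prod_singleton _ _

theorem dJ_singleton (a : α) : D.dJ {a} = D.d a := Finset.sum_singleton _ _

theorem fJ_pair {a b : α} (hab : a < b) : D.fJ {a, b} = D.f a * D.f b := Finset.prod_pair hab.ne

/-- restriction from `{a}` to `{a, b}`, `a < b` -/
theorem tw_pair_left {a b : α} (hab : a < b) (h : ({a} : Finset α) ⊆ {a, b}) (m : M) (k : ℕ) :
    D.tw M {a} {a, b} (singleton_nonempty a) h (fr _ m k) =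
      fr (D.fJ {a, b}) ((D.v a a * (D.f b * D.f b) ^ D.t) • D.f b ^ k • m) (k + 2 * D.t) := by
  rw [Dat.tw_eq]
  change fr _ _ _ = _
  rw [Finset.min'_singleton, min'_pair hab, pair_erase_left hab, pair_sdiff_left hab, fJ_singleton]

/-- restriction from `{b}` to `{a, b}`, `a < b` -/
theorem tw_pair_right {a b : α} (hab : a < b) (h : ({b} : Finset α) ⊆ {a, b}) (m : M) (k : ℕ) :
    D.tw M {b} {a, b} (singleton_nonempty b) h (fr _ m k) =
      fr (D.fJ {a, b}) ((D.v a b * (D.f b * D.f a) ^ D.t) • D.f a ^ k • m) (k + 2 * D.t) := by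
  rw [Dat.tw_eq]
  change fr _ _ _ = _
  rw [Finset.min'_singleton, min'_pair hab, pair_erase_left hab, pair_erase_right hab,
    pair_sdiff_right hab, fJ_singleton, fJ_singleton]

/-- a family of fractions on the points is compatible -/
def Cpt (D : Dat S α) (M : Type*) [AddCommGroup M] [Module S M]
    (s : ∀ a : α, Loc (D.fJ {a}) M) : Prop :=
  ∀ (a b : α) (_ : a < b) (h : ({b} : Finset α) ⊆ {a, b}) (h' : ({a} : Finset α) ⊆ {a, b}),
    D.tw M {b} {a, b} (singleton_nonempty b) h (s b) =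
      D.tw M {a} {a, b} (singleton_nonempty a) h' (s a)

end pairs

section sec

variable {A : Type*} [CommRing A] {σ : Type*} {w : σ → ℤ} {α : Type*} [LinearOrder α]
  {D : Dat (MvPolynomial σ A) α} {I I' : Ideal (MvPolynomial σ A)}

/-- the compatibility of two fractions in terms of the numerators -/
theorem cpt_iff (hD : D.Lb w I) {a b : α} (hab : a < b) (T : ℕ) (εa εb : MvPolynomial σ A)
    (h : ({b} : Finset α) ⊆ {a, b}) (h' : ({a} : Finset α) ⊆ {a, b}) :
    D.tw (MvPolynomial σ A ⧸ I) {b} {a, b} (singleton_nonempty b) h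
      (fr _ (Submodule.Quotient.mk εb) T) =
      D.tw (MvPolynomial σ A ⧸ I) {a} {a, b} (singleton_nonempty a) h'
      (fr _ (Submodule.Quotient.mk εa) T) ↔
    EqF I (D.f a * D.f b) (εa * D.f b ^ T * (D.f a * D.f b) ^ D.t) (D.v a b * εb * D.f a ^ T) := by
  rw [tw_pair_right D hab, tw_pair_left D hab]
  simp only [← Submodule.Quotient.mk_smul, smul_eq_mul]
  rw [fr_eq_iff_EqF, fJ_pair D hab]
  have hself : EqF I (D.f a * D.f b) (D.v a a) (D.f a ^ (2 * D.t)) :=
    (EqF.self hD a).mono ⟨D.f b, rfl⟩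
  constructor
  · intro h1
    -- cancel the common power
    have h2 : EqF I (D.f a * D.f b) (D.v a b * (D.f b * D.f a) ^ D.t * (D.f a ^ T * εb))
        (D.v a a * (D.f b * D.f b) ^ D.t * (D.f b ^ T * εa)) :=
      EqF.cancel (t := T + 2 * D.t) ⟨1, by ring⟩ h1
    have h3 := hself.mul ((D.f b * D.f b) ^ D.t * (D.f b ^ T * εa))
    have h4 : EqF I (D.f a * D.f b) ((D.f a * D.f b) ^ D.t * (D.v a b * εb * D.f a ^ T))
        ((D.f a * D.f b) ^ D.t * (εa * D.f b ^ T * (D.f a * D.f b) ^ D.t)) := by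
      refine (EqF.of_eq ?_).trans (h2.trans ((EqF.of_eq ?_).trans (h3.trans (EqF.of_eq ?_))))
      · ring
      · ring
      · ring
    exact (EqF.cancel (t := D.t) ⟨1, by ring⟩ h4).symm
  · intro h1
    have h3 := hself.mul ((D.f b * D.f b) ^ D.t * (D.f b ^ T * εa))
    have h4 := h1.mul ((D.f a * D.f b) ^ D.t)
    have h2 : EqF I (D.f a * D.f b) (D.v a b * (D.f b * D.f a) ^ D.t * (D.f a ^ T * εb))
        (D.v a a * (D.f b * D.f b) ^ D.t * (D.f b ^ T * εa)) := by
      refine (EqF.of_eq ?_).trans (h4.symm.trans ((EqF.of_eq ?_).trans (h3.symm.trans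
        (EqF.of_eq ?_))))
      · ring
      · ring
      · ring
    exact h2.mul _

/-- a section gives a compatible family -/
theorem IsSec.cpt (hD : D.Lb w I) {T : ℕ} {u : ℤ} {ε : α → MvPolynomial σ A}
    (h : IsSec D w I T u ε) :
    Cpt D (MvPolynomial σ A ⧸ I) (fun a => fr _ (Submodule.Quotient.mk (ε a)) T) := by
  intro a b hab h1 h2
  exact (cpt_iff hD hab T (ε a) (ε b) h1 h2).2 (h.comp a b)

/-- every compatible family of degree `u` comes from a section, with an exponent as large as we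
like -/
theorem exists_isSec [Finite α] (hI : (polyGr A w).Sub I) (hD : D.Lb w I) {u : ℤ}
    (s : ∀ a : α, Loc (D.fJ {a}) (MvPolynomial σ A ⧸ I))
    (hs : ∀ a, LDeg (cyc w I hI) (D.fJ {a}) (D.dJ {a}) u (s a))
    (hc : Cpt D (MvPolynomial σ A ⧸ I) s) (K : ℕ) :
    ∃ (T : ℕ) (ε : α → MvPolynomial σ A), K ≤ T ∧ IsSec D w I T u ε ∧
      ∀ a, s a = fr _ (Submodule.Quotient.mk (ε a)) T := by
  classical
  cases nonempty_fintype α
  choose k m hm hk using hs
  have hok := hD.okc hI
  have hki : ∀ a, k a ≤ ∑ a, k a := fun a =>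
    Finset.single_le_sum (f := k) (fun _ _ => Nat.zero_le _) (Finset.mem_univ a)
  -- common exponent
  have h1 : ∀ a, ∃ x : MvPolynomial σ A, (polyGr A w).Hom (((K + ∑ a, k a : ℕ) : ℤ) * D.d a + u) x ∧
      s a = fr _ (Submodule.Quotient.mk x) (K + ∑ a, k a) := by
    intro a
    obtain ⟨c, hc'⟩ := Nat.exists_eq_add_of_le (hki a)
    have h2 : s a = fr _ (D.fJ {a} ^ (K + c) • m a) (K + ∑ a, k a) := by
      rw [hk a, hc', show K + (k a + c) = k a + (K + c) by ring, fr_raise]
    have h3 : (cyc w I hI).Hom (((K + ∑ a, k a : ℕ) : ℤ) * D.d a + u)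
        (D.fJ {a} ^ (K + c) • m a) := by
      have := ((hok.opJ {a}).pow (K + c)).hom (hm a)
      convert this using 1
      rw [hc', dJ_singleton]
      push_cast
      ring
    obtain ⟨x, hx⟩ := Submodule.Quotient.mk_surjective I (D.fJ {a} ^ (K + c) • m a)
    refine ⟨(polyGr A w).pr (((K + ∑ a, k a : ℕ) : ℤ) * D.d a + u) x, (polyGr A w).hom_pr _ _, ?_⟩
    rw [h2]
    congr 1
    have h4 : (Submodule.Quotient.mk ((polyGr A w).pr (((K + ∑ a, k a : ℕ) : ℤ) * D.d a + u) x) :
        MvPolynomial σ A ⧸ I) =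
        (cyc w I hI).pr (((K + ∑ a, k a : ℕ) : ℤ) * D.d a + u) (Submodule.Quotient.mk x) := rfl
    rw [h4, hx]
    exact h3.symm
  choose ε hε hs' using h1
  refine ⟨K + ∑ a, k a, ε, Nat.le_add_right _ _, ⟨hε, ?_⟩, hs'⟩
  have h5 : ∀ a b, a < b → EqF I (D.f a * D.f b)
      (ε a * D.f b ^ (K + ∑ a, k a) * (D.f a * D.f b) ^ D.t)
      (D.v a b * ε b * D.f a ^ (K + ∑ a, k a)) := by
    intro a b hab
    have h6 := hc a b hab (by intro x; simp; tauto) (by intro x; simp; tauto)
    rw [hs' a, hs' b] at h6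
    exact (cpt_iff hD hab _ (ε a) (ε b) _ _).1 h6
  intro a b
  rcases lt_trichotomy a b with hab | rfl | hab
  · exact h5 a b hab
  · exact comp_self hD _ _ _
  · exact comp_symm hD (h5 b a hab)

end sec

end Pool.Agent.Lib.MP_0b721b_ag
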