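import Pool.Agent.Lib.MP_0b721b_ag.Fin

/-!
Global sections of a functor on the nonempty subsets of a finite linearly ordered set, as a vector
space, and the exact sequence of a short exact sequence of functors.
-/

namespace Pool.Agent.Lib.MP_0b721b_ag

open Finset

section H0

variable {α : Type*} [LinearOrder α] (k : Type*) [Field k]
  {G : Finset α → Type*} [∀ J, AddCommGroup (G J)] [∀ J, Module k (G J)]
  (ρ : ∀ J J' : Finset α, J.Nonempty → J ⊆ J' → G J →+ G J')

/-- the restriction maps are `k`-linear -/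
def LinR : Prop := ∀ (J J' : Finset α) (h0 : J.Nonempty) (h : J ⊆ J') (c : k) (z : G J),
  ρ J J' h0 h (c • z) = c • ρ J J' h0 h z

variable {ρ}

/-- the space of global sections -/
def H0 (hl : LinR k ρ) : Submodule k (∀ a : α, G {a}) where
  carrier := {s | ∀ a b : α, a < b →
    ρ {b} {a, b} (singleton_nonempty b) (by intro x; simp; tauto) (s b) =
      ρ {a} {a, b} (singleton_nonempty a) (by intro x; simp; tauto) (s a)}
  zero_mem' := by
    intro a b _
    rw [Pi.zero_apply, Pi.zero_apply, map_zero, map_zero]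
  add_mem' := by
    intro s s' h h' a b hab
    rw [Pi.add_apply, Pi.add_apply, map_add, map_add, h a b hab, h' a b hab]
  smul_mem' := by
    intro c s h a b hab
    rw [Pi.smul_apply, Pi.smul_apply, hl, hl, h a b hab]

variable {k}

theorem mem_H0 {hl : LinR k ρ} {s : ∀ a : α, G {a}} : s ∈ H0 k hl ↔ ∀ a b : α, a < b →
    ρ {b} {a, b} (singleton_nonempty b) (by intro x; simp; tauto) (s b) =
      ρ {a} {a, b} (singleton_nonempty a) (by intro x; simp; tauto) (s a) := Iff.rfl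

/-- the differential of a cochain on a pair -/
theorem dC_pair (z : ∀ J, G J) {a b : α} (hab : a < b) :
    dC ρ z {a, b} = ρ {b} {a, b} (singleton_nonempty b) (by intro x; simp; tauto) (z {b}) -
      ρ {a} {a, b} (singleton_nonempty a) (by intro x; simp; tauto) (z {a}) := by
  have hne : a ∉ ({b} : Finset α) := by
    rw [Finset.mem_singleton]
    exact hab.ne
  have e1 : ({a, b} : Finset α).erase a = {b} := by
    ext x
    simp only [Finset.mem_erase, Finset.mem_insert, Finset.mem_singleton]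
    constructor
    · rintro ⟨h1, h2 | h2⟩
      · exact absurd h2 h1
      · exact h2
    · rintro rfl
      exact ⟨hab.ne', Or.inr rfl⟩
  have e2 : ({a, b} : Finset α).erase b = {a} := by
    ext x
    simp only [Finset.mem_erase, Finset.mem_insert, Finset.mem_singleton]
    constructor
    · rintro ⟨h1, h2 | h2⟩
      · exact h2
      · exact absurd h2 h1
    · rintro rfl
      exact ⟨hab.ne, Or.inl rfl⟩
  have s1 : sgn a ({a, b} : Finset α) = 1 := by
    have : ({a, b} : Finset α).filter (· < a) = ∅ := by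
      ext x
      simp only [Finset.mem_filter, Finset.mem_insert, Finset.mem_singleton, Finset.notMem_empty,
        iff_false, not_and]
      rintro (rfl | rfl)
      · exact lt_irrefl _
      · exact not_lt.2 hab.le
    unfold sgn
    rw [this, Finset.card_empty, pow_zero]
  have s2 : sgn b ({a, b} : Finset α) = -1 := by
    have : ({a, b} : Finset α).filter (· < b) = {a} := by
      ext x
      simp only [Finset.mem_filter, Finset.mem_insert, Finset.mem_singleton]
      constructor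
      · rintro ⟨h1 | h1, h2⟩
        · exact h1
        · rw [h1] at h2
          exact absurd h2 (lt_irrefl _)
      · rintro rfl
        exact ⟨Or.inl rfl, hab⟩
    unfold sgn
    rw [this, Finset.card_singleton, pow_one]
  have r : ∀ (K : Finset α) (c : α) (hK : K = {c}) (h : ({c} : Finset α) ⊆ {a, b}),
      rs ρ z K {a, b} = ρ {c} {a, b} (singleton_nonempty c) h (z {c}) := by
    rintro K c rfl h
    unfold rs
    rw [dif_pos ⟨singleton_nonempty c, h⟩]
  unfold dC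
  rw [Finset.sum_insert hne, Finset.sum_singleton, s1, s2, one_smul, neg_smul, one_smul,
    r _ b e1 (by intro x; simp; tauto), r _ a e2 (by intro x; simp; tauto), sub_eq_add_neg]

/-- a pair is `{a, b}` with `a < b` -/
theorem exists_pair {J : Finset α} (h : J.card = 2) : ∃ a b : α, a < b ∧ J = {a, b} := by
  obtain ⟨a, b, hab, rfl⟩ := Finset.card_eq_two.1 h
  rcases lt_or_gt_of_ne hab with h | h
  · exact ⟨a, b, h, rfl⟩
  · exact ⟨b, a, h, Finset.pair_comm _ _⟩

open Classical in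
/-- a family on the points as a cochain -/
noncomputable def ext0 (s : ∀ a : α, G {a}) (J : Finset α) : G J :=
  if h : ∃ a, {a} = J then h.choose_spec ▸ s h.choose else 0

theorem ext0_singleton (s : ∀ a : α, G {a}) (a : α) : ext0 s {a} = s a := by
  have h : ∃ b, ({b} : Finset α) = {a} := ⟨a, rfl⟩
  unfold ext0
  rw [dif_pos h]
  have key : ∀ (b : α) (hb : ({b} : Finset α) = {a}), (hb ▸ s b : G {a}) = s a := by
    intro b hb
    have : b = a := Finset.singleton_injective hb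
    subst this
    rfl
  exact key _ _

theorem cocycle_iff (z : ∀ J, G J) :
    (∀ J, J.card = 0 + 2 → dC ρ z J = 0) ↔ ∀ a b : α, a < b →
    ρ {b} {a, b} (singleton_nonempty b) (by intro x; simp; tauto) (z {b}) =
      ρ {a} {a, b} (singleton_nonempty a) (by intro x; simp; tauto) (z {a}) := by
  constructor
  · intro h a b hab
    have := h {a, b} (Finset.card_pair hab.ne)
    rw [dC_pair z hab, sub_eq_zero] at this
    exact this
  · intro h J hJ
    obtain ⟨a, b, hab, rfl⟩ := exists_pair hJ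
    rw [dC_pair z hab, sub_eq_zero]
    exact h a b hab

end H0

section maps

variable {α : Type*} [LinearOrder α] {k : Type*} [Field k]
  {G₁ : Finset α → Type*} [∀ J, AddCommGroup (G₁ J)] [∀ J, Module k (G₁ J)]
  {G₂ : Finset α → Type*} [∀ J, AddCommGroup (G₂ J)] [∀ J, Module k (G₂ J)]
  {G₃ : Finset α → Type*} [∀ J, AddCommGroup (G₃ J)] [∀ J, Module k (G₃ J)]
  {ρ₁ : ∀ J J' : Finset α, J.Nonempty → J ⊆ J' → G₁ J →+ G₁ J'}
  {ρ₂ : ∀ J J' : Finset α, J.Nonempty → J ⊆ J' → G₂ J →+ G₂ J'}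
  {ρ₃ : ∀ J J' : Finset α, J.Nonempty → J ⊆ J' → G₃ J →+ G₃ J'}

/-- the map on global sections -/
def H0map (hl₁ : LinR k ρ₁) (hl₂ : LinR k ρ₂) (φ : ∀ J, G₁ J →+ G₂ J) (hφ : Nat' ρ₁ ρ₂ φ)
    (hc : ∀ J (c : k) z, φ J (c • z) = c • φ J z) : H0 k hl₁ →ₗ[k] H0 k hl₂ where
  toFun s := ⟨fun a => φ {a} (s.1 a), by
    intro a b hab
    have := s.2 a b hab
    rw [← hφ, ← hφ, this]⟩
  map_add' s s' := by
    apply Subtype.ext
    funext a
    exact map_add (φ {a}) _ _
  map_smul' c s := by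
    apply Subtype.ext
    funext a
    exact hc {a} c _

theorem H0map_apply (hl₁ : LinR k ρ₁) (hl₂ : LinR k ρ₂) (φ : ∀ J, G₁ J →+ G₂ J)
    (hφ : Nat' ρ₁ ρ₂ φ) (hc : ∀ J (c : k) z, φ J (c • z) = c • φ J z) (s : H0 k hl₁) (a : α) :
    (H0map hl₁ hl₂ φ hφ hc s).1 a = φ {a} (s.1 a) := rfl

variable {φ : ∀ J, G₁ J →+ G₂ J} {ψ : ∀ J, G₂ J →+ G₃ J}

theorem SES.H0_injective (h : SES (ρ₁ := ρ₁) (ρ₂ := ρ₂) (ρ₃ := ρ₃) φ ψ)
    (hl₁ : LinR k ρ₁) (hl₂ : LinR k ρ₂) (hc : ∀ J (c : k) z, φ J (c • z) = c • φ J z) :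
    Function.Injective (H0map hl₁ hl₂ φ h.natφ hc) := by
  intro s s' hs
  apply Subtype.ext
  funext a
  apply h.inj {a} (singleton_nonempty a)
  exact congrFun (congrArg Subtype.val hs) a

theorem SES.H0_exact (h : SES (ρ₁ := ρ₁) (ρ₂ := ρ₂) (ρ₃ := ρ₃) φ ψ)
    (hl₁ : LinR k ρ₁) (hl₂ : LinR k ρ₂) (hl₃ : LinR k ρ₃)
    (hc : ∀ J (c : k) z, φ J (c • z) = c • φ J z) (hc' : ∀ J (c : k) z, ψ J (c • z) = c • ψ J z) :
    LinearMap.range (H0map hl₁ hl₂ φ h.natφ hc) = LinearMap.ker (H0map hl₂ hl₃ ψ h.natψ hc') := by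
  ext s
  rw [LinearMap.mem_range, LinearMap.mem_ker]
  constructor
  · rintro ⟨s', rfl⟩
    apply Subtype.ext
    funext a
    exact (h.exact {a} (singleton_nonempty a) _).2 ⟨_, rfl⟩
  · intro hs
    have h1 : ∀ a, ∃ y, φ {a} y = s.1 a := fun a =>
      (h.exact {a} (singleton_nonempty a) _).1 (congrFun (congrArg Subtype.val hs) a)
    choose y hy using h1
    refine ⟨⟨y, fun a b hab => ?_⟩, ?_⟩
    · apply h.inj {a, b} ⟨a, Finset.mem_insert_self _ _⟩
      rw [h.natφ, h.natφ, hy, hy]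
      exact s.2 a b hab
    · apply Subtype.ext
      funext a
      exact hy a

theorem SES.H0_surjective (h : SES (ρ₁ := ρ₁) (ρ₂ := ρ₂) (ρ₃ := ρ₃) φ ψ) (hρ₂ : Fct ρ₂)
    (hl₂ : LinR k ρ₂) (hl₃ : LinR k ρ₃) (hc' : ∀ J (c : k) z, ψ J (c • z) = c • ψ J z)
    (hv : Van ρ₁ 1) : Function.Surjective (H0map hl₂ hl₃ ψ h.natψ hc') := by
  intro s
  obtain ⟨y, hy⟩ := h.lift (ext0 s.1)
  have hz3 : ∀ J : Finset α, J.card = 0 + 2 → dC ρ₃ (ext0 s.1) J = 0 := by
    rw [cocycle_iff]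
    intro a b hab
    rw [ext0_singleton, ext0_singleton]
    exact s.2 a b hab
  obtain ⟨x, hx⟩ := h.pull (k := 1) (dC ρ₂ y) (fun J hJ => by
    rw [← dC_map h.natψ]
    have : dC ρ₃ (fun J => ψ J (y J)) J = dC ρ₃ (ext0 s.1) J :=
      dC_congr fun K hK => hy K (nonempty_of_card (k := 0) (by omega))
    rw [this, hz3 J hJ])
  obtain ⟨v, hv⟩ := hv x (fun J hJ => by
    apply h.inj J (nonempty_of_card (k := 2) hJ)
    rw [map_zero, ← dC_map h.natφ]
    have : dC ρ₂ (fun J => φ J (x J)) J = dC ρ₂ (dC ρ₂ y) J :=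
      dC_congr fun K hK => hx K (by omega)
    rw [this, dC_dC hρ₂])
  have hw : ∀ J : Finset α, J.card = 0 + 2 → dC ρ₂ (y - fun J => φ J (v J)) J = 0 := by
    intro J hJ
    rw [dC_sub, dC_map h.natφ, hv J (by omega), hx J (by omega), sub_self]
  rw [cocycle_iff] at hw
  refine ⟨⟨fun a => (y - fun J => φ J (v J)) {a}, hw⟩, ?_⟩
  apply Subtype.ext
  funext a
  rw [H0map_apply]
  change ψ {a} ((y - fun J => (φ J) (v J)) {a}) = s.1 a
  rw [Pi.sub_apply, map_sub, hy {a} (singleton_nonempty a), ext0_singleton,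
    (h.exact {a} (singleton_nonempty a) _).2 ⟨v {a}, rfl⟩, sub_zero]

/-- the dimension of the space of global sections -/
noncomputable def h0F (hl : LinR k ρ₁) : ℤ := (Module.finrank k (H0 k hl) : ℤ)

theorem h0F_nonneg (hl : LinR k ρ₁) : 0 ≤ h0F hl := Int.natCast_nonneg _

theorem SES.h0_add (h : SES (ρ₁ := ρ₁) (ρ₂ := ρ₂) (ρ₃ := ρ₃) φ ψ) (hρ₂ : Fct ρ₂)
    (hl₁ : LinR k ρ₁) (hl₂ : LinR k ρ₂) (hl₃ : LinR k ρ₃)
    (hc : ∀ J (c : k) z, φ J (c • z) = c • φ J z) (hc' : ∀ J (c : k) z, ψ J (c • z) = c • ψ J z)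
    (hfin : Module.Finite k (H0 k hl₂)) (hv : Van ρ₁ 1) : h0F hl₂ = h0F hl₁ + h0F hl₃ := by
  have h1 := LinearMap.finrank_range_add_finrank_ker (H0map hl₂ hl₃ ψ h.natψ hc')
  rw [← h.H0_exact hl₁ hl₂ hl₃ hc hc', LinearMap.finrank_range_of_inj
    (h.H0_injective hl₁ hl₂ hc), LinearMap.range_eq_top.2 (h.H0_surjective hρ₂ hl₂ hl₃ hc' hv),
    finrank_top] at h1
  unfold h0F
  rw [← h1]
  push_cast
  ring

theorem SES.h0_le (h : SES (ρ₁ := ρ₁) (ρ₂ := ρ₂) (ρ₃ := ρ₃) φ ψ)
    (hl₁ : LinR k ρ₁) (hl₂ : LinR k ρ₂) (hl₃ : LinR k ρ₃)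
    (hc : ∀ J (c : k) z, φ J (c • z) = c • φ J z) (hc' : ∀ J (c : k) z, ψ J (c • z) = c • ψ J z)
    (hfin : Module.Finite k (H0 k hl₂)) (hfin' : Module.Finite k (H0 k hl₃)) :
    h0F hl₂ ≤ h0F hl₁ + h0F hl₃ := by
  have h1 := LinearMap.finrank_range_add_finrank_ker (H0map hl₂ hl₃ ψ h.natψ hc')
  rw [← h.H0_exact hl₁ hl₂ hl₃ hc hc', LinearMap.finrank_range_of_inj
    (h.H0_injective hl₁ hl₂ hc)] at h1
  have h2 := Submodule.finrank_le (LinearMap.range (H0map hl₂ hl₃ ψ h.natψ hc'))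
  unfold h0F
  rw [← h1]
  push_cast
  linarith [(Nat.cast_le (α := ℤ)).2 h2]

theorem SES.h0_mono (h : SES (ρ₁ := ρ₁) (ρ₂ := ρ₂) (ρ₃ := ρ₃) φ ψ)
    (hl₁ : LinR k ρ₁) (hl₂ : LinR k ρ₂) (hc : ∀ J (c : k) z, φ J (c • z) = c • φ J z)
    (hfin : Module.Finite k (H0 k hl₂)) : h0F hl₁ ≤ h0F hl₂ := by
  have h1 := LinearMap.finrank_le_finrank_of_injective (h.H0_injective hl₁ hl₂ hc)
  exact (Nat.cast_le (α := ℤ)).2 h1

/-- isomorphic functors have spaces of sections of the same dimension -/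
theorem h0F_congr (hl₁ : LinR k ρ₁) (hl₂ : LinR k ρ₂) (hφ : Nat' ρ₁ ρ₂ φ)
    (hb : ∀ J : Finset α, J.Nonempty → Function.Bijective (φ J))
    (hc : ∀ J (c : k) z, φ J (c • z) = c • φ J z) : h0F hl₁ = h0F hl₂ := by
  have h1 : Function.Bijective (H0map hl₁ hl₂ φ hφ hc) := by
    constructor
    · intro s s' hs
      apply Subtype.ext
      funext a
      apply (hb {a} (singleton_nonempty a)).1
      exact congrFun (congrArg Subtype.val hs) a
    · intro s
      have h1 : ∀ a, ∃ y, φ {a} y = s.1 a := fun a => (hb {a} (singleton_nonempty a)).2 _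
      choose y hy using h1
      refine ⟨⟨y, fun a b hab => ?_⟩, ?_⟩
      · apply (hb {a, b} ⟨a, Finset.mem_insert_self _ _⟩).1
        rw [hφ, hφ, hy, hy]
        exact s.2 a b hab
      · apply Subtype.ext
        funext a
        exact hy a
  have h2 := LinearEquiv.finrank_eq (LinearEquiv.ofBijective _ h1)
  unfold h0F
  rw [h2]

end maps

end Pool.Agent.Lib.MP_0b721b_ag
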