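import Pool.Agent.Lib.MP_0b721b_ag.NefDef
import Pool.Agent.Lib.MP_0b721b_ag.HF
import Pool.Agent.Lib.MP_0b721b_ag.Kl.H0

/-!
The dimension of the space of global sections of degree `n` of a twisted sheaf, in terms of the
functor of the sections of degree `n`.
-/

namespace Pool.Agent.Lib.MP_0b721b_ag

namespace Kl

open Finset

section h0

variable {k : Type*} [Field k] {S : Type*} [CommRing S] [Algebra k S] {α : Type*} [LinearOrder α]
  {M : Type*} [AddCommGroup M] [Module S M] [Module k M] [IsScalarTower k S M]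

/-- the compatible families of fractions of degree `n` -/
def secs (D : Dat S α) (g : Gr M) (n : ℤ) : Set (∀ a : α, Loc (D.fJ {a}) M) :=
  {z | (∀ a, LDeg g (D.fJ {a}) (D.dJ {a}) n (z a)) ∧
    ∀ a b, D.tw M {a} {a, b} (Finset.singleton_nonempty a)
        (Finset.singleton_subset_iff.2 (Finset.mem_insert_self a _)) (z a) =
      D.tw M {b} {a, b} (Finset.singleton_nonempty b)
        (Finset.singleton_subset_iff.2 (Finset.mem_insert_of_mem (Finset.mem_singleton_self b)))
        (z b)}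

theorem secs_iff {D : Dat S α} {g : Gr M} {n : ℤ} {z : ∀ a : α, Loc (D.fJ {a}) M} :
    z ∈ secs D g n ↔ (∀ a, LDeg g (D.fJ {a}) (D.dJ {a}) n (z a)) ∧ ∀ a b : α, a < b →
      D.tw M {b} {a, b} (singleton_nonempty b) (by intro x; simp; tauto) (z b) =
        D.tw M {a} {a, b} (singleton_nonempty a) (by intro x; simp; tauto) (z a) := by
  constructor
  · rintro ⟨h1, h2⟩
    exact ⟨h1, fun a b _ => (h2 a b).symm⟩
  · rintro ⟨h1, h2⟩
    refine ⟨h1, fun a b => ?_⟩
    rcases lt_trichotomy a b with hab | rfl | hab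
    · exact (h2 a b hab).symm
    · rfl
    · have key : ∀ (J : Finset α) (_ : J = {b, a}) (ha : {a} ⊆ J) (hb : {b} ⊆ J),
          D.tw M {a} J (singleton_nonempty a) ha (z a) =
            D.tw M {b} J (singleton_nonempty b) hb (z b) := by
        rintro J rfl ha hb
        exact h2 b a hab
      exact key _ (Finset.pair_comm a b) _ _

variable (k) in
/-- the components are linear over `k` -/
def GLin (g : Gr M) : Prop := ∀ (c : k) n m, g.pr n (c • m) = c • g.pr n m

theorem hom_smul {g : Gr M} (hl : GLin k g) (c : k) {n : ℤ} {m : M} (h : g.Hom n m) :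
    g.Hom n (c • m) := by
  unfold Gr.Hom at *
  rw [hl, h]

theorem ldeg_smul {g : Gr M} (hl : GLin k g) {s : S} {d n : ℤ} {z : Loc s M}
    (hz : LDeg g s d n z) (c : k) : LDeg g s d n (c • z) := by
  obtain ⟨j, m, hm, rfl⟩ := hz
  exact ⟨j, c • m, hom_smul hl c hm, smul_fr c m j⟩

theorem ldeg_zero (g : Gr M) (s : S) (d n : ℤ) : LDeg g s d n (0 : Loc s M) :=
  ⟨0, 0, Gr.Hom.zero _ _, (fr_zero 0).symm⟩

/-- the vector space of the fractions of degree `n` -/
@[reducible]
def modDeg {g : Gr M} (hl : GLin k g) {s : S} {d : ℤ} (hs : g.Op s d) (n : ℤ) :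
    Module k ↥(locDeg g hs n) where
  smul c z := ⟨c • z.1, ldeg_smul hl z.2 c⟩
  one_smul z := Subtype.ext (one_smul k z.1)
  mul_smul c c' z := Subtype.ext (mul_smul c c' z.1)
  smul_zero c := Subtype.ext (smul_zero c)
  smul_add c z z' := Subtype.ext (smul_add c z.1 z'.1)
  add_smul c c' z := Subtype.ext (add_smul c c' z.1)
  zero_smul z := Subtype.ext (zero_smul k z.1)

theorem tw_csmul (D : Dat S α) (J J' : Finset α) (h0 : J.Nonempty) (hs : J ⊆ J') (c : k)
    (z : Loc (D.fJ J) M) : D.tw M J J' h0 hs (c • z) = c • D.tw M J J' h0 hs z := by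
  obtain ⟨m, j, rfl⟩ := fr_surj z
  unfold Dat.tw Dat.U Dat.res
  simp only [AddMonoidHom.comp_apply]
  rw [smul_fr, locRes_fr, locRes_fr, opm_fr, opm_fr, smul_fr]
  congr 1
  rw [smul_comm _ c m, smul_comm _ c]

variable {D : Dat S α} {g : Gr M}

theorem lin_rho (h : D.Ok g) (hl : GLin k g) (n : ℤ) :
    letI : ∀ J, Module k (h.G D n J) := fun J => modDeg hl (h.opJ J) n
    LinR k (h.ρ D n) := by
  intro J J' h0 hs c z
  exact Subtype.ext (tw_csmul D J J' h0 hs c z.1)

/-- the comparison -/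
theorem finrank_secs (h : D.Ok g) (hl : GLin k g) (n : ℤ) :
    letI : ∀ J, Module k (h.G D n J) := fun J => modDeg hl (h.opJ J) n
    (Module.finrank k (Submodule.span k (secs D g n)) : ℤ) = h0F (lin_rho h hl n) := by
  let : ∀ J, Module k (h.G D n J) := fun J => modDeg hl (h.opJ J) n
  let W : Submodule k (∀ a : α, Loc (D.fJ {a}) M) :=
    { carrier := secs D g n
      zero_mem' := secs_iff.2 ⟨fun a => ldeg_zero _ _ _ _, fun a b _ => by
        rw [Pi.zero_apply, Pi.zero_apply, map_zero, map_zero]⟩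
      add_mem' := by
        intro z z' h1 h2
        rw [secs_iff] at h1 h2 ⊢
        refine ⟨fun a => (locDeg g (h.opJ {a}) n).add_mem (h1.1 a) (h2.1 a), fun a b hab => ?_⟩
        rw [Pi.add_apply, Pi.add_apply, map_add, map_add, h1.2 a b hab, h2.2 a b hab]
      smul_mem' := by
        intro c z h1
        rw [secs_iff] at h1 ⊢
        refine ⟨fun a => ldeg_smul hl (h1.1 a) c, fun a b hab => ?_⟩
        rw [Pi.smul_apply, Pi.smul_apply, tw_csmul, tw_csmul, h1.2 a b hab] }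
  have h1 : Module.finrank k (Submodule.span k (secs D g n)) = Module.finrank k W := by
    have : Submodule.span k (secs D g n) = W := Submodule.span_eq W
    rw [this]
  rw [h1]
  unfold h0F
  let e : H0 k (lin_rho h hl n) ≃ₗ[k] W :=
    { toFun := fun z => ⟨fun a => (z.1 a).1, secs_iff.2 ⟨fun a => (z.1 a).2, fun a b hab =>
        congrArg Subtype.val (z.2 a b hab)⟩⟩
      map_add' := fun z z' => rfl
      map_smul' := fun c z => rfl
      invFun := fun w => ⟨fun a => ⟨w.1 a, (secs_iff.1 w.2).1 a⟩, fun a b hab =>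
        Subtype.ext ((secs_iff.1 w.2).2 a b hab)⟩
      left_inv := fun z => rfl
      right_inv := fun w => rfl }
  exact congrArg Nat.cast e.finrank_eq.symm

theorem dC_singleton_eq_zero {G : Finset α → Type*} [∀ J, AddCommGroup (G J)]
    {ρ : ∀ J J' : Finset α, J.Nonempty → J ⊆ J' → G J →+ G J'} (z : ∀ J, G J) (a : α) :
    dC ρ z {a} = 0 := by
  unfold dC
  rw [Finset.sum_singleton]
  unfold rs
  rw [dif_neg, smul_zero]
  rintro ⟨h1, -⟩
  rw [Finset.erase_singleton] at h1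
  exact Finset.not_nonempty_empty h1

/-- finiteness from the finite generation of the cohomology in degree zero -/
theorem H0_finite (h : D.Ok g) (hl : GLin k g) (n : ℤ) (hf : HF k D g n 0) :
    letI : ∀ J, Module k (h.G D n J) := fun J => modDeg hl (h.opJ J) n
    Module.Finite k (H0 k (lin_rho h hl n)) := by
  classical
  let : ∀ J, Module k (h.G D n J) := fun J => modDeg hl (h.opJ J) n
  obtain ⟨r, Z, hZ1, hZ2, hZ3⟩ := hf
  have hZ4 : ∀ i, ∀ J : Finset α, J.card = 0 + 2 →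
      dC (h.ρ D n) (fun J => (⟨Z i J, hZ1 i J⟩ : h.G D n J)) J = 0 := by
    intro i J hJ
    apply Subtype.ext
    rw [h.dC_coe]
    exact hZ2 i J hJ
  let Y : Fin r → H0 k (lin_rho h hl n) := fun i =>
    ⟨fun a => ⟨Z i {a}, hZ1 i {a}⟩, fun a b hab => (cocycle_iff _).1 (hZ4 i) a b hab⟩
  refine Module.Finite.of_surjective (M := Fin r → k)
    (Fintype.linearCombination k Y) (fun z => ?_)
  have hz : ∀ J : Finset α, J.card = 0 + 2 → dC (h.ρ D n) (ext0 z.1) J = 0 := by
    rw [cocycle_iff]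
    intro a b hab
    rw [ext0_singleton, ext0_singleton]
    exact z.2 a b hab
  obtain ⟨b, w, hw1, hw2⟩ := hZ3 (fun J => (ext0 z.1 J).1) (fun J => (ext0 z.1 J).2)
    (fun J hJ => by
      rw [← h.dC_coe, hz J hJ]
      rfl)
  refine ⟨b, ?_⟩
  apply Subtype.ext
  funext a
  rw [Fintype.linearCombination_apply]
  have hcoe : ((∑ i, b i • Y i : H0 k (lin_rho h hl n)).1 a).1 = ∑ i, b i • ((Y i).1 a).1 := by
    have h1 : (∑ i, b i • Y i : H0 k (lin_rho h hl n)).1 = ∑ i, b i • (Y i).1 := by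
      rw [AddSubmonoidClass.coe_finsetSum]
      rfl
    rw [h1, Finset.sum_apply, AddSubmonoidClass.coe_finsetSum]
    rfl
  apply Subtype.ext
  rw [hcoe]
  have h2 := hw2 {a} (Finset.card_singleton a)
  rw [dC_singleton_eq_zero, add_zero, ext0_singleton] at h2
  rw [h2]

end h0

section ses

variable {k : Type*} [Field k] {S : Type*} [CommRing S] [Algebra k S] {α : Type*} [LinearOrder α]
  {M₁ : Type*} [AddCommGroup M₁] [Module S M₁] [Module k M₁] [IsScalarTower k S M₁]
  {M₂ : Type*} [AddCommGroup M₂] [Module S M₂] [Module k M₂] [IsScalarTower k S M₂]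
  {M₃ : Type*} [AddCommGroup M₃] [Module S M₃] [Module k M₃] [IsScalarTower k S M₃]
  {g₁ : Gr M₁} {g₂ : Gr M₂} {g₃ : Gr M₃} {δ : ℤ} {φ : M₁ →ₗ[S] M₂} {ψ : M₂ →ₗ[S] M₃}

omit [LinearOrder α] in
theorem lm_csmul (D : Dat S α) (φ : M₁ →ₗ[S] M₂)
    (J : Finset α) (c : k) (z : Loc (D.fJ J) M₁) :
    (cmp_linear D φ).lm J (c • z) = c • (cmp_linear D φ).lm J z := by
  obtain ⟨m, j, rfl⟩ := fr_surj z
  rw [smul_fr, Cmp.lm_fr, Cmp.lm_fr, smul_fr]
  congr 1
  exact LinearMap.map_smul_of_tower φ c m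

/-- the dimensions of the spaces of sections in an exact sequence of graded modules -/
theorem secs_seq (h : GSES g₁ g₂ g₃ δ φ ψ) {D : Dat S α} (h₁ : D.Ok g₁) (h₂ : D.Ok g₂)
    (h₃ : D.Ok g₃) (l₁ : GLin k g₁) (l₂ : GLin k g₂) (l₃ : GLin k g₃) {n : ℤ}
    (f₂ : HF k D g₂ n 0) (f₃ : HF k D g₃ n 0) :
    (Module.finrank k (Submodule.span k (secs D g₁ (n - δ))) : ℤ) ≤
      Module.finrank k (Submodule.span k (secs D g₂ n)) ∧
    (Module.finrank k (Submodule.span k (secs D g₂ n)) : ℤ) ≤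
      Module.finrank k (Submodule.span k (secs D g₁ (n - δ))) +
      Module.finrank k (Submodule.span k (secs D g₃ n)) ∧
    (HV D g₁ (n - δ) 1 → (Module.finrank k (Submodule.span k (secs D g₂ n)) : ℤ) =
      Module.finrank k (Submodule.span k (secs D g₁ (n - δ))) +
      Module.finrank k (Submodule.span k (secs D g₃ n))) := by
  let i₁ : ∀ J, Module k (h₁.G D (n - δ) J) := fun J => modDeg l₁ (h₁.opJ J) (n - δ)
  let i₂ : ∀ J, Module k (h₂.G D n J) := fun J => modDeg l₂ (h₂.opJ J) n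
  let i₃ : ∀ J, Module k (h₃.G D n J) := fun J => modDeg l₃ (h₃.opJ J) n
  obtain ⟨Φ, Ψ, hS, hΦ, hΨ⟩ := h.ses h₁ h₂ h₃ n
  have lΦ : ∀ J (c : k) z, Φ J (c • z) = c • Φ J z := fun J c z => Subtype.ext (by
    have h1 := lm_csmul (k := k) D φ J c z.1
    rw [hΦ]
    change _ = c • (Φ J z).1
    rw [hΦ, ← h1]
    rfl)
  have lΨ : ∀ J (c : k) z, Ψ J (c • z) = c • Ψ J z := fun J c z => Subtype.ext (by
    have h1 := lm_csmul (k := k) D ψ J c z.1
    rw [hΨ]
    change _ = c • (Ψ J z).1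
    rw [hΨ, ← h1]
    rfl)
  have F2 := H0_finite h₂ l₂ n f₂
  have F3 := H0_finite h₃ l₃ n f₃
  rw [finrank_secs h₁ l₁ (n - δ), finrank_secs h₂ l₂ n, finrank_secs h₃ l₃ n]
  refine ⟨hS.h0_mono (lin_rho h₁ l₁ (n - δ)) (lin_rho h₂ l₂ n) lΦ F2,
    hS.h0_le (lin_rho h₁ l₁ (n - δ)) (lin_rho h₂ l₂ n) (lin_rho h₃ l₃ n) lΦ lΨ F2 F3, fun hv => ?_⟩
  exact hS.h0_add (h₂.fctn D n) (lin_rho h₁ l₁ (n - δ)) (lin_rho h₂ l₂ n) (lin_rho h₃ l₃ n) lΦ lΨ
    F2 ((h₁.hv_iff _ 1).1 hv)

end ses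

section poly

open MvPolynomial

variable {k : Type*} [Field k] {σ : Type*} {w : σ → ℤ}

theorem polyGr_glin (w : σ → ℤ) : GLin k (polyGr k w) := fun c n m =>
  map_smul (weightedHomogeneousComponent w n) c m

theorem cyc_glin {I : Ideal (MvPolynomial σ k)} (hI : (polyGr k w).Sub I) :
    GLin k (cyc w I hI) := by
  intro c n m
  obtain ⟨m, rfl⟩ := Submodule.Quotient.mk_surjective I m
  exact congrArg (Submodule.Quotient.mk (p := I)) (polyGr_glin w c n m)

end poly

section poly'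

open MvPolynomial

universe u

variable {k : Type u} [Field k] {σ : Type} {w : σ → ℤ} {α : Type} [LinearOrder α]

theorem h0_eq (D : Dat (MvPolynomial σ k) α) (I : Ideal (MvPolynomial σ k))
    (hI : (polyGr k w).Sub I) (n : ℤ) :
    h0 D w I hI n = Module.finrank k (Submodule.span k (secs D (cyc w I hI) n)) := rfl

end poly'

end Kl

end Pool.Agent.Lib.MP_0b721b_ag
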