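import Pool.Agent.Lib.MP_0b721b_ag.Kl.Build
import Pool.Agent.Lib.MP_0b721b_ag.Kl.Curve
import Pool.Agent.Lib.MP_0b721b_ag.Kl.Tws
import Pool.Agent.Lib.MP_0b721b_ag.Kl.Sd
import Pool.Agent.Lib.MP_0b721b_ag.Kl.Sc2
import Pool.Agent.Lib.MP_0b721b_ag.P3a
import Pool.Agent.Lib.MP_0b721b_ag.P10a

/-!
The fields `zero`, `seq`, `serre`, `sec`, `five` of `Geo` for the line bundles on a cover of `V(I)`.
-/

namespace Pool.Agent.Lib.MP_0b721b_ag

namespace Kl

open MvPolynomial Filter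

universe u

variable {k : Type u} [Field k] {N : ℕ} {w : Fin N → ℤ} {α : Type} [LinearOrder α]
  {D : Dat (MvPolynomial (Fin N) k) α} {J : Ideal (MvPolynomial (Fin N) k)}

/-- a form of degree different from zero is in every ideal which contains the variables -/
theorem mem_of_X (hJ : ∀ i, X i ∈ J) {f : MvPolynomial (Fin N) k} {d : ℤ}
    (hf : (polyGr k w).Hom d f) (hd : d ≠ 0) : f ∈ J := by
  classical
  have h1 : f ∈ Ideal.span (X '' (Set.univ : Set (Fin N)) : Set (MvPolynomial (Fin N) k)) := by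
    rw [MvPolynomial.mem_ideal_span_X_image]
    intro m hm
    by_contra hcon
    push Not at hcon
    have h2 : m = 0 := Finsupp.ext fun i => hcon i (Set.mem_univ i)
    subst h2
    have h3 := (polyGr_hom_iff.1 hf) (MvPolynomial.mem_support_iff.1 hm)
    rw [map_zero] at h3
    exact hd h3.symm
  refine (Ideal.span_le.2 ?_) h1
  rintro _ ⟨i, -, rfl⟩
  exact hJ i

theorem loc_subsingleton {S : Type*} [CommRing S] {M : Type*} [AddCommGroup M] [Module S M]
    {s : S} (h : ∀ m : M, s • m = 0) : Subsingleton (Loc s M) := by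
  refine ⟨fun x y => ?_⟩
  obtain ⟨a, b, j, rfl, rfl⟩ := fr_surj₂ x y
  refine fr_eq_of 1 ?_
  rw [pow_add, pow_one, mul_smul, mul_smul, h, h]

theorem fJ_mem (h : ∀ a, D.f a ∈ J) {s : Finset α} (hs : s.Nonempty) : D.fJ s ∈ J := by
  obtain ⟨a, ha⟩ := hs
  rw [← D.fJ_erase ha]
  exact Ideal.mul_mem_right _ _ (h a)

/-- the field `zero` -/
theorem fld_zero (hD : D.Lb w J) (hJ : (polyGr k w).Sub J) (hX : ∀ i, X i ∈ J) (y : ℤ) :
    h0 D w J hJ y = 0 ∧ ∀ p, 1 ≤ p → HV D (cyc w J hJ) y p := by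
  have hf : ∀ a, D.f a ∈ J := fun a => mem_of_X hX (hD.hf a) (hD.pos a).ne'
  have hs : ∀ s : Finset α, s.Nonempty →
      Subsingleton (Loc (D.fJ s) (MvPolynomial (Fin N) k ⧸ J)) := by
    intro s hs
    refine loc_subsingleton fun m => ?_
    obtain ⟨m, rfl⟩ := Submodule.Quotient.mk_surjective J m
    rw [← Submodule.Quotient.mk_smul, Submodule.Quotient.mk_eq_zero, smul_eq_mul]
    exact Ideal.mul_mem_right _ _ (fJ_mem hf hs)
  constructor
  · rw [h0_eq]
    have : Subsingleton (∀ a : α, Loc (D.fJ {a}) (MvPolynomial (Fin N) k ⧸ J)) :=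
      ⟨fun x y => funext fun a => (hs {a} (Finset.singleton_nonempty a)).elim _ _⟩
    exact Module.finrank_zero_of_subsingleton
  · intro p _ z hz _
    exact ⟨fun _ => 0, fun s => ldeg_zero _ _ _ _, fun s hs' =>
      (hs s (nonempty_of_card hs')).elim _ _⟩

/-- the field `seq` -/
theorem fld_seq (hD : D.Lb w J) (hJ : (polyGr k w).Sub J) {a : MvPolynomial (Fin N) k} {δ : ℤ}
    (ha : (polyGr k w).Hom δ a)
    (hfin : ∀ (J' : Ideal (MvPolynomial (Fin N) k)) (hJ' : (polyGr k w).Sub J'), D.Lb w J' →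
      ∀ n, HF k D (cyc w J' hJ') n 0) :
    (∀ y, (h0 D w (qi J a) (qi_sub hJ ha) (y - δ) : ℤ) ≤ h0 D w J hJ y) ∧
    (∀ y, (h0 D w J hJ y : ℤ) ≤ h0 D w (qi J a) (qi_sub hJ ha) (y - δ) +
      h0 D w (J ⊔ Ideal.span {a}) (sup_span_sub hJ ha) y) ∧
    (∀ y, (∀ p, 1 ≤ p → HV D (cyc w (qi J a) (qi_sub hJ ha)) (y - δ) p) →
      (h0 D w J hJ y : ℤ) = h0 D w (qi J a) (qi_sub hJ ha) (y - δ) +
        h0 D w (J ⊔ Ideal.span {a}) (sup_span_sub hJ ha) y) ∧
    (∀ y, (∀ p, 1 ≤ p → HV D (cyc w (qi J a) (qi_sub hJ ha)) (y - δ) p) →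
      (∀ p, 1 ≤ p → HV D (cyc w (J ⊔ Ideal.span {a}) (sup_span_sub hJ ha)) y p) →
      ∀ p, 1 ≤ p → HV D (cyc w J hJ) y p) := by
  obtain ⟨φ, ψ, hs, -⟩ := gses_of hJ (qi_sub hJ ha) (sup_span_sub hJ ha) ha
    (fun f => (mem_qi (I := J) (a := a) (f := f)).symm) rfl
  have hD1 : D.Lb w (qi J a) := hD.mono (le_qi J a)
  have hD3 : D.Lb w (J ⊔ Ideal.span {a}) := hD.mono le_sup_left
  have h1 := hD1.okc (qi_sub hJ ha)
  have h2 := hD.okc hJ
  have h3 := hD3.okc (sup_span_sub hJ ha)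
  have key : ∀ n : ℤ, _ := fun n => secs_seq (k := k) hs h1 h2 h3 (cyc_glin (qi_sub hJ ha))
    (cyc_glin hJ) (cyc_glin (sup_span_sub hJ ha)) (hfin J hJ hD n)
    (hfin _ (sup_span_sub hJ ha) hD3 n)
  refine ⟨fun y => (key y).1, fun y => (key y).2.1, fun y hv => (key y).2.2 (hv 1 le_rfl),
    fun y hv hv' p hp => hs.hv_mid h1 h2 h3 (hv p hp) (hv' p hp)⟩

/-- vanishing above the number of the open sets of the cover -/
theorem hv_of_card [Fintype α] {M : Type*} [AddCommGroup M] [Module (MvPolynomial (Fin N) k) M]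
    {g : Gr M} {p : ℕ} (hp : Fintype.card α ≤ p) (n : ℤ) : HV D g n p := by
  intro z hz hz'
  refine ⟨fun _ => 0, fun s => ldeg_zero _ _ _ _, fun s hs => ?_⟩
  exfalso
  have := Finset.card_le_univ s
  omega

/-- the field `serre` -/
theorem fld_serre [Fintype α] (hw : ∀ i, 0 < w i) (hD : D.Lb w J) (hJ : (polyGr k w).Sub J) :
    ∀ᶠ y in atTop, ∀ p, 1 ≤ p → HV D (cyc w J hJ) y p := by
  have h1 : ∀ p ∈ Finset.range (Fintype.card α), ∀ᶠ y in atTop, 1 ≤ p → HV D (cyc w J hJ) y p := by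
    intro p _
    by_cases hp : 1 ≤ p
    · obtain ⟨n₀, hn⟩ := serre_O (p := p) hw hJ hD (cyc_gmod hJ) (fun a ha m => by
        obtain ⟨m, rfl⟩ := Submodule.Quotient.mk_surjective J m
        rw [← Submodule.Quotient.mk_smul, Submodule.Quotient.mk_eq_zero, smul_eq_mul]
        exact Ideal.mul_mem_right _ _ ha) hp
      filter_upwards [eventually_ge_atTop n₀] with y hy _
      exact hn y hy
    · exact Eventually.of_forall fun y h => absurd h hp
  have h2 := (Filter.eventually_all_finset (Finset.range (Fintype.card α))).2 h1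
  filter_upwards [h2] with y hy p hp
  by_cases hpc : p < Fintype.card α
  · exact hy p (Finset.mem_range.2 hpc) hp
  · exact hv_of_card (by omega) y

/-- the field `five` -/
theorem fld_five (hw : ∀ i, 0 < w i) (hJ : (polyGr k w).Sub J) : ∃ m₀ : ℤ,
    ∀ (α : Type) [LinearOrder α] [Fintype α] (D : Dat (MvPolynomial (Fin N) k) α), D.Lb w J →
      ∀ b, D.Amp w J b → ∀ y, b + m₀ ≤ y → ∀ p, 1 ≤ p → HV D (cyc w J hJ) y p := by
  obtain ⟨m₀, hm⟩ := core_ideal hw J hJ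
  have hid : J.map (MvPolynomial.map (RingHom.id k)) = J := by
    have h1 : (MvPolynomial.map (RingHom.id k) : MvPolynomial (Fin N) k →+* _) = RingHom.id _ :=
      RingHom.ext fun p => MvPolynomial.map_id p
    rw [h1]
    exact Ideal.map_id J
  refine ⟨m₀, fun α _ _ D hD b hA y hy p hp => ?_⟩
  have hI' : (polyGr k w).Sub (J.map (MvPolynomial.map (RingHom.id k))) := by
    rw [hid]
    exact hJ
  have h1 := hm k (RingHom.id k) α D (by rw [hid]; exact hD) y
    (by rw [hid]; exact hA.le (by omega)) p hp hI'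
  exact HV.congr_ideal hid hI' hJ h1

omit [LinearOrder α] in
/-- a section of the twists of a line bundle on an integral scheme -/
theorem exists_section (hD : D.Lb w J) (hJp : J.IsPrime) {i : Fin N} (hi : X i ∉ J)
    (hwi : w i = 1) :
    ∃ (a : α), D.f a ∉ J ∧ ∀ j : ℕ,
      IsSec D w J D.t (D.t * D.d a + j) (fun b => D.v b a * X i ^ j) ∧
      D.v a a * X i ^ j ∉ J := by
  obtain ⟨e, he⟩ := hD.cov i
  obtain ⟨a, ha⟩ : ∃ a, D.f a ∉ J := by
    by_contra hcon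
    push Not at hcon
    have h1 : J ⊔ Ideal.span (Set.range D.f) = J := sup_eq_left.2 (Ideal.span_le.2 (by
      rintro _ ⟨a, rfl⟩
      exact hcon a))
    rw [h1] at he
    exact hi (hJp.mem_of_pow_mem _ he)
  refine ⟨a, ha, fun j => ⟨⟨fun b => ?_, fun b c => ?_⟩, fun h => ?_⟩⟩
  · have h1 := polyGr_mul (hD.hv b a) (polyGr_pow (polyGr_X (A := k) w i) j)
    rw [hwi] at h1
    convert h1 using 1
    ring
  · obtain ⟨e, he⟩ := hD.cocy b c a
    refine ⟨e, ?_⟩
    have h1 : D.f a ^ e * ((D.f b * D.f c) ^ e * (D.v b a * X i ^ j * D.f c ^ D.t *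
        (D.f b * D.f c) ^ D.t - D.v b c * (D.v c a * X i ^ j) * D.f b ^ D.t)) =
        -(X i ^ j * D.f b ^ D.t) * ((D.f b * D.f c * D.f a) ^ e *
          (D.v b c * D.v c a - D.v b a * D.f c ^ (2 * D.t))) := by
      ring
    have h2 : D.f a ^ e * ((D.f b * D.f c) ^ e * (D.v b a * X i ^ j * D.f c ^ D.t *
        (D.f b * D.f c) ^ D.t - D.v b c * (D.v c a * X i ^ j) * D.f b ^ D.t)) ∈ J := by
      rw [h1]
      exact J.mul_mem_left _ he
    exact (hJp.mem_or_mem h2).resolve_left fun h => ha (hJp.mem_of_pow_mem _ h)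
  · rcases hJp.mem_or_mem h with h1 | h1
    · obtain ⟨e, he⟩ := hD.self a
      have h2 := (hJp.mem_or_mem he).resolve_left fun h => ha (hJp.mem_of_pow_mem _ h)
      have h3 : D.f a ^ (2 * D.t) = D.v a a - (D.v a a - D.f a ^ (2 * D.t)) := by ring
      have h4 : D.f a ^ (2 * D.t) ∈ J := by
        rw [h3]
        exact J.sub_mem h1 h2
      exact ha (hJp.mem_of_pow_mem _ h4)
    · exact hi (hJp.mem_of_pow_mem _ h1)

/-- the field `sec` -/
theorem fld_sec (hD : D.Lb w J) (hJ : (polyGr k w).Sub J) (hJp : J.IsPrime) {i : Fin N}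
    (hi : X i ∉ J) (hwi : w i = 1) (hfin : ∀ n, HF k D (cyc w J hJ) n 0) :
    ∀ᶠ y in atTop, 0 < (h0 D w J hJ y : ℤ) := by
  obtain ⟨a, ha, hs⟩ := exists_section hD hJp hi hwi
  filter_upwards [eventually_ge_atTop ((D.t : ℤ) * D.d a)] with y hy
  obtain ⟨j, hj⟩ := Int.eq_ofNat_of_zero_le (sub_nonneg.2 hy)
  obtain ⟨h1, h2⟩ := hs j
  have hyj : (D.t : ℤ) * D.d a + j = y := by omega
  rw [hyj] at h1
  have hok := hD.okc hJ
  let : ∀ s, Module k (hok.G D y s) := fun s => modDeg (cyc_glin hJ) (hok.opJ s) y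
  have hF := H0_finite hok (cyc_glin hJ) y (hfin y)
  rw [h0_eq, finrank_secs hok (cyc_glin hJ) y]
  -- the section
  have hdeg : ∀ b, LDeg (cyc w J hJ) (D.fJ {b}) (D.dJ {b}) y
      (fr _ (Submodule.Quotient.mk (D.v b a * X i ^ j)) D.t) := by
    intro b
    refine ⟨D.t, _, ?_, rfl⟩
    have h3 : (cyc w J hJ).Hom (D.t * D.d b + y) (Submodule.Quotient.mk (D.v b a * X i ^ j)) :=
      (polyGr k w).quot_hom J hJ (h1.hom b)
    rw [dJ_singleton]
    rw [add_comm] at h3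
    exact h3
  let s : H0 k (lin_rho hok (cyc_glin hJ) y) :=
    ⟨fun b => ⟨fr _ (Submodule.Quotient.mk (D.v b a * X i ^ j)) D.t, hdeg b⟩, fun b c hbc =>
      Subtype.ext (h1.cpt hD b c hbc (by intro x; simp; tauto) (by intro x; simp; tauto))⟩
  have hs0 : s ≠ 0 := by
    intro h
    have h3 : (fr (D.fJ {a}) (Submodule.Quotient.mk (D.v a a * X i ^ j) :
        MvPolynomial (Fin N) k ⧸ J) D.t) = 0 :=
      congrArg (fun z : H0 k (lin_rho hok (cyc_glin hJ) y) => (z.1 a).1) h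
    rw [fr_eq_zero] at h3
    obtain ⟨l, hl⟩ := h3
    rw [← Submodule.Quotient.mk_smul, Submodule.Quotient.mk_eq_zero, smul_eq_mul,
      fJ_singleton] at hl
    rcases hJp.mem_or_mem hl with h4 | h4
    · exact ha (hJp.mem_of_pow_mem _ h4)
    · exact h2 h4
  have : Nontrivial (H0 k (lin_rho hok (cyc_glin hJ) y)) := ⟨⟨s, 0, hs0⟩⟩
  unfold h0F
  exact_mod_cast Module.finrank_pos (R := k) (M := H0 k (lin_rho hok (cyc_glin hJ) y))

end Kl

end Pool.Agent.Lib.MP_0b721b_ag
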