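import Pool.Agent.Lib.MP_0b721b_ag.Kl.Fd
import Pool.Agent.Lib.MP_0b721b_ag.Kl.Ffin

/-!
The structure `Geo` of the line bundles on a cover of `V(I)`.
-/

namespace Pool.Agent.Lib.MP_0b721b_ag

namespace Kl

open MvPolynomial Filter

universe u

variable {k : Type u} [Field k] {N : ℕ} {α : Type} [LinearOrder α] [Fintype α]
  {I : Ideal (MvPolynomial (Fin N) k)} {M : Dat (MvPolynomial (Fin N) k) α}

/-- the geometric input of Kleiman's theorem -/
noncomputable def geo (hM : M.Lb (fun _ => 1) I) : Geo (fun _ => 1) I (twSub hM) where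
  h J A y := (h0 (DT M.f M.d A.1) (fun _ => 1) J.1 J.2.1 y : ℤ)
  hv J A y := ∀ p, 1 ≤ p → HV (DT M.f M.d A.1) (cyc (fun _ => 1) J.1 J.2.1) y p
  am J A y := (DT M.f M.d A.1).Amp (fun _ => 1) J.1 y
  h_nonneg J A y := Int.natCast_nonneg _
  zero J hJ A y := by
    obtain ⟨h1, h2⟩ := fld_zero (A.2.mono J.2.2) J.2.1 hJ y
    refine ⟨?_, h2⟩
    rw [h1]
    rfl
  seq J a δ ha := by
    have key := fun A : twSub hM => fld_seq (A.2.mono J.2.2) J.2.1 ha
      (fun J' hJ' hD' n => fld_fin (fun _ => one_pos) _ J' hJ' hD' n)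
    exact ⟨fun A y => (key A).1 y, fun A y => (key A).2.1 y, fun A y => (key A).2.2.1 y,
      fun A y => (key A).2.2.2 y⟩
  serre J A := fld_serre (fun _ => one_pos) (A.2.mono J.2.2) J.2.1
  sec P hP A := by
    obtain ⟨i, hi⟩ := hP.2
    exact fld_sec (A.2.mono P.2.2) P.2.1 hP.1 hi rfl
      (fun n => fld_fin (fun _ => one_pos) _ P.1 P.2.1 (A.2.mono P.2.2) n)
  div P hP B n h := fld_div hM
    (fun J hJ A hA n => fld_fin (fun _ => one_pos) _ J hJ hA n) P hP B n h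
  six P hP A b h hE := fld_six hM P hP A b h hE
  seven J₀ A b H H' := fld_seven hM J₀ A b H H'
  five J := by
    obtain ⟨m₀, hm⟩ := fld_five (fun _ => one_pos) J.2.1
    exact ⟨m₀, fun A b hA y hy p hp => hm α _ (A.2.mono J.2.2) b hA y hy p hp⟩

/-- Kleiman's theorem -/
theorem kleiman_geo (hI : (polyGr k (fun _ : Fin N => (1 : ℤ))).Sub I)
    (hM : M.Lb (fun _ => 1) I) (hnef : Nef M (fun _ => 1) I) :
    ∀ a, 1 ≤ a → (M.pw a).Amp (fun _ => 1) I 1 :=
  kleiman_of hI hM (geo hM) (fun _ _ _ => rfl) (fun _ _ _ h => h) hnef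

end Kl

end Pool.Agent.Lib.MP_0b721b_ag
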