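import Pool.Agent.Lib.MP_0b721b_ag.P2a0
import Pool.Agent.Lib.MP_0b721b_ag.P3a

/-!
Finiteness of the spaces of global sections of the twisted sheaves.
-/

namespace Pool.Agent.Lib.MP_0b721b_ag

open MvPolynomial

universe u

section prep

variable {α : Type} [LinearOrder α] {B : Type u} [CommRing B]

omit [LinearOrder α] in
/-- homogeneous polynomials act on the free modules as operators of their degree -/
private theorem hf0_free_gmod (d : α → ℤ) {r : ℕ} (e : Fin r → ℤ) :
    GMod (A := B) d (freeGr B d e) := by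
  intro c f hf n v
  funext j
  change (polyGr B d).pr (n + c - e j) (f • v j) = f • (polyGr B d).pr (n - e j) (v j)
  rw [← polyGr_op hf (n - e j) (v j)]
  congr 2
  ring

omit [LinearOrder α] in
private theorem hf0_free_ok (B : Type u) [CommRing B] (d : α → ℤ) {r : ℕ} (e : Fin r → ℤ) :
    (datO B d).Ok (freeGr B d e) where
  opf a := hf0_free_gmod d e _ _ (polyGr_X d a)
  opv a b := by
    change (freeGr B d e).Op (1 : MvPolynomial α B) (((0 : ℕ) : ℤ) * (d a + d b))
    rw [Nat.cast_zero, zero_mul]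
    exact Gr.Op.one _
  self a m := ⟨0, by simp [datO]⟩
  cocy a b c m := ⟨0, by simp [datO]⟩

omit [LinearOrder α] in
/-- the two actions of the constants on the fractions -/
private theorem hf0_C_smul {r : ℕ} {s : MvPolynomial α B} (b : B)
    (z : Loc s (Fin r → MvPolynomial α B)) : (C b : MvPolynomial α B) • z = b • z := by
  obtain ⟨m, k, rfl⟩ := fr_surj z
  rw [smul_fr, smul_fr]
  congr 1
  funext j
  rw [Pi.smul_apply, Pi.smul_apply, smul_eq_mul, MvPolynomial.smul_eq_C_mul]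

/-- an operator of degree `c` acts on the fractions as an operator of degree `c` -/
private theorem hf0_locGr_op {S : Type*} [CommRing S] {M : Type*} [AddCommGroup M] [Module S M]
    {g : Gr M} {s t : S} {c e : ℤ} (hs : g.Op s c) (ht : g.Op t e) : (locGr g hs).Op t e := by
  intro n z
  obtain ⟨m, k, rfl⟩ := fr_surj z
  rw [smul_fr, locGr_pr, locGr_pr, smul_fr, ← ht]
  congr 2
  ring_nf

end prep

section sh

variable {α : Type} [LinearOrder α] [Fintype α] {B : Type u} [CommRing B] [IsNoetherianRing B]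
  {d : α → ℤ}
  {G : Finset α → Type u} [∀ J, AddCommGroup (G J)] [∀ J, Module (MvPolynomial α B) (G J)]
  {g : ∀ J, Gr (G J)} {ρ : ∀ J J' : Finset α, J.Nonempty → J ⊆ J' → G J →+ G J'}

omit [IsNoetherianRing B] in
private theorem hf0_free_fin (hd : ∀ a, 0 < d a) {r : ℕ} (e : Fin r → ℤ) (n : ℤ) :
    FinD B (fun J => locGr (freeGr B d e) ((hf0_free_ok B d e).opJ J))
      ((datO B d).tw (Fin r → MvPolynomial α B)) n 0 := by
  obtain ⟨q, Z, hZ, hZ', H⟩ := hf_free0 (B := B) hd e n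
  refine ⟨q, Z, fun i J => (locGr_hom_iff _).2 (hZ i J), hZ', fun z hz hz' => ?_⟩
  obtain ⟨b, w, hw, hw'⟩ := H z (fun J => (locGr_hom_iff _).1 (hz J)) hz'
  refine ⟨b, w, fun J => (locGr_hom_iff _).2 (hw J), fun J hJ => ?_⟩
  rw [hw' J hJ]
  congr 1
  exact Finset.sum_congr rfl fun i _ => (hf0_C_smul _ _).symm

/-- finiteness of the global sections -/
theorem Sh.hfin0 (hd : ∀ a, 0 < d a) (h : Sh (B := B) d g ρ) (n : ℤ) : FinD B g ρ n 0 := by
  obtain ⟨r, e, ψ, K, _, _, gK, ρK, φ, hK, hS, gφ, gψ, lφ, lψ⟩ := h.pres hd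
  exact p2d_fin hS ((hf0_free_ok B d e).fct _)
    (fun J n z hz => (locGr_hom_iff _).2 (gφ J n z hz))
    (fun J n z hz => gψ J n z ((locGr_hom_iff _).1 hz))
    (fun J J' h0 hs n z => (hf0_free_ok B d e).pr_tw n J J' h0 hs z)
    (fun J b => hK.gmod J 0 _ (polyGr_C d b))
    (fun J b => hf0_locGr_op _ (hf0_free_gmod d e 0 _ (polyGr_C d b)))
    hK.lin (fun J J' h0 hs t z => p3a_tw_smul _ J J' h0 hs t z) lφ lψ
    (hf0_free_fin hd e n) (hK.hfin hd n (p := 0 + 1) le_rfl)

end sh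

variable {A : Type u} [CommRing A] {N : ℕ} {w : Fin N → ℤ}
  {α : Type} [LinearOrder α] [Fintype α]
  {D : Dat (MvPolynomial (Fin N) A) α} {I : Ideal (MvPolynomial (Fin N) A)}
  {M : Type u} [AddCommGroup M] [Module (MvPolynomial (Fin N) A) M]

variable [IsNoetherianRing A]

/-- finiteness of the global sections of the twisted sheaves -/
theorem hf_tw0 (hw : ∀ i, 0 < w i) (hI : (polyGr A w).Sub I) (hD : D.Lb w I)
    {g : Gr M} (hg : GMod (A := A) w g) [Module A M] [IsScalarTower A (MvPolynomial (Fin N) A) M]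
    [SMulCommClass A (MvPolynomial (Fin N) A) M]
    [Module.Finite (MvPolynomial (Fin N) A) M] (hM : ∀ a ∈ I, ∀ m : M, a • m = 0) (n : ℤ) :
    HF A D g n 0 := by
  letI : Module (MvPolynomial α A) M :=
    Module.compHom M (aeval D.f : MvPolynomial α A →ₐ[A] MvPolynomial (Fin N) A).toRingHom
  have hT : ∀ (t : MvPolynomial α A) (m : M),
      t • m = (aeval D.f t : MvPolynomial (Fin N) A) • m := fun t m => rfl
  haveI : SMulCommClass (MvPolynomial α A) (MvPolynomial (Fin N) A) M :=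
    ⟨fun t s m => by rw [hT, hT, smul_comm]⟩
  have hok : D.Ok g := hD.ok hg hM
  have hC : ∀ (J : Finset α) (b : A) (z : Loc (D.fJ J) M),
      (C b : MvPolynomial α A) • z = b • z := by
    intro J b z
    obtain ⟨m, k, rfl⟩ := fr_surj z
    rw [smul_fr, smul_fr, hT, aeval_C, algebraMap_smul]
  obtain ⟨r, Z, hZ, hZ', H⟩ := (p3a_sh hw hI hD hg hok hM hT).hfin0 hD.pos n
  refine ⟨r, Z, fun i J => (locGr_hom_iff _).1 (hZ i J), hZ', fun z hz hz' => ?_⟩
  obtain ⟨b, v, hv, hv'⟩ := H z (fun J => (locGr_hom_iff _).2 (hz J)) hz'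
  refine ⟨b, v, fun J => (locGr_hom_iff _).1 (hv J), fun J hJ => ?_⟩
  rw [hv' J hJ]
  congr 1
  exact Finset.sum_congr rfl fun i _ => hC J (b i) (Z i J)

end Pool.Agent.Lib.MP_0b721b_ag
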