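import Pool.Agent.Lib.MP_0b721b_ag.Kl.F6

/-!
Lifting sections from closed subschemes, when the kernel has no first cohomology.
-/

namespace Pool.Agent.Lib.MP_0b721b_ag

open MvPolynomial Finset Filter

/-- lifting compatible families through the second map of a short exact sequence -/
theorem SES.lift_cpt {α : Type*} [LinearOrder α]
    {G₁ : Finset α → Type*} [∀ J, AddCommGroup (G₁ J)]
    {G₂ : Finset α → Type*} [∀ J, AddCommGroup (G₂ J)]
    {G₃ : Finset α → Type*} [∀ J, AddCommGroup (G₃ J)]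
    {ρ₁ : ∀ J J' : Finset α, J.Nonempty → J ⊆ J' → G₁ J →+ G₁ J'}
    {ρ₂ : ∀ J J' : Finset α, J.Nonempty → J ⊆ J' → G₂ J →+ G₂ J'}
    {ρ₃ : ∀ J J' : Finset α, J.Nonempty → J ⊆ J' → G₃ J →+ G₃ J'}
    {φ : ∀ J, G₁ J →+ G₂ J} {ψ : ∀ J, G₂ J →+ G₃ J}
    (h : SES (ρ₁ := ρ₁) (ρ₂ := ρ₂) (ρ₃ := ρ₃) φ ψ) (hρ₂ : Fct ρ₂) (hv : Van ρ₁ 1)
    (s : ∀ a : α, G₃ {a}) (hs : ∀ a b : α, a < b →
      ρ₃ {b} {a, b} (singleton_nonempty b) (by intro x; simp; tauto) (s b) =
        ρ₃ {a} {a, b} (singleton_nonempty a) (by intro x; simp; tauto) (s a)) :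
    ∃ s' : ∀ a : α, G₂ {a}, (∀ a b : α, a < b →
      ρ₂ {b} {a, b} (singleton_nonempty b) (by intro x; simp; tauto) (s' b) =
        ρ₂ {a} {a, b} (singleton_nonempty a) (by intro x; simp; tauto) (s' a)) ∧
      ∀ a, ψ {a} (s' a) = s a := by
  obtain ⟨y, hy⟩ := h.lift (ext0 s)
  have hz3 : ∀ J : Finset α, J.card = 0 + 2 → dC ρ₃ (ext0 s) J = 0 := by
    rw [cocycle_iff]
    intro a b hab
    rw [ext0_singleton, ext0_singleton]
    exact hs a b hab
  obtain ⟨x, hx⟩ := h.pull (k := 1) (dC ρ₂ y) (fun J hJ => by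
    rw [← dC_map h.natψ]
    have : dC ρ₃ (fun J => ψ J (y J)) J = dC ρ₃ (ext0 s) J :=
      dC_congr fun K hK => hy K (nonempty_of_card (k := 0) (by omega))
    rw [this, hz3 J hJ])
  obtain ⟨v, hv⟩ := hv x (fun J hJ => by
    apply h.inj J (nonempty_of_card (k := 2) hJ)
    rw [map_zero, ← dC_map h.natφ]
    have : dC ρ₂ (fun J => φ J (x J)) J = dC ρ₂ (dC ρ₂ y) J :=
      dC_congr fun K hK => hx K (by omega)
    rw [this, dC_dC hρ₂])
  have hw : ∀ J : Finset α, J.card = 0 + 2 → dC ρ₂ (y - fun J => φ J (v J)) J = 0 := by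
    intro J hJ
    rw [dC_sub, dC_map h.natφ, hv J (by omega), hx J (by omega), sub_self]
  rw [cocycle_iff] at hw
  refine ⟨fun a => (y - fun J => φ J (v J)) {a}, hw, fun a => ?_⟩
  change ψ {a} ((y - fun J => (φ J) (v J)) {a}) = s a
  rw [Pi.sub_apply, map_sub, hy {a} (singleton_nonempty a), ext0_singleton,
    (h.exact {a} (singleton_nonempty a) _).2 ⟨v {a}, rfl⟩, sub_zero]

section

variable {A : Type*} [CommRing A] {σ : Type*} {w : σ → ℤ} {α : Type*} [LinearOrder α]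
  {D : Dat (MvPolynomial σ A) α} {J J' : Ideal (MvPolynomial σ A)}

/-- the exact sequence of `J : q`, `J`, `J + q`, with the explicit second map -/
theorem gses_q (hJ : (polyGr A w).Sub J) {q : MvPolynomial σ A} {δ : ℤ}
    (hq : (polyGr A w).Hom δ q) :
    GSES (cyc w (qi J q) (qi_sub hJ hq)) (cyc w J hJ)
      (cyc w (J ⊔ Ideal.span {q}) (sup_span_sub hJ hq)) δ
      (Submodule.mapQ (qi J q) J (LinearMap.lsmul _ _ q) (fun _ hf => hf))
      (quq le_sup_left) where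
  inj := by
    rw [injective_iff_map_eq_zero]
    intro z hz
    obtain ⟨f, rfl⟩ := Submodule.Quotient.mk_surjective (qi J q) z
    rw [Submodule.mapQ_apply, Submodule.Quotient.mk_eq_zero] at hz
    rw [Submodule.Quotient.mk_eq_zero]
    exact hz
  exact := by
    intro z
    obtain ⟨f, rfl⟩ := Submodule.Quotient.mk_surjective J z
    rw [quq_mk, Submodule.Quotient.mk_eq_zero]
    constructor
    · intro h
      obtain ⟨x, hx, y, hy, hxy⟩ := Submodule.mem_sup.1 h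
      obtain ⟨c, rfl⟩ := Ideal.mem_span_singleton'.1 hy
      refine ⟨Submodule.Quotient.mk c, ?_⟩
      rw [Submodule.mapQ_apply]
      apply (Submodule.Quotient.eq J).2
      rw [← hxy]
      change q * c - (x + c * q) ∈ J
      have : q * c - (x + c * q) = -x := by ring
      rw [this]
      exact neg_mem hx
    · rintro ⟨y, hy⟩
      obtain ⟨c, rfl⟩ := Submodule.Quotient.mk_surjective (qi J q) y
      rw [Submodule.mapQ_apply] at hy
      have h := (Submodule.Quotient.eq J).1 hy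
      have e : f = -(q * c - f) + c * q := by ring
      rw [e]
      exact Submodule.add_mem_sup (neg_mem h) (Ideal.mem_span_singleton'.2 ⟨c, rfl⟩)
  surj := quq_surj _
  degφ := by
    intro n m
    obtain ⟨f, rfl⟩ := Submodule.Quotient.mk_surjective (qi J q) m
    have h := polyGr_op hq n f
    exact (congrArg (Submodule.Quotient.mk (p := J)) h).symm
  degψ := by
    intro n m
    obtain ⟨f, rfl⟩ := Submodule.Quotient.mk_surjective J m
    rfl

/-- a section over `V(J + q)` lifts to `V(J)` if `H¹` of `P / (J : q) (- δ)` vanishes -/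
theorem lift_sec [Finite α] (hJ : (polyGr A w).Sub J) {q : MvPolynomial σ A} {δ : ℤ}
    (hq : (polyGr A w).Hom δ q) (hD : D.Lb w J) {u : ℤ}
    (hv : HV D (cyc w (qi J q) (qi_sub hJ hq)) (u - δ) 1) {T' : ℕ} {ε' : α → MvPolynomial σ A}
    (h : IsSec D w (J ⊔ Ideal.span {q}) T' u ε') : ∃ (T : ℕ) (ε : α → MvPolynomial σ A),
      IsSec D w J T u ε ∧
      ∀ a, EqF (J ⊔ Ideal.span {q}) (D.f a) (D.f a ^ T' * ε a) (D.f a ^ T * ε' a) := by
  have h₁ : D.Ok (cyc w (qi J q) (qi_sub hJ hq)) := (hD.mono (le_qi J q)).okc _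
  have h₂ : D.Ok (cyc w J hJ) := hD.okc hJ
  have hD₃ : D.Lb w (J ⊔ Ideal.span {q}) := hD.mono le_sup_left
  have h₃ : D.Ok (cyc w (J ⊔ Ideal.span {q}) (sup_span_sub hJ hq)) := hD₃.okc _
  obtain ⟨Φ, Ψ, hS, -, hΨ⟩ := (gses_q hJ hq).ses h₁ h₂ h₃ u
  have hdeg : ∀ a, LDeg (cyc w (J ⊔ Ideal.span {q}) (sup_span_sub hJ hq)) (D.fJ {a}) (D.dJ {a}) u
      (fr (D.fJ {a}) (Submodule.Quotient.mk (ε' a)) T') := by
    intro a
    refine ⟨T', _, Gr.quot_hom _ _ _ ?_, rfl⟩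
    have := h.hom a
    rw [dJ_singleton]
    convert this using 1
    ring
  obtain ⟨s, hs, hs'⟩ := hS.lift_cpt (h₂.fctn D u) ((h₁.hv_iff (u - δ) 1).1 hv)
    (fun a => ⟨_, hdeg a⟩) (fun a b hab => Subtype.ext (h.cpt hD₃ a b hab
      (by intro x; simp; tauto) (by intro x; simp; tauto)))
  obtain ⟨T, ε, -, hsec, hfr⟩ := exists_isSec hJ hD (fun a => (s a).1) (fun a => (s a).2)
    (fun a b hab h1 h2 => congrArg Subtype.val (hs a b hab)) 0
  refine ⟨T, ε, hsec, fun a => ?_⟩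
  have h4 := congrArg Subtype.val (hs' a)
  rw [hΨ] at h4
  have h5 : (s a).1 = fr (D.fJ {a}) (Submodule.Quotient.mk (ε a)) T := hfr a
  rw [h5] at h4
  have h6 : (fr (D.fJ {a}) (Submodule.Quotient.mk (ε a) :
      MvPolynomial σ A ⧸ (J ⊔ Ideal.span {q})) T) =
      fr (D.fJ {a}) (Submodule.Quotient.mk (ε' a)) T' := h4
  rw [fr_eq_iff_EqF, fJ_singleton] at h6
  exact h6

omit [LinearOrder α] in
theorem lift_trans {J'' : Ideal (MvPolynomial σ A)} (hJJ : J' ≤ J'') {T T' T'' : ℕ}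
    {ε ε' ε'' : α → MvPolynomial σ A}
    (h1 : ∀ a, EqF J' (D.f a) (D.f a ^ T' * ε a) (D.f a ^ T * ε' a))
    (h2 : ∀ a, EqF J'' (D.f a) (D.f a ^ T'' * ε' a) (D.f a ^ T' * ε'' a)) (a : α) :
    EqF J'' (D.f a) (D.f a ^ T'' * ε a) (D.f a ^ T * ε'' a) := by
  have h3 := ((h1 a).le hJJ).mul (D.f a ^ T'')
  have h4 := (h2 a).mul (D.f a ^ T)
  refine EqF.cancel (c := D.f a ^ T') (t := T') dvd_rfl ?_
  refine (EqF.of_eq ?_).trans (h3.trans ((EqF.of_eq ?_).trans (h4.trans (EqF.of_eq ?_))))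
  · ring
  · ring
  · ring

end

section

variable {k : Type*} [Field k] {N : ℕ} {α : Type*} [LinearOrder α] [Finite α]
  {f : α → MvPolynomial (Fin N) k} {d : α → ℤ} {J₀ : Ideal (MvPolynomial (Fin N) k)}
  {w : Fin N → ℤ}

/-- for large `n` the sections of `A ^ n (b n + c)` over `V(J')` lift to `V(J)` -/
def LiftE (f : α → MvPolynomial (Fin N) k) (d : α → ℤ) (w : Fin N → ℤ)
    (A : Twt (MvPolynomial (Fin N) k) α) (b c : ℤ) (J J' : Ideal (MvPolynomial (Fin N) k)) : Prop :=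
  ∀ᶠ n : ℕ in atTop, ∀ (T' : ℕ) (ε' : α → MvPolynomial (Fin N) k),
    IsSec (DT f d (A ^ n)) w J' T' (b * n + c) ε' →
    ∃ (T : ℕ) (ε : α → MvPolynomial (Fin N) k), IsSec (DT f d (A ^ n)) w J T (b * n + c) ε ∧
      ∀ a, EqF J' (f a) (f a ^ T' * ε a) (f a ^ T * ε' a)

/-- sections lift to every larger closed subscheme for large `n` -/
theorem liftE_fin {A : Twt (MvPolynomial (Fin N) k) α}
    (hA : (DT f d A).Lb w J₀) {b : ℤ}
    (H : ∀ (J : Ideal (MvPolynomial (Fin N) k)) (hJ : (polyGr k w).Sub J), J₀ ≤ J →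
      ∀ c : ℤ, ∀ᶠ m : ℕ in atTop, HV (DT f d (A ^ m)) (cyc w J hJ) (b * m + c) 1) (c : ℤ)
    (s : Finset (MvPolynomial (Fin N) k)) : ∀ J : Ideal (MvPolynomial (Fin N) k),
      (polyGr k w).Sub J → J₀ ≤ J → (∀ a ∈ s, ∃ δ, (polyGr k w).Hom δ a) →
      LiftE f d w A b c J (J ⊔ Ideal.span (s : Set (MvPolynomial (Fin N) k))) := by
  classical
  induction s using Finset.induction_on with
  | empty =>
    intro J hJ h0 _
    refine Eventually.of_forall fun n T' ε' h => ?_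
    have e : J ⊔ Ideal.span ((∅ : Finset (MvPolynomial (Fin N) k)) : Set _) = J := by simp
    rw [e] at h ⊢
    exact ⟨T', ε', h, fun a => EqF.refl _ _ _⟩
  | insert q s hqs ih =>
    intro J hJ h0 hs
    obtain ⟨δ, hδ⟩ := hs q (Finset.mem_insert_self _ _)
    have e : J ⊔ Ideal.span ((insert q s : Finset (MvPolynomial (Fin N) k)) : Set _) =
        (J ⊔ Ideal.span {q}) ⊔ Ideal.span (s : Set (MvPolynomial (Fin N) k)) := by
      rw [Finset.coe_insert, Ideal.span_insert, sup_assoc]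
    rw [e]
    have h1 := ih (J ⊔ Ideal.span {q}) (sup_span_sub hJ hδ) (h0.trans le_sup_left)
      (fun a ha => hs a (Finset.mem_insert_of_mem ha))
    have h2 := H (qi J q) (qi_sub hJ hδ) (h0.trans (le_qi J q)) (c - δ)
    filter_upwards [h1, h2] with n h3 h4 T'' ε'' h5
    obtain ⟨T', ε', h6, h7⟩ := h3 T'' ε'' h5
    obtain ⟨T, ε, h8, h9⟩ := lift_sec hJ hδ ((hA.powT n).mono h0) (u := b * n + c) (by
      have e2 : b * (n : ℤ) + c - δ = b * n + (c - δ) := by ring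
      rw [e2]
      exact h4) h6
    exact ⟨T, ε, h8, lift_trans (D := DT f d (A ^ n)) le_sup_left h9 h7⟩

theorem liftE {A : Twt (MvPolynomial (Fin N) k) α}
    (hA : (DT f d A).Lb w J₀) {b : ℤ}
    (H : ∀ (J : Ideal (MvPolynomial (Fin N) k)) (hJ : (polyGr k w).Sub J), J₀ ≤ J →
      ∀ c : ℤ, ∀ᶠ m : ℕ in atTop, HV (DT f d (A ^ m)) (cyc w J hJ) (b * m + c) 1) (c : ℤ)
    (hJ₀ : (polyGr k w).Sub J₀) {Q : Ideal (MvPolynomial (Fin N) k)} (hQ : (polyGr k w).Sub Q)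
    (h : J₀ ≤ Q) : LiftE f d w A b c J₀ Q := by
  obtain ⟨s, hs, hs'⟩ := Kl.exists_fin hQ
  have h1 := liftE_fin hA H c s J₀ hJ₀ le_rfl hs
  rw [hs', sup_eq_right.2 h] at h1
  exact h1

end

end Pool.Agent.Lib.MP_0b721b_ag
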