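import Mathlib

/-!
Functions of a line bundle and an integer, of bounded degree in the sense of differences, and
their intersection numbers.
-/

namespace Pool.Agent.Lib.MP_0b721b_ag

namespace Kl

variable {T : Type*} [CommMonoid T]

/-- the difference of `p` in the direction `(B, n)` -/
def dl (B : T) (n : ℤ) (p : T → ℤ → ℤ) : T → ℤ → ℤ := fun A y => p (A * B) (y + n) - p A y

/-- the translate of `p` by `(B, n)` -/
def tr (B : T) (n : ℤ) (p : T → ℤ → ℤ) : T → ℤ → ℤ := fun A y => p (A * B) (y + n)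

/-- `p` has degree less than `k` : all its `k`-fold differences vanish -/
def Dg : ℕ → (T → ℤ → ℤ) → Prop
  | 0, p => p = 0
  | k + 1, p => ∀ (B : T) (n : ℤ), Dg k (dl B n p)

theorem dl_add (B : T) (n : ℤ) (p q : T → ℤ → ℤ) : dl B n (p + q) = dl B n p + dl B n q := by
  funext A y
  simp only [dl, Pi.add_apply]
  ring

theorem dl_sub (B : T) (n : ℤ) (p q : T → ℤ → ℤ) : dl B n (p - q) = dl B n p - dl B n q := by
  funext A y
  simp only [dl, Pi.sub_apply]
  ring

theorem dl_neg (B : T) (n : ℤ) (p : T → ℤ → ℤ) : dl B n (-p) = -dl B n p := by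
  funext A y
  simp only [dl, Pi.neg_apply]
  ring

theorem dl_zero (B : T) (n : ℤ) : dl B n (0 : T → ℤ → ℤ) = 0 := by
  funext A y
  simp [dl]

theorem tr_add (B : T) (n : ℤ) (p q : T → ℤ → ℤ) : tr B n (p + q) = tr B n p + tr B n q := rfl

theorem tr_zero (B : T) (n : ℤ) : tr B n (0 : T → ℤ → ℤ) = 0 := rfl

theorem dl_dl (B C : T) (m n : ℤ) (p : T → ℤ → ℤ) :
    dl B m (dl C n p) = dl C n (dl B m p) := by
  funext A y
  simp only [dl]
  rw [mul_right_comm A B C, show y + m + n = y + n + m by ring]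
  ring

theorem dl_tr (B C : T) (m n : ℤ) (p : T → ℤ → ℤ) :
    dl B m (tr C n p) = tr C n (dl B m p) := by
  funext A y
  simp only [dl, tr]
  rw [mul_right_comm A B C, show y + m + n = y + n + m by ring]

theorem tr_eq (B : T) (n : ℤ) (p : T → ℤ → ℤ) : tr B n p = p + dl B n p := by
  funext A y
  simp only [dl, tr, Pi.add_apply]
  ring

theorem Dg.zero (k : ℕ) : Dg k (0 : T → ℤ → ℤ) := by
  induction k with
  | zero => rfl
  | succ k ih => intro B n; rw [dl_zero]; exact ih

theorem Dg.add {k : ℕ} {p q : T → ℤ → ℤ} (hp : Dg k p) (hq : Dg k q) : Dg k (p + q) := by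
  induction k generalizing p q with
  | zero =>
    change p + q = 0
    rw [show p = 0 from hp, show q = 0 from hq, add_zero]
  | succ k ih => intro B n; rw [dl_add]; exact ih (hp B n) (hq B n)

theorem Dg.neg {k : ℕ} {p : T → ℤ → ℤ} (hp : Dg k p) : Dg k (-p) := by
  induction k generalizing p with
  | zero =>
    change -p = 0
    rw [show p = 0 from hp, neg_zero]
  | succ k ih => intro B n; rw [dl_neg]; exact ih (hp B n)

theorem Dg.sub {k : ℕ} {p q : T → ℤ → ℤ} (hp : Dg k p) (hq : Dg k q) : Dg k (p - q) := by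
  rw [sub_eq_add_neg]
  exact hp.add hq.neg

theorem Dg.tr {k : ℕ} {p : T → ℤ → ℤ} (hp : Dg k p) (B : T) (n : ℤ) : Dg k (tr B n p) := by
  induction k generalizing p with
  | zero =>
    change Kl.tr B n p = 0
    rw [show p = 0 from hp, tr_zero]
  | succ k ih => intro C m; rw [dl_tr]; exact ih (hp C m)

theorem Dg.succ {k : ℕ} {p : T → ℤ → ℤ} (hp : Dg k p) : Dg (k + 1) p := by
  induction k generalizing p with
  | zero =>
    intro B n
    change dl B n p = 0
    rw [show p = 0 from hp, dl_zero]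
  | succ k ih => intro B n; exact ih (hp B n)

theorem Dg.mono {k l : ℕ} {p : T → ℤ → ℤ} (hp : Dg k p) (h : k ≤ l) : Dg l p := by
  induction l, h using Nat.le_induction with
  | base => exact hp
  | succ l _ ih => exact ih.succ

/-- the difference in the direction `(1, n)` is a sum of translates of `dl 1 1` -/
theorem dg_dl_one {k : ℕ} {p : T → ℤ → ℤ} (h : Dg k (dl (1 : T) 1 p)) (n : ℤ) :
    Dg k (dl (1 : T) n p) := by
  have hnat : ∀ n : ℕ, Dg k (dl (1 : T) (n : ℤ) p) := by
    intro n
    induction n with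
    | zero =>
      have : dl (1 : T) ((0 : ℕ) : ℤ) p = 0 := by
        funext A y
        simp [dl]
      rw [this]
      exact Dg.zero k
    | succ n ih =>
      have : dl (1 : T) ((n + 1 : ℕ) : ℤ) p = dl (1 : T) (n : ℤ) p + tr 1 (n : ℤ) (dl (1 : T) 1 p) := by
        funext A y
        simp only [dl, Kl.tr, Pi.add_apply, mul_one]
        push_cast
        rw [← add_assoc]
        ring
      rw [this]
      exact ih.add (h.tr _ _)
  rcases Int.le_total 0 n with hn | hn
  · obtain ⟨m, rfl⟩ := Int.eq_ofNat_of_zero_le hn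
    exact hnat m
  · obtain ⟨m, hm⟩ := Int.eq_ofNat_of_zero_le (neg_nonneg.2 hn)
    have : dl (1 : T) n p = -(tr 1 n (dl (1 : T) (m : ℤ) p)) := by
      funext A y
      simp only [dl, Kl.tr, Pi.neg_apply, mul_one]
      rw [show y + n + (m : ℤ) = y by omega]
      ring
    rw [this]
    exact ((hnat m).tr _ _).neg

/-- the criterion for the degree: the difference in the direction `(1, 1)`, and for every `B` the
difference in one direction `(B, n)` -/
theorem Dg.of {k : ℕ} {p : T → ℤ → ℤ} (h1 : Dg k (dl (1 : T) 1 p))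
    (h2 : ∀ B : T, ∃ n : ℤ, Dg k (dl B n p)) : Dg (k + 1) p := by
  intro B m
  obtain ⟨n, hn⟩ := h2 B
  have : dl B m p = dl B n p + Kl.tr B n (dl (1 : T) (m - n) p) := by
    funext A y
    simp only [dl, Kl.tr, Pi.add_apply, mul_one]
    rw [show y + n + (m - n) = y + m by ring]
    ring
  rw [this]
  exact hn.add ((dg_dl_one h1 _).tr _ _)

/-- a function of degree less than one is constant -/
theorem Dg.const {p : T → ℤ → ℤ} (h : Dg 1 p) (A : T) (y : ℤ) : p A y = p 1 0 := by
  have := congrFun (congrFun (show dl A y p = 0 from h A y) 1) 0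
  simp only [dl, one_mul, zero_add, Pi.zero_apply] at this
  omega

/-- the iterated difference `Δ_M ^ i Δ_y ^ j` -/
def dd (M : T) (i j : ℕ) (p : T → ℤ → ℤ) : T → ℤ → ℤ := (dl M 0)^[i] ((dl (1 : T) 1)^[j] p)

theorem iter_comm (B C : T) (m n : ℤ) (i : ℕ) (p : T → ℤ → ℤ) :
    (dl B m)^[i] (dl C n p) = dl C n ((dl B m)^[i] p) := by
  induction i generalizing p with
  | zero => rfl
  | succ i ih => rw [Function.iterate_succ_apply, Function.iterate_succ_apply, dl_dl, ih]

theorem iter_tr (B C : T) (m n : ℤ) (i : ℕ) (p : T → ℤ → ℤ) :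
    (dl B m)^[i] (tr C n p) = tr C n ((dl B m)^[i] p) := by
  induction i generalizing p with
  | zero => rfl
  | succ i ih => rw [Function.iterate_succ_apply, Function.iterate_succ_apply, dl_tr, ih]

theorem iter_add (B : T) (m : ℤ) (i : ℕ) (p q : T → ℤ → ℤ) :
    (dl B m)^[i] (p + q) = (dl B m)^[i] p + (dl B m)^[i] q := by
  induction i generalizing p q with
  | zero => rfl
  | succ i ih => rw [Function.iterate_succ_apply, Function.iterate_succ_apply,
      Function.iterate_succ_apply, dl_add, ih]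

theorem dd_add (M : T) (i j : ℕ) (p q : T → ℤ → ℤ) : dd M i j (p + q) = dd M i j p + dd M i j q := by
  unfold dd
  rw [iter_add, iter_add]

theorem dd_tr (M : T) (i j : ℕ) (C : T) (n : ℤ) (p : T → ℤ → ℤ) :
    dd M i j (tr C n p) = tr C n (dd M i j p) := by
  unfold dd
  rw [iter_tr, iter_tr]

/-- one more difference in the direction of `M` -/
theorem dd_dlM (M : T) (i j : ℕ) (p : T → ℤ → ℤ) : dd M i j (dl M 0 p) = dd M (i + 1) j p := by
  unfold dd
  rw [iter_comm, Function.iterate_succ_apply]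

/-- one more difference in the direction of `y` -/
theorem dd_dly (M : T) (i j : ℕ) (p : T → ℤ → ℤ) : dd M i j (dl 1 1 p) = dd M i (j + 1) p := by
  unfold dd
  rw [Function.iterate_succ_apply]

theorem dd_dl (M : T) (i j : ℕ) (C : T) (n : ℤ) (p : T → ℤ → ℤ) :
    dd M i j (dl C n p) = dl C n (dd M i j p) := by
  unfold dd
  rw [iter_comm, iter_comm]

theorem Dg.iter {k l : ℕ} {p : T → ℤ → ℤ} (B : T) (m : ℤ) (h : Dg (k + l) p) :
    Dg k ((dl B m)^[l] p) := by
  induction l generalizing p with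
  | zero => exact h
  | succ l ih =>
    rw [Function.iterate_succ_apply]
    exact ih (h B m)

theorem Dg.dd {k i j : ℕ} {p : T → ℤ → ℤ} (M : T) (h : Dg (k + i + j) p) :
    Dg k (dd M i j p) := (h.iter 1 1).iter M 0

/-- the intersection number `M ^ i H ^ j` of a function of degree at most `i + j` -/
def en (M : T) (i j : ℕ) (p : T → ℤ → ℤ) : ℤ := dd M i j p 1 0

theorem en_add (M : T) (i j : ℕ) (p q : T → ℤ → ℤ) : en M i j (p + q) = en M i j p + en M i j q := by
  unfold en
  rw [dd_add]
  rfl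

theorem dd_eq {M : T} {i j : ℕ} {p : T → ℤ → ℤ} (h : Dg (i + j + 1) p) (A : T) (y : ℤ) :
    dd M i j p A y = en M i j p :=
  (Dg.dd (k := 1) M (by rwa [show 1 + i + j = i + j + 1 by ring])).const A y

/-- if the degree is smaller the number is zero -/
theorem en_eq_zero {M : T} {i j : ℕ} {p : T → ℤ → ℤ} (h : Dg (i + j) p) : en M i j p = 0 := by
  have h0 : Dg 0 (dd M i j p) := Dg.dd (k := 0) M (by rwa [zero_add])
  unfold en
  rw [show dd M i j p = 0 from h0]
  rfl

theorem en_tr {M : T} {i j : ℕ} {p : T → ℤ → ℤ} (h : Dg (i + j + 1) p) (C : T) (n : ℤ) :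
    en M i j (tr C n p) = en M i j p := by
  unfold en
  rw [dd_tr]
  exact dd_eq h _ _

theorem en_dlM (M : T) (i j : ℕ) (p : T → ℤ → ℤ) : en M i j (dl M 0 p) = en M (i + 1) j p := by
  unfold en
  rw [dd_dlM]

theorem en_dly (M : T) (i j : ℕ) (p : T → ℤ → ℤ) : en M i j (dl 1 1 p) = en M i (j + 1) p := by
  unfold en
  rw [dd_dly]

theorem en_zero (M : T) (i j : ℕ) : en M i j (0 : T → ℤ → ℤ) = 0 := en_eq_zero (Dg.zero _)

/-- the numbers of the difference in the direction `(M ^ a, b)` -/
theorem en_dl {M : T} {i j : ℕ} {p : T → ℤ → ℤ} (h : Dg (i + j + 2) p) (a b : ℕ) :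
    en M i j (dl (M ^ a) b p) = a * en M (i + 1) j p + b * en M i (j + 1) p := by
  induction a with
  | zero =>
    induction b with
    | zero =>
      have : dl (M ^ 0) ((0 : ℕ) : ℤ) p = 0 := by
        funext A y
        simp [dl]
      rw [this, en_zero]
      simp
    | succ b ih =>
      have : dl (M ^ 0) ((b + 1 : ℕ) : ℤ) p =
          dl (M ^ 0) (b : ℤ) p + tr 1 (b : ℤ) (dl (1 : T) 1 p) := by
        funext A y
        simp only [dl, tr, Pi.add_apply, mul_one, pow_zero]
        push_cast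
        rw [← add_assoc]
        ring
      rw [this, en_add, ih, en_tr (h 1 1), en_dly]
      push_cast
      ring
  | succ a ih =>
    have : dl (M ^ (a + 1)) (b : ℤ) p = dl (M ^ a) (b : ℤ) p + tr (M ^ a) (b : ℤ) (dl M 0 p) := by
      funext A y
      simp only [dl, tr, Pi.add_apply, pow_succ, add_zero]
      rw [mul_assoc]
      ring_nf
    rw [this, en_add, ih, en_tr (h M 0), en_dlM]
    push_cast
    ring

end Kl

end Pool.Agent.Lib.MP_0b721b_ag
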