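import Pool.Agent.Lib.MP_0b721b_ag.Kl.Num

/-!
The numerical part of Kleiman's theorem: growth along `(M ^ (a n), b n - 1)`, and the lemma which
gives that the last intersection number is not negative.
-/

namespace Pool.Agent.Lib.MP_0b721b_ag

namespace Kl

open Filter

/-- the forward difference of a sequence -/
def df (f : ℕ → ℤ) : ℕ → ℤ := fun n => f (n + 1) - f n

/-- a sequence whose `d`-th difference is positive from some point on is positive from some point
on -/
theorem eventually_pos_of_df {d : ℕ} {f : ℕ → ℤ} (h : ∀ᶠ n in atTop, 0 < (df^[d] f) n) :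
    ∀ᶠ n in atTop, 0 < f n := by
  induction d generalizing f with
  | zero => exact h
  | succ d ih =>
    rw [Function.iterate_succ_apply] at h
    obtain ⟨n0, hn0⟩ := eventually_atTop.1 (ih h)
    have hlow : ∀ k : ℕ, f n0 + k ≤ f (n0 + k) := by
      intro k
      induction k with
      | zero => simp
      | succ k ihk =>
        have := hn0 (n0 + k) (Nat.le_add_right _ _)
        unfold df at this
        push_cast
        rw [← Nat.add_assoc]
        omega
    refine eventually_atTop.2 ⟨n0 + ((f n0).natAbs + 1), fun n hn => ?_⟩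
    obtain ⟨k, rfl⟩ := Nat.exists_eq_add_of_le hn
    have h1 := hlow ((f n0).natAbs + 1 + k)
    rw [← Nat.add_assoc] at h1
    have h2 : -(((f n0).natAbs : ℕ) : ℤ) ≤ f n0 := by omega
    rw [Nat.cast_add, Nat.cast_add, Nat.cast_one] at h1
    have h3 : (0 : ℤ) ≤ (k : ℤ) := Int.natCast_nonneg k
    linarith

/-- the volume `∑ C(d, i) a ^ i b ^ (d - i) e i` -/
def vol (d : ℕ) (e : ℕ → ℤ) (a b : ℤ) : ℤ :=
  ∑ i ∈ Finset.range (d + 1), (d.choose i : ℤ) * a ^ i * b ^ (d - i) * e i

theorem vol_zero (e : ℕ → ℤ) (a b : ℤ) : vol 0 e a b = e 0 := by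
  simp [vol]

theorem vol_succ (d : ℕ) (e : ℕ → ℤ) (a b : ℤ) :
    vol (d + 1) e a b = vol d (fun i => a * e (i + 1) + b * e i) a b := by
  unfold vol
  rw [Finset.sum_range_succ' _ (d + 1)]
  have h1 : ∑ i ∈ Finset.range (d + 1), (((d + 1).choose (i + 1) : ℕ) : ℤ) * a ^ (i + 1) *
      b ^ (d + 1 - (i + 1)) * e (i + 1) =
      ∑ i ∈ Finset.range (d + 1), (d.choose i : ℤ) * a ^ i * b ^ (d - i) * (a * e (i + 1)) +
      ∑ i ∈ Finset.range (d + 1), (d.choose (i + 1) : ℤ) * a ^ (i + 1) * b ^ (d - i) *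
        e (i + 1) := by
    rw [← Finset.sum_add_distrib]
    refine Finset.sum_congr rfl fun i _ => ?_
    rw [Nat.choose_succ_succ, Nat.add_sub_add_right]
    push_cast
    ring
  have h2 : ∑ i ∈ Finset.range (d + 1), (d.choose (i + 1) : ℤ) * a ^ (i + 1) * b ^ (d - i) *
        e (i + 1) + ((d.choose 0 : ℕ) : ℤ) * a ^ 0 * b ^ (d + 1) * e 0 =
      ∑ i ∈ Finset.range (d + 1), (d.choose i : ℤ) * a ^ i * b ^ (d - i) * (b * e i) := by
    rw [Finset.sum_range_succ _ d, Nat.choose_succ_self, Nat.cast_zero, zero_mul, zero_mul,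
      zero_mul, add_zero, Finset.sum_range_succ' _ d]
    congr 1
    · refine Finset.sum_congr rfl fun i hi => ?_
      have : d - i = d - (i + 1) + 1 := by
        have := Finset.mem_range.1 hi
        omega
      rw [this, pow_succ]
      ring
    · rw [Nat.sub_zero, pow_succ]
      ring
  have h3 : (((d + 1).choose 0 : ℕ) : ℤ) * a ^ 0 * b ^ (d + 1 - 0) * e 0 =
      ((d.choose 0 : ℕ) : ℤ) * a ^ 0 * b ^ (d + 1) * e 0 := by
    rw [Nat.choose_zero_right, Nat.choose_zero_right, Nat.sub_zero]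
  rw [h1, h3, add_assoc, h2, ← Finset.sum_add_distrib]
  refine Finset.sum_congr rfl fun i _ => ?_
  ring

variable {T : Type*} [CommMonoid T]

theorem vol_congr {d : ℕ} {e e' : ℕ → ℤ} (h : ∀ i ≤ d, e i = e' i) (a b : ℤ) :
    vol d e a b = vol d e' a b := by
  unfold vol
  refine Finset.sum_congr rfl fun i hi => ?_
  rw [h i (Nat.lt_succ_iff.1 (Finset.mem_range.1 hi))]

/-- the `d`-fold difference in the direction `(M ^ a, b)` is the volume -/
theorem iter_eq_vol {d : ℕ} {M : T} {p : T → ℤ → ℤ} (h : Dg (d + 1) p) (a b : ℕ) (A : T) (y : ℤ) :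
    ((dl (M ^ a) b)^[d] p) A y = vol d (fun i => en M i (d - i) p) a b := by
  induction d generalizing p with
  | zero =>
    rw [vol_zero]
    exact (h.const A y).trans rfl
  | succ d ih =>
    rw [Function.iterate_succ_apply, ih (h _ _), vol_succ]
    refine vol_congr (fun i hi => ?_) _ _
    rw [en_dl (h.mono (by omega)), Nat.add_sub_add_right, Nat.succ_sub hi]

/-- the sequence `n ↦ p (M ^ (a n), b n + c)` -/
def sq (M : T) (a b : ℕ) (c : ℤ) (p : T → ℤ → ℤ) : ℕ → ℤ := fun n => p (M ^ (a * n)) (b * n + c)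

theorem df_sq (M : T) (a b : ℕ) (c : ℤ) (p : T → ℤ → ℤ) :
    df (sq M a b c p) = sq M a b c (dl (M ^ a) b p) := by
  funext n
  simp only [df, sq, dl]
  rw [Nat.mul_succ, pow_add]
  push_cast
  rw [show (b : ℤ) * ((n : ℤ) + 1) + c = b * n + c + b by ring]

theorem df_iter_sq (M : T) (a b : ℕ) (c : ℤ) (p : T → ℤ → ℤ) (d : ℕ) :
    df^[d] (sq M a b c p) = sq M a b c ((dl (M ^ a) b)^[d] p) := by
  induction d generalizing p with
  | zero => rfl
  | succ d ih => rw [Function.iterate_succ_apply, Function.iterate_succ_apply, df_sq, ih]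

/-- growth: if the volume of `(a, b)` is positive, `p (M ^ (a n), b n + c)` is positive for large
`n` -/
theorem eventually_pos {d : ℕ} {M : T} {p : T → ℤ → ℤ} (h : Dg (d + 1) p) {a b : ℕ}
    (hv : 0 < vol d (fun i => en M i (d - i) p) a b) (c : ℤ) :
    ∀ᶠ n : ℕ in atTop, 0 < p (M ^ (a * n)) (b * n + c) := by
  have : ∀ᶠ n : ℕ in atTop, 0 < (df^[d] (sq M a b c p)) n := by
    refine Eventually.of_forall fun n => ?_
    rw [df_iter_sq]
    unfold sq
    rw [iter_eq_vol h]
    exact hv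
  exact eventually_pos_of_df this

/-- the volume is positive when the numbers are not negative and the first one is positive -/
theorem vol_pos {d : ℕ} {e : ℕ → ℤ} (h0 : 0 < e 0) (h : ∀ i ≤ d, 0 ≤ e i) {a b : ℕ} (hb : 1 ≤ b) :
    0 < vol d e a b := by
  unfold vol
  have hnn : ∀ i ∈ Finset.range (d + 1), 0 ≤ (d.choose i : ℤ) * (a : ℤ) ^ i * (b : ℤ) ^ (d - i) *
      e i := fun i hi => mul_nonneg (by positivity) (h i (Nat.lt_succ_iff.1 (Finset.mem_range.1 hi)))
  refine lt_of_lt_of_le ?_ (Finset.single_le_sum hnn (Finset.mem_range.2 (Nat.succ_pos d)))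
  rw [Nat.choose_zero_right, pow_zero, Nat.sub_zero]
  have : (0 : ℤ) < (b : ℤ) ^ d := by
    have : (0 : ℤ) < b := by exact_mod_cast hb
    positivity
  push_cast
  rw [one_mul]
  exact mul_pos this h0

/-- the numerical part of Kleiman's theorem -/
theorem last_nonneg {d : ℕ} (hd : 2 ≤ d) {e : ℕ → ℤ} (h0 : 0 < e 0) (h : ∀ i < d, 0 ≤ e i)
    (H : ∀ a b : ℕ, 1 ≤ a → 1 ≤ b → 0 < vol d e a b → 0 ≤ a * e d + b * e (d - 1)) :
    0 ≤ e d := by
  by_contra hneg
  push Not at hneg
  -- the positive part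
  let g : ℝ → ℝ := fun t => ∑ i ∈ Finset.range d, (d.choose i : ℝ) * t ^ (d - i) * (e i : ℝ)
  have hgc : Continuous g := by
    refine continuous_finsetSum _ fun i _ => ?_
    exact (continuous_const.mul (continuous_pow _)).mul continuous_const
  set m : ℝ := -(e d : ℝ) with hm
  have hm1 : 1 ≤ m := by
    have : (e d : ℝ) ≤ -1 := by exact_mod_cast (by omega : e d ≤ -1)
    linarith
  have hd2 : (2 : ℝ) ≤ d := by exact_mod_cast hd
  have hg0 : g 0 = 0 := by
    refine Finset.sum_eq_zero fun i hi => ?_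
    have : d - i ≠ 0 := by
      have := Finset.mem_range.1 hi
      omega
    rw [zero_pow this, mul_zero, zero_mul]
  have hterm : ∀ t : ℝ, 0 ≤ t → ∀ i ∈ Finset.range d, 0 ≤ (d.choose i : ℝ) * t ^ (d - i) *
      (e i : ℝ) := by
    intro t ht i hi
    have : (0 : ℝ) ≤ e i := by exact_mod_cast h i (Finset.mem_range.1 hi)
    positivity
  have hgT : ∀ t : ℝ, 1 ≤ t → t ≤ g t := by
    intro t ht
    refine le_trans ?_ (Finset.single_le_sum (hterm t (by linarith))
      (Finset.mem_range.2 (by omega : 0 < d)))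
    have h1 : (1 : ℝ) ≤ e 0 := by exact_mod_cast h0
    have h2 : t ≤ t ^ d := by
      calc t = t ^ 1 := (pow_one t).symm
        _ ≤ t ^ d := pow_le_pow_right₀ ht (by omega)
    rw [Nat.choose_zero_right, Nat.sub_zero, Nat.cast_one, one_mul]
    nlinarith [pow_nonneg (by linarith : (0 : ℝ) ≤ t) d]
  -- a point where `g = 3 m / 2`
  obtain ⟨t0, ht0, hgt0⟩ : ∃ t ∈ Set.Icc (0 : ℝ) (2 * m), g t = 3 / 2 * m := by
    have := intermediate_value_Icc (by linarith : (0 : ℝ) ≤ 2 * m) hgc.continuousOn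
    refine this ⟨?_, ?_⟩
    · rw [hg0]
      linarith
    · have := hgT (2 * m) (by linarith)
      linarith
  have ht0pos : 0 < t0 := by
    rcases ht0.1.lt_or_eq with h' | h'
    · exact h'
    · rw [← h', hg0] at hgt0
      linarith
  -- a rational point nearby
  obtain ⟨r, hr⟩ : ∃ r : ℚ, (r : ℝ) ∈ {t : ℝ | m < g t ∧ g t < d * m ∧ 0 < t} := by
    have hopen : IsOpen {t : ℝ | m < g t ∧ g t < d * m ∧ 0 < t} :=
      (isOpen_lt continuous_const hgc).inter ((isOpen_lt hgc continuous_const).inter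
        (isOpen_lt continuous_const continuous_id))
    exact Rat.denseRange_cast.exists_mem_open hopen ⟨t0, by rw [hgt0]; linarith, by
      rw [hgt0]; nlinarith, ht0pos⟩
  obtain ⟨hr1, hr2, hr3⟩ := hr
  have hrpos : 0 < r := by exact_mod_cast hr3
  obtain ⟨b, hb⟩ : ∃ b : ℕ, r.num = b := Int.eq_ofNat_of_zero_le (Rat.num_pos.2 hrpos).le
  have hb1 : 1 ≤ b := by
    have := Rat.num_pos.2 hrpos
    omega
  have ha1 : 1 ≤ r.den := r.den_pos
  have hrt : (r : ℝ) = (b : ℝ) / (r.den : ℝ) := by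
    rw [Rat.cast_def, hb]
    push_cast
    rfl
  set a := r.den with ha
  have haR : (0 : ℝ) < a := by exact_mod_cast ha1
  -- the volume in terms of `g`
  have hvol : (vol d e a b : ℝ) = (a : ℝ) ^ d * (g r - m) := by
    unfold vol
    push_cast
    rw [Finset.sum_range_succ, Nat.choose_self, Nat.sub_self, pow_zero, mul_sub, Finset.mul_sum]
    have : (((1 : ℕ) : ℝ) * (a : ℝ) ^ d * 1 * (e d : ℝ)) = -((a : ℝ) ^ d * m) := by
      rw [hm]
      push_cast
      ring
    rw [this, ← sub_eq_add_neg]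
    congr 1
    refine Finset.sum_congr rfl fun i hi => ?_
    have hi' := Finset.mem_range.1 hi
    rw [hrt, div_pow]
    have : (a : ℝ) ^ d = (a : ℝ) ^ i * (a : ℝ) ^ (d - i) := by
      rw [← pow_add]
      congr 1
      omega
    rw [this]
    field_simp
  have hvpos : 0 < vol d e a b := by
    have : (0 : ℝ) < (vol d e a b : ℝ) := by
      rw [hvol]
      exact mul_pos (pow_pos haR d) (by linarith)
    exact_mod_cast this
  have hH := H a b ha1 hb1 hvpos
  have hH' : (0 : ℝ) ≤ (a : ℝ) * (e d : ℝ) + (b : ℝ) * (e (d - 1) : ℝ) := by exact_mod_cast hH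
  have hle : (d : ℝ) * ((r : ℝ) * (e (d - 1) : ℝ)) ≤ g r := by
    have h1 := Finset.single_le_sum (hterm r hr3.le) (Finset.mem_range.2 (by omega : d - 1 < d))
    have h2 : d - (d - 1) = 1 := by omega
    rw [h2, pow_one] at h1
    have h3 : d.choose (d - 1) = d := by
      rw [Nat.choose_symm_of_eq_add (by omega : d = (d - 1) + 1), Nat.choose_one_right]
    rw [h3] at h1
    calc (d : ℝ) * ((r : ℝ) * (e (d - 1) : ℝ)) = (d : ℝ) * (r : ℝ) * (e (d - 1) : ℝ) := by ring
      _ ≤ g r := h1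
  have h5 : m ≤ (r : ℝ) * (e (d - 1) : ℝ) := by
    rw [hrt]
    have : (b : ℝ) / (a : ℝ) * (e (d - 1) : ℝ) = ((b : ℝ) * (e (d - 1) : ℝ)) / a := by ring
    rw [this, le_div_iff₀ haR]
    linarith
  nlinarith

end Kl

end Pool.Agent.Lib.MP_0b721b_ag
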