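import Pool.Agent.Lib.MP_0b721b_ag.Kl.Six2
import Pool.Agent.Lib.MP_0b721b_ag.Kl.H0
import Pool.Agent.Lib.MP_0b721b_ag.Cyc

/-!
Global sections over `V(I)` by numerators, and their relation to compatible families of fractions.
-/

namespace Pool.Agent.Lib.MP_0b721b_ag

open MvPolynomial

section eqf

variable {S : Type*} [CommRing S]

/-- `x = y` modulo `I`, up to a power of `F` -/
def EqF (I : Ideal S) (F x y : S) : Prop := ∃ e : ℕ, F ^ e * (x - y) ∈ I

variable {I : Ideal S} {F x y z : S}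

theorem EqF.refl (I : Ideal S) (F x : S) : EqF I F x x := ⟨0, by rw [sub_self, mul_zero]; exact I.zero_mem⟩

theorem EqF.of_eq (h : x = y) : EqF I F x y := h ▸ EqF.refl I F x

theorem EqF.symm (h : EqF I F x y) : EqF I F y x := by
  obtain ⟨e, he⟩ := h
  refine ⟨e, ?_⟩
  have : F ^ e * (y - x) = -(F ^ e * (x - y)) := by ring
  rw [this]
  exact I.neg_mem he

theorem EqF.trans (h : EqF I F x y) (h' : EqF I F y z) : EqF I F x z := by
  obtain ⟨e, he⟩ := h
  obtain ⟨e', he'⟩ := h'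
  refine ⟨e + e', ?_⟩
  have : F ^ (e + e') * (x - z) = F ^ e' * (F ^ e * (x - y)) + F ^ e * (F ^ e' * (y - z)) := by ring
  rw [this]
  exact I.add_mem (I.mul_mem_left _ he) (I.mul_mem_left _ he')

theorem EqF.mul (h : EqF I F x y) (c : S) : EqF I F (c * x) (c * y) := by
  obtain ⟨e, he⟩ := h
  refine ⟨e, ?_⟩
  have : F ^ e * (c * x - c * y) = c * (F ^ e * (x - y)) := by ring
  rw [this]
  exact I.mul_mem_left _ he

theorem EqF.cancel {c : S} {t : ℕ} (hc : c ∣ F ^ t) (h : EqF I F (c * x) (c * y)) : EqF I F x y := by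
  obtain ⟨e, he⟩ := h
  obtain ⟨b, hb⟩ := hc
  refine ⟨e + t, ?_⟩
  have : F ^ (e + t) * (x - y) = b * (F ^ e * (c * x - c * y)) := by
    rw [pow_add, hb]
    ring
  rw [this]
  exact I.mul_mem_left _ he

theorem EqF.mono {G : S} (hF : F ∣ G) (h : EqF I F x y) : EqF I G x y := by
  obtain ⟨e, he⟩ := h
  obtain ⟨c, rfl⟩ := hF
  refine ⟨e, ?_⟩
  have : (F * c) ^ e * (x - y) = c ^ e * (F ^ e * (x - y)) := by ring
  rw [this]
  exact I.mul_mem_left _ he

theorem EqF.le {I' : Ideal S} (hI : I ≤ I') (h : EqF I F x y) : EqF I' F x y := by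
  obtain ⟨e, he⟩ := h
  exact ⟨e, hI he⟩

/-- equality of fractions over `S / I` -/
theorem fr_eq_iff_EqF {m m' : S} {k k' : ℕ} :
    (fr F (Submodule.Quotient.mk m : S ⧸ I) k = fr F (Submodule.Quotient.mk m') k') ↔
      EqF I F (F ^ k' * m) (F ^ k * m') := by
  rw [fr_eq]
  constructor
  · rintro ⟨j, hj⟩
    refine ⟨j, ?_⟩
    rw [← Submodule.Quotient.mk_smul, ← Submodule.Quotient.mk_smul, Submodule.Quotient.eq,
      smul_eq_mul, smul_eq_mul] at hj
    convert hj using 1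
    ring
  · rintro ⟨j, hj⟩
    refine ⟨j, ?_⟩
    rw [← Submodule.Quotient.mk_smul, ← Submodule.Quotient.mk_smul, Submodule.Quotient.eq,
      smul_eq_mul, smul_eq_mul]
    convert hj using 1
    ring

end eqf

section sec

variable {A : Type*} [CommRing A] {σ : Type*} {w : σ → ℤ} {α : Type*}
  {D : Dat (MvPolynomial σ A) α} {I I' : Ideal (MvPolynomial σ A)}

/-- the `ε a / (f a) ^ T` form a section of degree `u` of the line bundle `D` over `V(I)` -/
structure IsSec (D : Dat (MvPolynomial σ A) α) (w : σ → ℤ) (I : Ideal (MvPolynomial σ A)) (T : ℕ)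
    (u : ℤ) (ε : α → MvPolynomial σ A) : Prop where
  hom : ∀ a, (polyGr A w).Hom (T * D.d a + u) (ε a)
  comp : ∀ a b, EqF I (D.f a * D.f b) (ε a * D.f b ^ T * (D.f a * D.f b) ^ D.t)
    (D.v a b * ε b * D.f a ^ T)

theorem IsSec.mono {T : ℕ} {u : ℤ} {ε : α → MvPolynomial σ A} (h : IsSec D w I T u ε)
    (hI : I ≤ I') : IsSec D w I' T u ε := ⟨h.hom, fun a b => (h.comp a b).le hI⟩

variable {M : Type*} [AddCommGroup M] [Module (MvPolynomial σ A) M] {g : Gr M}

/-- a section acts on every module over `P / I` -/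
theorem IsSec.secT {f : α → MvPolynomial σ A} {d : α → ℤ} {B : Twt (MvPolynomial σ A) α} {T : ℕ}
    {u : ℤ} {ε : α → MvPolynomial σ A} (h : IsSec (DT f d B) w I T u ε)
    (hg : GMod (A := A) w g) (hI : ∀ a ∈ I, ∀ m : M, a • m = 0) : SecT f d g B ε T u where
  opw a := by
    have h1 := hg _ _ (h.hom a)
    have h2 : (T : ℤ) * (DT f d B).d a + u = u + T * (DT f d (1 : Twt (MvPolynomial σ A) α)).d a := by
      change (T : ℤ) * d a + u = u + T * d a
      ring
    rw [h2] at h1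
    exact h1
  comp a b m := by
    obtain ⟨e, he⟩ := h.comp a b
    refine ⟨e, ?_⟩
    have := hI _ he m
    rw [mul_smul, sub_smul, smul_sub, sub_eq_zero] at this
    exact this

theorem EqF.self (h : D.Lb w I) (a : α) : EqF I (D.f a) (D.v a a) (D.f a ^ (2 * D.t)) := h.self a

theorem EqF.cocy (h : D.Lb w I) (a b c : α) : EqF I (D.f a * D.f b * D.f c)
    (D.v a b * D.v b c) (D.v a c * D.f b ^ (2 * D.t)) := h.cocy a b c

/-- the compatibility for `(a, b)` gives the one for `(b, a)` -/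
theorem comp_symm (h : D.Lb w I) {T : ℕ} {ε : α → MvPolynomial σ A} {a b : α}
    (hab : EqF I (D.f a * D.f b) (ε a * D.f b ^ T * (D.f a * D.f b) ^ D.t)
      (D.v a b * ε b * D.f a ^ T)) :
    EqF I (D.f b * D.f a) (ε b * D.f a ^ T * (D.f b * D.f a) ^ D.t)
      (D.v b a * ε a * D.f b ^ T) := by
  have hd : D.f a * D.f b ∣ D.f b * D.f a := ⟨1, by ring⟩
  have h1 := (hab.mono hd).mul (D.v b a)
  -- `v b a * v a b = v b b * f a ^ (2 t) = (f a f b) ^ (2 t)`
  have h2 : EqF I (D.f b * D.f a) (D.v b a * D.v a b) (D.v b b * D.f a ^ (2 * D.t)) := by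
    obtain ⟨e, he⟩ := h.cocy b a b
    refine ⟨2 * e, ?_⟩
    have : (D.f b * D.f a) ^ (2 * e) * (D.v b a * D.v a b - D.v b b * D.f a ^ (2 * D.t)) =
        D.f a ^ e * ((D.f b * D.f a * D.f b) ^ e *
          (D.v b a * D.v a b - D.v b b * D.f a ^ (2 * D.t))) := by ring
    rw [this]
    exact I.mul_mem_left _ he
  have h3 : EqF I (D.f b * D.f a) (D.v b b) (D.f b ^ (2 * D.t)) :=
    (EqF.self h b).mono ⟨D.f a, rfl⟩
  have h4 : EqF I (D.f b * D.f a) (D.v b a * D.v a b) (D.f b ^ (2 * D.t) * D.f a ^ (2 * D.t)) := by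
    refine h2.trans ?_
    have := h3.mul (D.f a ^ (2 * D.t))
    exact (EqF.of_eq (by ring)).trans (this.trans (EqF.of_eq (by ring)))
  -- combine and cancel
  have h5 : EqF I (D.f b * D.f a) ((D.f a * D.f b) ^ D.t * (D.v b a * ε a * D.f b ^ T))
      ((D.f a * D.f b) ^ D.t * (ε b * D.f a ^ T * (D.f b * D.f a) ^ D.t)) := by
    refine (EqF.of_eq ?_).trans (h1.trans ((EqF.of_eq ?_).trans ((h4.mul (ε b * D.f a ^ T)).trans
      (EqF.of_eq ?_))))
    · ring
    · ring
    · ring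
  exact (EqF.cancel (t := D.t) ⟨1, by ring⟩ h5).symm

theorem comp_self (h : D.Lb w I) (T : ℕ) (ε : α → MvPolynomial σ A) (a : α) :
    EqF I (D.f a * D.f a) (ε a * D.f a ^ T * (D.f a * D.f a) ^ D.t)
      (D.v a a * ε a * D.f a ^ T) := by
  have h1 := ((EqF.self h a).mono (G := D.f a * D.f a) ⟨D.f a, rfl⟩).mul (ε a * D.f a ^ T)
  refine ((EqF.of_eq ?_).trans (h1.symm.trans (EqF.of_eq ?_)))
  · ring
  · ring

end sec

end Pool.Agent.Lib.MP_0b721b_ag
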