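import Pool.Agent.Lib.MP_0b721b_ag.Tw

/-!
Multiplication of twisted Cech complexes by a section. The section has the local
form `w a / f a ^ e` and is a section of the line bundle with transition functions
`v2 a b / (f a * f b) ^ t2`.
-/

namespace Pool.Agent.Lib.MP_0b721b_ag

open Finset

section tens

variable {S : Type*} [CommRing S] {α : Type*} [LinearOrder α] (D : Dat S α)

/-- the product of the line bundle `D` with the line bundle `(t2, v2)` on the same cover -/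
def Dat.tens (t2 : ℕ) (v2 : α → α → S) : Dat S α where
  f := D.f
  d := D.d
  t := D.t + t2
  v a b := D.v a b * v2 a b

variable {M : Type*} [AddCommGroup M] [Module S M] {g : Gr M}

/-- `w a / f a ^ e` is a section of degree `n` of the line bundle `(t2, v2)`, acting on `M` -/
structure SecOk (g : Gr M) (t2 : ℕ) (v2 : α → α → S) (w : α → S) (e : ℕ) (n : ℤ) : Prop where
  opw : ∀ a, g.Op (w a) (n + e * D.d a)
  comp : ∀ (a b : α) (m : M), ∃ i : ℕ,
    (D.f a * D.f b) ^ i • (w a * D.f b ^ e * (D.f a * D.f b) ^ t2) • m =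
      (D.f a * D.f b) ^ i • (v2 a b * w b * D.f a ^ e) • m

/-- multiplication by the section over `J` -/
def Dat.mulS (M : Type*) [AddCommGroup M] [Module S M] (w : α → S) (e : ℕ) (J : Finset α)
    (h : J.Nonempty) : Loc (D.fJ J) M →+ Loc (D.fJ J) M :=
  opm (D.fJ J) (w (J.min' h) * D.fJ (J.erase (J.min' h)) ^ e) e

theorem Dat.mulS_fr (w : α → S) (e : ℕ) (J : Finset α) (h : J.Nonempty) (m : M) (k : ℕ) :
    D.mulS M w e J h (fr _ m k) = fr _ ((w (J.min' h) * D.fJ (J.erase (J.min' h)) ^ e) • m)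
      (k + e) := rfl

theorem Dat.tens_tw (t2 : ℕ) (v2 : α → α → S) (J J' : Finset α) (h0 : J.Nonempty)
    (h : J ⊆ J') (z : Loc (D.fJ J) M) :
    (D.tens t2 v2).tw M J J' h0 h z =
      opm (D.fJ J') ((D.v (J'.min' (h0.mono h)) (J.min' h0) * v2 (J'.min' (h0.mono h)) (J.min' h0))
        * (D.fJ (J'.erase (J'.min' (h0.mono h))) * D.fJ (J'.erase (J.min' h0))) ^ (D.t + t2))
        (2 * (D.t + t2)) (D.res M h z) := rfl

theorem Dat.tw_eq (J J' : Finset α) (h0 : J.Nonempty)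
    (h : J ⊆ J') (z : Loc (D.fJ J) M) :
    D.tw M J J' h0 h z =
      opm (D.fJ J') (D.v (J'.min' (h0.mono h)) (J.min' h0)
        * (D.fJ (J'.erase (J'.min' (h0.mono h))) * D.fJ (J'.erase (J.min' h0))) ^ D.t)
        (2 * D.t) (D.res M h z) := rfl

variable {D}

/-- multiplication by a section commutes with the twisted restrictions -/
theorem SecOk.nat {t2 : ℕ} {v2 : α → α → S} {w : α → S} {e : ℕ} {n : ℤ}
    (hs : SecOk D g t2 v2 w e n) (J J' : Finset α) (h0 : J.Nonempty) (h : J ⊆ J')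
    (z : Loc (D.fJ J) M) :
    D.mulS M w e J' (h0.mono h) (D.tw M J J' h0 h z) =
      (D.tens t2 v2).tw M J J' h0 h (D.mulS M w e J h0 z) := by
  have haJ : J.min' h0 ∈ J := Finset.min'_mem _ _
  have ha : J.min' h0 ∈ J' := h haJ
  have hb : J'.min' (h0.mono h) ∈ J' := Finset.min'_mem _ _
  rw [Dat.tens_tw, Dat.tw_eq]
  unfold Dat.mulS Dat.res
  rw [locRes_opm, opm_opm, opm_opm]
  refine opm_eq _ (fun m => ?_) _
  obtain ⟨i, hi⟩ := hs.comp (J'.min' (h0.mono h)) (J.min' h0) m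
  set a := J.min' h0
  set b := J'.min' (h0.mono h)
  have hA : D.f a * D.fJ (J'.erase a) = D.fJ J' := D.fJ_erase ha
  have hB : D.f b * D.fJ (J'.erase b) = D.fJ J' := D.fJ_erase hb
  have hR : D.fJ (J' \ J) * D.fJ (J.erase a) = D.fJ (J'.erase a) := D.fJ_sdiff_erase h haJ
  set F := D.fJ J'
  set A := D.fJ (J'.erase a)
  set B := D.fJ (J'.erase b)
  set fa := D.f a
  set fb := D.f b
  have hAe : F ^ e = fa ^ e * A ^ e := by rw [← hA, mul_pow]
  have hBe : F ^ e = fb ^ e * B ^ e := by rw [← hB, mul_pow]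
  refine ⟨2 * i + 2 * e, ?_⟩
  rw [smul_smul, smul_smul]
  have hF2 : fb * fa * (B * A) = F ^ 2 := by
    calc fb * fa * (B * A) = (fb * B) * (fa * A) := by ring
      _ = F ^ 2 := by rw [hA, hB]; ring
  -- the common factor
  have e1 : F ^ (2 * i + 2 * e + (e + 2 * (D.t + t2))) *
      (w b * B ^ e * (D.v b a * (B * A) ^ D.t)) =
      (F ^ (2 * e + 2 * D.t) * (B * A) ^ i * (B * A) ^ t2 * (B * A) ^ D.t * D.v b a * B ^ e * A ^ e
        ) * ((fb * fa) ^ i * (w b * fa ^ e * (fb * fa) ^ t2)) := by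
    have h1 : F ^ (2 * i + 2 * e + (e + 2 * (D.t + t2))) =
        F ^ (2 * e + 2 * D.t) * (F ^ 2) ^ i * (F ^ 2) ^ t2 * F ^ e := by ring
    rw [h1, ← hF2, hAe]
    ring
  have e2 : F ^ (2 * i + 2 * e + (2 * D.t + e)) *
      (D.v b a * v2 b a * (B * A) ^ (D.t + t2) * (D.fJ (J' \ J) ^ e * (w a * D.fJ (J.erase a) ^ e)))
      = (F ^ (2 * e + 2 * D.t) * (B * A) ^ i * (B * A) ^ t2 * (B * A) ^ D.t * D.v b a * B ^ e * A ^ e
        ) * ((fb * fa) ^ i * (v2 b a * w a * fb ^ e)) := by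
    have h1 : D.fJ (J' \ J) ^ e * (w a * D.fJ (J.erase a) ^ e) = w a * A ^ e := by
      rw [← hR]
      ring
    have h2 : F ^ (2 * i + 2 * e + (2 * D.t + e)) =
        F ^ (2 * e + 2 * D.t) * (F ^ 2) ^ i * F ^ e := by ring
    rw [h1, h2, ← hF2, hBe]
    ring
  rw [← mul_smul, ← mul_smul] at hi
  have key : ∀ C x y : S, x • m = y • m → (C * x) • m = (C * y) • m := fun C x y h => by
    rw [mul_smul, mul_smul, h]
  rw [e1, e2]
  exact key _ _ _ hi

/-- multiplication by a section of degree `n` raises the degree by `n` -/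
theorem SecOk.lDeg (hD : D.Ok g) {t2 : ℕ} {v2 : α → α → S} {w : α → S} {e : ℕ} {n : ℤ}
    (hs : SecOk D g t2 v2 w e n) {J : Finset α} (h0 : J.Nonempty) {l : ℤ} {z : Loc (D.fJ J) M}
    (hz : LDeg g (D.fJ J) (D.dJ J) l z) :
    LDeg g (D.fJ J) (D.dJ J) (l + n) (D.mulS M w e J h0 z) := by
  have haJ : J.min' h0 ∈ J := Finset.min'_mem _ _
  have hw : g.Op (w (J.min' h0) * D.fJ (J.erase (J.min' h0)) ^ e)
      (n + e * D.d (J.min' h0) + e * D.dJ (J.erase (J.min' h0))) :=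
    (hs.opw _).mul ((hD.opJ _).pow e)
  have h1 := LDeg.opm (j := e) (hD.opJ J) hw hz
  have h2 : l + (n + e * D.d (J.min' h0) + e * D.dJ (J.erase (J.min' h0)) - e * D.dJ J) =
      l + n := by
    rw [← D.dJ_erase haJ]
    ring
  rw [h2] at h1
  exact h1

end tens

end Pool.Agent.Lib.MP_0b721b_ag
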