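import Pool.Agent.Lib.MP_0b721b_ag.Kl.Raw

/-!
The step of the dévissage in Kleiman's theorem: a section `σ = x s` of `B(n + 1)`, where `s` is a
section of `B(n)` and `x` a linear form, such that the zero scheme of `σ` has no cohomology. Then
`Hᵖ(A B ^ j (y + j (n + 1))) = 0` for large `j`.
-/

namespace Pool.Agent.Lib.MP_0b721b_ag

open Finset

section

variable {S : Type*} [CommRing S] {α : Type*} [LinearOrder α] {f : α → S} {d : α → ℤ}
  {M N : Type*} [AddCommGroup M] [Module S M] [AddCommGroup N] [Module S N]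
  {g : Gr M} {gN : Gr N} {π : M →ₗ[S] N}

theorem opm_mul_smul (s x w : S) (j : ℕ) (z : Loc s M) : opm s (x * w) j z = x • opm s w j z := by
  obtain ⟨m, k, rfl⟩ := fr_surj z
  rw [opm_fr, opm_fr, smul_fr, mul_smul]

theorem opm_smul (s r w : S) (j : ℕ) (z : Loc s M) : opm s w j (r • z) = r • opm s w j z := by
  obtain ⟨m, k, rfl⟩ := fr_surj z
  rw [smul_fr, opm_fr, opm_fr, smul_fr, smul_comm]

theorem mulD_x (D : Dat S α) (x : S) (w : α → S) (e : ℕ) (J : Finset α) (z : Loc (D.fJ J) M) :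
    mulD D M (fun a => x * w a) e J z = x • mulD D M w e J z := by
  unfold mulD
  split_ifs with h0
  · unfold Dat.mulS
    rw [mul_assoc, opm_mul_smul]
  · exact (smul_zero x).symm

theorem mulD_smul (D : Dat S α) (r : S) (w : α → S) (e : ℕ) (J : Finset α) (z : Loc (D.fJ J) M) :
    mulD D M w e J (r • z) = r • mulD D M w e J z := by
  unfold mulD
  split_ifs with h0
  · exact opm_smul _ _ _ _ _
  · exact (smul_zero r).symm

theorem mulD_iter_smul (D : Dat S α) (r : S) (w : α → S) (e : ℕ) (J : Finset α) (j : ℕ)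
    (z : Loc (D.fJ J) M) :
    (mulD D M w e J)^[j] (r • z) = r • (mulD D M w e J)^[j] z := by
  induction j generalizing z with
  | zero => rfl
  | succ j ih => rw [Function.iterate_succ_apply, Function.iterate_succ_apply, mulD_smul, ih]

theorem mulD_x_iter (D : Dat S α) (x : S) (w : α → S) (e : ℕ) (J : Finset α) (j : ℕ)
    (z : Loc (D.fJ J) M) :
    (mulD D M (fun a => x * w a) e J)^[j] z = (mulD D M w e J)^[j] (x ^ j • z) := by
  induction j generalizing z with
  | zero => rw [pow_zero, one_smul]; rfl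
  | succ j ih =>
    rw [Function.iterate_succ_apply, Function.iterate_succ_apply, mulD_x, ih, mulD_smul, smul_smul,
      ← pow_succ]

/-- the twists `A B ^ j` -/
def Tit (A B : Twt S α) : ℕ → Twt S α
  | 0 => A
  | j + 1 => Tit A B j * B

theorem Tit_eq (A B : Twt S α) (j : ℕ) : Tit A B j = A * B ^ j := by
  induction j with
  | zero => rw [pow_zero, mul_one]; rfl
  | succ j ih => rw [pow_succ, ← mul_assoc, ← ih]; rfl

/-- `w a / f a ^ e` is a section of `B(n)` acting on `M` -/
def SecT (f : α → S) (d : α → ℤ) (g : Gr M) (B : Twt S α) (w : α → S) (e : ℕ) (n : ℤ) : Prop :=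
  SecOk (DT f d 1) g (Multiplicative.toAdd B.1) B.2 w e n

theorem SecT.ok {B : Twt S α} {w : α → S} {e : ℕ} {n : ℤ} (h : SecT f d g B w e n)
    (A : Twt S α) : SecOk (DT f d A) g (Multiplicative.toAdd B.1) B.2 w e n :=
  ⟨h.opw, h.comp⟩

theorem SecT.mulx {B : Twt S α} {w : α → S} {e : ℕ} {n : ℤ} (h : SecT f d g B w e n) {x : S}
    (hx : g.Op x 1) : SecT f d g B (fun a => x * w a) e (n + 1) where
  opw a := by
    have h1 := hx.mul (h.opw a)
    have h2 : (1 : ℤ) + (n + e * (DT f d (1 : Twt S α)).d a) =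
      n + 1 + e * (DT f d (1 : Twt S α)).d a := by ring
    rw [h2] at h1
    exact h1
  comp a b m := by
    obtain ⟨i, hi⟩ := h.comp a b m
    refine ⟨i, ?_⟩
    have key : ∀ (u v : S), u • m = v • m → (x * u) • m = (x * v) • m := fun u v h => by
      rw [mul_smul, mul_smul, h]
    rw [smul_smul, smul_smul] at hi ⊢
    have := key _ _ hi
    have e1 : ((DT f d (1 : Twt S α)).f a * (DT f d (1 : Twt S α)).f b) ^ i *
        (x * w a * (DT f d (1 : Twt S α)).f b ^ e *
          ((DT f d (1 : Twt S α)).f a * (DT f d (1 : Twt S α)).f b) ^ Multiplicative.toAdd B.1) =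
        x * (((DT f d (1 : Twt S α)).f a * (DT f d (1 : Twt S α)).f b) ^ i *
        (w a * (DT f d (1 : Twt S α)).f b ^ e *
          ((DT f d (1 : Twt S α)).f a * (DT f d (1 : Twt S α)).f b) ^ Multiplicative.toAdd B.1)) := by
      ring
    have e2 : ((DT f d (1 : Twt S α)).f a * (DT f d (1 : Twt S α)).f b) ^ i *
        (B.2 a b * (x * w b) * (DT f d (1 : Twt S α)).f a ^ e) =
        x * (((DT f d (1 : Twt S α)).f a * (DT f d (1 : Twt S α)).f b) ^ i *
        (B.2 a b * w b * (DT f d (1 : Twt S α)).f a ^ e)) := by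
      ring
    rw [e1, e2]
    exact this

theorem mulD_nat (D : Dat S α) {t2 : ℕ} {v2 : α → α → S} {w : α → S} {e : ℕ} {n : ℤ}
    (hs : SecOk D g t2 v2 w e n) :
    Nat' (D.tw M) ((D.tens t2 v2).tw M) (mulD D M w e) := by
  intro J J' h0 h z
  have h1 : mulD D M w e J' = D.mulS M w e J' (h0.mono h) := dif_pos _
  have h2 : mulD D M w e J = D.mulS M w e J h0 := dif_pos _
  rw [h1, h2]
  exact hs.nat J J' h0 h z

/-- the raw Cech differential of the twist `A` -/
def dT (f : α → S) (d : α → ℤ) (M : Type*) [AddCommGroup M] [Module S M] (A : Twt S α)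
    (z : ∀ J : Finset α, Loc (∏ a ∈ J, f a) M) (J : Finset α) : Loc (∏ a ∈ J, f a) M :=
  dC ((DT f d A).tw M) z J

/-- multiplication by a section over `J` -/
def mTh (f : α → S) (M : Type*) [AddCommGroup M] [Module S M] (w : α → S) (e : ℕ)
    (J : Finset α) : Loc (∏ a ∈ J, f a) M →+ Loc (∏ a ∈ J, f a) M :=
  mulD (DT f (fun _ => 0) 1) M w e J

/-- multiplication by a section, on cochains -/
def mT (f : α → S) (M : Type*) [AddCommGroup M] [Module S M] (w : α → S) (e : ℕ)
    (z : ∀ J : Finset α, Loc (∏ a ∈ J, f a) M) (J : Finset α) : Loc (∏ a ∈ J, f a) M :=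
  mTh f M w e J (z J)

theorem mTh_x_iter (x : S) (w : α → S) (e : ℕ) (J : Finset α) (j : ℕ)
    (z : Loc (∏ a ∈ J, f a) M) :
    (mTh f M (fun a => x * w a) e J)^[j] z = (mTh f M w e J)^[j] (x ^ j • z) :=
  mulD_x_iter (DT f (fun _ => 0) 1) x w e J j z

theorem dT_mT {B : Twt S α} {w : α → S} {e : ℕ} {n : ℤ} (hs : SecT f d g B w e n) (A : Twt S α)
    (z : ∀ J : Finset α, Loc (∏ a ∈ J, f a) M) :
    dT f d M (A * B) (mT f M w e z) = mT f M w e (dT f d M A z) := by
  funext J
  exact dC_map (mulD_nat (DT f d A) (hs.ok A)) z J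

theorem dT_mT_iter {B : Twt S α} {w : α → S} {e : ℕ} {n : ℤ} (hs : SecT f d g B w e n)
    (A : Twt S α) (j : ℕ) (z : ∀ J : Finset α, Loc (∏ a ∈ J, f a) M) :
    dT f d M (Tit A B j) ((mT f M w e)^[j] z) = (mT f M w e)^[j] (dT f d M A z) := by
  induction j with
  | zero => rfl
  | succ j ih =>
    rw [Function.iterate_succ_apply', Function.iterate_succ_apply', ← ih]
    exact dT_mT hs _ _

/-- `z` is a cochain of degree `y` -/
def DegT (f : α → S) (d : α → ℤ) (g : Gr M) (y : ℤ)
    (z : ∀ J : Finset α, Loc (∏ a ∈ J, f a) M) : Prop :=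
  ∀ J, LDeg g (∏ a ∈ J, f a) (∑ a ∈ J, d a) y (z J)

/-- vanishing of the cohomology of the twist `A` in degree `y` -/
def VT (f : α → S) (d : α → ℤ) (g : Gr M) (A : Twt S α) (y : ℤ) (p : ℕ) : Prop :=
  ∀ z, DegT f d g y z → (∀ J, J.card = p + 2 → dT f d M A z J = 0) →
    ∃ w, DegT f d g y w ∧ ∀ J, J.card = p + 1 → dT f d M A w J = z J

theorem van_iff_VT (A : Twt S α) (hD : (DT f d A).Ok g) (y : ℤ) (p : ℕ) :
    Van (hD.ρ (DT f d A) y) p ↔ VT f d g A y p := van_iff_raw (DT f d A) hD y p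

end

end Pool.Agent.Lib.MP_0b721b_ag
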