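import Pool.Agent.Lib.MP_0b721b_ag.Kl.Six

/-!
The step of the dévissage in Kleiman's theorem, continued.
-/

namespace Pool.Agent.Lib.MP_0b721b_ag

open Finset

section

variable {S : Type*} [CommRing S] {α : Type*} [LinearOrder α] [Fintype α] {f : α → S} {d : α → ℤ}
  {M N : Type*} [AddCommGroup M] [Module S M] [AddCommGroup N] [Module S N]
  {g : Gr M} {gN : Gr N} {π : M →ₗ[S] N}

/-- classes come from the smaller twist, if the zero scheme has no cohomology -/
theorem class_raw (C B : Twt S α) (hD : (DT f d C).Ok g) (hD' : (DT f d (C * B)).Ok g)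
    (hN : (DT f d (C * B)).Ok gN) {w : α → S} {e : ℕ} {n : ℤ} (hs : SecT f d g B w e n)
    (hπ : GrHom g gN π) (hsurj : Function.Surjective π)
    (hinj : ∀ (a : α) (m : M), (∃ i : ℕ, f a ^ i • w a • m = 0) → ∃ i : ℕ, f a ^ i • m = 0)
    (hker : ∀ m, π m = 0 ↔ ∀ a, ∃ (i : ℕ) (m' : M), f a ^ i • m = w a • m') (l : ℤ) {p : ℕ}
    (hp : 1 ≤ p) (hE : VT f d gN (C * B) (l + n) p) (z : ∀ J : Finset α, Loc (∏ a ∈ J, f a) M)
    (hz : DegT f d g (l + n) z) (hc : ∀ J, J.card = p + 2 → dT f d M (C * B) z J = 0) :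
    ∃ z' v, DegT f d g l z' ∧ DegT f d g (l + n) v ∧
      (∀ J, J.card = p + 2 → dT f d M C z' J = 0) ∧
      ∀ J, J.card = p + 1 → z J = mT f M w e z' J + dT f d M (C * B) v J := by
  let φ : ∀ J, hD.G (DT f d C) l J →+ hD'.G (DT f d (C * B)) (l + n) J :=
    mulG hD hD' (hs.ok C) l
  let ψ : ∀ J, hD'.G (DT f d (C * B)) (l + n) J →+ hN.G (DT f d (C * B)) (l + n) J :=
    quoG π hD' hN hπ (l + n)
  have hses : SES (ρ₁ := hD.ρ (DT f d C) l) (ρ₂ := hD'.ρ (DT f d (C * B)) (l + n))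
      (ρ₃ := hN.ρ (DT f d (C * B)) (l + n)) φ ψ :=
    sesDiv (π := π) hD hD' hN (hs.ok C) hπ hsurj hinj hker l
  rw [← van_iff_VT _ hN] at hE
  obtain ⟨y, v, h1, h2⟩ := hses.class_lift (hD'.fctn _ (l + n)) hp hE (fun J => ⟨z J, hz J⟩)
    (fun J hJ => by
      apply Subtype.ext
      rw [dC_val]
      exact hc J hJ)
  refine ⟨fun J => (y J).1, fun J => (v J).1, fun J => (y J).2, fun J => (v J).2,
    fun J hJ => ?_, fun J hJ => ?_⟩
  · have := congrArg Subtype.val (h1 J hJ)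
    rw [dC_val] at this
    exact this
  · have h3 := congrArg Subtype.val (h2 J hJ)
    have h4 : (dC (hD'.ρ (DT f d (C * B)) (l + n)) v J).1 =
      dT f d M (C * B) (fun J => (v J).1) J := dC_val _ _ _ _ _
    have h5 : z J = (φ J (y J)).1 + (dC (hD'.ρ (DT f d (C * B)) (l + n)) v J).1 := h3
    rw [h5, h4]
    rfl

theorem mT_add (w : α → S) (e : ℕ) (z z' : ∀ J : Finset α, Loc (∏ a ∈ J, f a) M)
    (J : Finset α) : mT f M w e (z + z') J = mT f M w e z J + mT f M w e z' J :=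
  map_add (mTh f M w e J) _ _

theorem mT_iter_apply (w : α → S) (e : ℕ) (j : ℕ) (z : ∀ J : Finset α, Loc (∏ a ∈ J, f a) M)
    (J : Finset α) :
    (mT f M w e)^[j] z J = (mTh f M w e J)^[j] (z J) := by
  induction j generalizing z with
  | zero => rfl
  | succ j ih =>
    rw [Function.iterate_succ_apply, Function.iterate_succ_apply, ih]
    rfl

theorem mT_iter_add (w : α → S) (e : ℕ) (j : ℕ) (z z' : ∀ J : Finset α, Loc (∏ a ∈ J, f a) M)
    (J : Finset α) :
    (mT f M w e)^[j] (z + z') J = (mT f M w e)^[j] z J + (mT f M w e)^[j] z' J := by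
  rw [mT_iter_apply, mT_iter_apply, mT_iter_apply]
  exact iterate_map_add (mTh f M w e J) j (z J) (z' J)

theorem dT_add (A : Twt S α) (z z' : ∀ J : Finset α, Loc (∏ a ∈ J, f a) M) (J : Finset α) :
    dT f d M A (z + z') J = dT f d M A z J + dT f d M A z' J := dC_add _ _ _

theorem dT_congr (A : Twt S α) {z z' : ∀ J : Finset α, Loc (∏ a ∈ J, f a) M} {J : Finset α}
    (h : ∀ K, K.card + 1 = J.card → z K = z' K) : dT f d M A z J = dT f d M A z' J := dC_congr h

theorem DegT.add {y : ℤ} (hop : ∀ J, g.Op (∏ a ∈ J, f a) (∑ a ∈ J, d a))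
    {z z' : ∀ J : Finset α, Loc (∏ a ∈ J, f a) M} (h : DegT f d g y z) (h' : DegT f d g y z') :
    DegT f d g y (z + z') := fun J => (locDeg g (hop J) y).add_mem (h J) (h' J)

theorem DegT.mT {y : ℤ} {A B : Twt S α} (hD : (DT f d A).Ok g) {w : α → S} {e : ℕ} {n : ℤ}
    (hs : SecT f d g B w e n) {z : ∀ J : Finset α, Loc (∏ a ∈ J, f a) M} (h : DegT f d g y z) :
    DegT f d g (y + n) (mT f M w e z) := fun J => mulD_lDeg hD (hs.ok A) (h J)

/-- the classes of `A B ^ j` come from the classes of `A` -/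
theorem class_iter (A B : Twt S α) (hOk : ∀ j, (DT f d (Tit A B j)).Ok g)
    (hOkN : ∀ j, (DT f d (Tit A B j)).Ok gN) {w : α → S} {e : ℕ} {n : ℤ}
    (hs : SecT f d g B w e n) (hπ : GrHom g gN π) (hsurj : Function.Surjective π)
    (hinj : ∀ (a : α) (m : M), (∃ i : ℕ, f a ^ i • w a • m = 0) → ∃ i : ℕ, f a ^ i • m = 0)
    (hker : ∀ m, π m = 0 ↔ ∀ a, ∃ (i : ℕ) (m' : M), f a ^ i • m = w a • m') (y : ℤ) {p : ℕ}
    (hp : 1 ≤ p) (hE : ∀ j : ℕ, VT f d gN (Tit A B (j + 1)) (y + (j + 1) * n) p) (j : ℕ)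
    (z : ∀ J : Finset α, Loc (∏ a ∈ J, f a) M) (hz : DegT f d g (y + j * n) z)
    (hc : ∀ J, J.card = p + 2 → dT f d M (Tit A B j) z J = 0) :
    ∃ z' v, DegT f d g y z' ∧ DegT f d g (y + j * n) v ∧
      (∀ J, J.card = p + 2 → dT f d M A z' J = 0) ∧
      ∀ J, J.card = p + 1 → z J = (mT f M w e)^[j] z' J + dT f d M (Tit A B j) v J := by
  induction j generalizing z with
  | zero =>
    refine ⟨z, 0, ?_, fun J => (locDeg g ((hOk 0).opJ J) _).zero_mem, hc, fun J _ => ?_⟩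
    · simpa using hz
    · have h0 : dT f d M (Tit A B 0) (0 : ∀ J : Finset α, Loc (∏ a ∈ J, f a) M) J = 0 := by
        have := dT_add (f := f) (d := d) (Tit A B 0)
          (0 : ∀ J : Finset α, Loc (∏ a ∈ J, f a) M) 0 J
        rw [add_zero] at this
        exact left_eq_add.1 this
      rw [h0, add_zero]
      rfl
  | succ j ih =>
    have e1 : y + ((j + 1 : ℕ) : ℤ) * n = (y + j * n) + n := by
      push_cast
      ring
    rw [e1] at hz
    have hE' := hE j
    have e2 : y + ((j : ℤ) + 1) * n = (y + j * n) + n := by ring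
    rw [e2] at hE'
    obtain ⟨z1, v1, hz1, hv1, hc1, h1⟩ := class_raw (Tit A B j) B (hOk j) (hOk (j + 1))
      (hOkN (j + 1)) hs hπ hsurj hinj hker (y + j * n) hp hE' z hz hc
    obtain ⟨z', v, hz', hv, hc', h2⟩ := ih z1 hz1 hc1
    refine ⟨z', mT f M w e v + v1, hz', ?_, hc', fun J hJ => ?_⟩
    · rw [e1]
      have hop : ∀ J, g.Op (∏ a ∈ J, f a) (∑ a ∈ J, d a) := fun J => (hOk 0).opJ J
      exact DegT.add hop (DegT.mT (hOk 0) hs hv) hv1
    · rw [dT_add, h1 J hJ, ← add_assoc]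
      congr 1
      have h3 : dT f d M (Tit A B (j + 1)) (mT f M w e v) J =
          mT f M w e (dT f d M (Tit A B j) v) J := congrFun (dT_mT hs (Tit A B j) v) J
      rw [h3, Function.iterate_succ_apply', ← mT_add]
      change mTh f M w e J (z1 J) = mTh f M w e J (_ + _)
      rw [h2 J hJ]

/-- the cohomology of `A B ^ j (y + j (n + 1))` vanishes for large `j` -/
theorem six_core (A B : Twt S α) (hOk : ∀ j, (DT f d (Tit A B j)).Ok g)
    (hOkN : ∀ j, (DT f d (Tit A B j)).Ok gN) {w : α → S} {e : ℕ} {n : ℤ}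
    (hs : SecT f d g B w e n) {x : S} (hx : g.Op x 1) (hπ : GrHom g gN π)
    (hsurj : Function.Surjective π)
    (hinj : ∀ (a : α) (m : M), (∃ i : ℕ, f a ^ i • (x * w a) • m = 0) →
      ∃ i : ℕ, f a ^ i • m = 0)
    (hker : ∀ m, π m = 0 ↔ ∀ a, ∃ (i : ℕ) (m' : M), f a ^ i • m = (x * w a) • m') (y : ℤ) {p : ℕ}
    (hp : 1 ≤ p) (hE : ∀ j : ℕ, VT f d gN (Tit A B (j + 1)) (y + (j + 1) * (n + 1)) p) (j : ℕ)
    (hser : VT f d g A (y + j) p) : VT f d g (Tit A B j) (y + j * (n + 1)) p := by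
  intro z hz hc
  obtain ⟨z', v, hz', hv, hc', h1⟩ := class_iter A B hOk hOkN (hs.mulx hx) hπ hsurj hinj hker y hp
    hE j z hz hc
  -- `x ^ j z'` is a boundary
  obtain ⟨u, hu, hu'⟩ := hser (fun J => x ^ j • z' J) (fun J => by
    have := lDeg_smul (hx.pow j) (hz' J)
    rw [mul_one] at this
    exact this) (fun J hJ => by
    have h3 : dT f d M A (fun J => x ^ j • z' J) J = x ^ j • dT f d M A z' J :=
      dC_smul (DT f d A) (x ^ j) z' J
    rw [h3, hc' J hJ, smul_zero])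
  have hop : ∀ J, g.Op (∏ a ∈ J, f a) (∑ a ∈ J, d a) := fun J => (hOk 0).opJ J
  refine ⟨(mT f M w e)^[j] u + v, DegT.add hop ?_ hv, fun J hJ => ?_⟩
  · have key : ∀ i : ℕ, DegT f d g (y + j + i * n) ((mT f M w e)^[i] u) := by
      intro i
      induction i with
      | zero => simpa using hu
      | succ i ih =>
        rw [Function.iterate_succ_apply']
        have := DegT.mT (hOk 0) hs ih
        convert this using 1
        push_cast
        ring
    have := key j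
    convert this using 1
    ring
  · rw [dT_add, h1 J hJ, congrFun (dT_mT_iter hs A j u) J]
    congr 1
    rw [mT_iter_apply, mT_iter_apply, hu' J hJ, mTh_x_iter]

end

end Pool.Agent.Lib.MP_0b721b_ag
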