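import Pool.Agent.Lib.MP_0b721b_ag.Kl.Ev

/-!
Snapper's theorem: for large `y` the dimension of `H⁰(A(y))` is a function of bounded degree of the
line bundle `A` and of `y`; its degree is the degree of the Hilbert function.
-/

namespace Pool.Agent.Lib.MP_0b721b_ag

namespace Kl

open Filter

variable {V T : Type*} [PartialOrder V] [CommMonoid T] (S : Sys V T)

/-- `p` is the function of Snapper of `J` -/
structure Snap (J : V) (p : T → ℤ → ℤ) : Prop where
  deg : ∃ k, Dg k p
  ev : ∀ A, ∀ᶠ y in atTop, S.h J A y = p A y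
  dim : ∀ k, Ev k (S.h J 1) → Dg k p

variable {S}

theorem Snap.ev_h {J : V} {p : T → ℤ → ℤ} (hp : Snap S J p) {k : ℕ} (h : Dg k p) (A : T) :
    Ev k (S.h J A) :=
  (h.ev A).congr (by filter_upwards [hp.ev A] with y hy; exact hy.symm)

theorem Snap.exists_ev {J : V} {p : T → ℤ → ℤ} (hp : Snap S J p) : ∃ k, Ev k (S.h J 1) := by
  obtain ⟨k, hk⟩ := hp.deg
  exact ⟨k, hp.ev_h hk 1⟩

/-- two functions of bounded degree which agree for large `y` are equal -/
theorem eq_of_ev {p q : T → ℤ → ℤ} (hp : ∃ k, Dg k p) (hq : ∃ k, Dg k q)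
    (h : ∀ A, ∀ᶠ y in atTop, p A y = q A y) : p = q := by
  obtain ⟨k, hk⟩ := hp
  obtain ⟨l, hl⟩ := hq
  have h1 : Dg (max k l) (p - q) := (hk.mono (le_max_left _ _)).sub (hl.mono (le_max_right _ _))
  have h2 : p - q = 0 := h1.eq_zero fun A => by
    filter_upwards [h A] with y hy
    rw [Pi.sub_apply, Pi.sub_apply, hy, sub_self]
  exact sub_eq_zero.1 h2

theorem Snap.uniq {J : V} {p q : T → ℤ → ℤ} (hp : Snap S J p) (hq : Snap S J q) : p = q :=
  eq_of_ev hp.deg hq.deg fun A => by
    filter_upwards [hp.ev A, hq.ev A] with y h1 h2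
    rw [← h1, h2]

theorem not_ev_zero {P : V} (hP : S.pr P) : ¬ Ev 0 (S.h P 1) := by
  intro h
  have h' : ∀ᶠ y in atTop, S.h P 1 y = 0 := h
  obtain ⟨y, h1, h2⟩ := (h'.and (S.sec P hP 1)).exists
  omega

/-- smaller closed subschemes have smaller degree -/
theorem ev_lt {P J : V} (hP : S.pr P) (hJ : P < J) {p : T → ℤ → ℤ} (hp : Snap S J p) {k : ℕ}
    (h : Ev (k + 1) (S.h P 1)) : Ev k (S.h J 1) := by
  obtain ⟨δ, hδ⟩ := S.cut P hP J hJ
  obtain ⟨l, hl⟩ := hp.exists_ev
  exact hl.of_le (h.steps δ) (Eventually.of_forall fun y => S.h_nonneg _ _ _) hδ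

/-- the relation of the hyperplane section -/
theorem dl_hyp {P H : V} {p q : T → ℤ → ℤ} (hp : ∀ A, ∀ᶠ y in atTop, S.h P A y = p A y)
    (hq : ∀ A, ∀ᶠ y in atTop, S.h H A y = q A y)
    (hH : ∀ A y, S.hv P A (y - 1) → S.h P A y = S.h P A (y - 1) + S.h H A y)
    (A : T) : ∀ᶠ y in atTop, p A y = p A (y - 1) + q A y := by
  filter_upwards [hp A, hq A, eventually_shift (hp A) (-1), eventually_shift (S.serre P A) (-1)]
    with y h1 h2 h3 h4
  rw [← sub_eq_add_neg] at h3 h4
  rw [← h1, ← h2, ← h3]
  exact hH A y h4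

/-- the relation of the zero scheme of a section -/
theorem ev_div {P E : V} {p q : T → ℤ → ℤ} (hp : ∀ A, ∀ᶠ y in atTop, S.h P A y = p A y)
    (hq : ∀ A, ∀ᶠ y in atTop, S.h E A y = q A y) {B : T} {n : ℤ}
    (hE : ∀ A y, S.hv P A y → S.h P (A * B) (y + n) = S.h P A y + S.h E (A * B) (y + n))
    (A : T) : ∀ᶠ y in atTop, dl B n p A y = tr B n q A y := by
  filter_upwards [hp A, S.serre P A, eventually_shift (hp (A * B)) n,
    eventually_shift (hq (A * B)) n] with y h1 h2 h3 h4
  simp only [dl, tr]
  rw [← h1, ← h3, ← h4, hE A y h2]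
  ring

omit [PartialOrder V] in
/-- constant in `y` and zero for large `y` -/
theorem eq_zero_of_dl {u : T → ℤ → ℤ} (h : dl (1 : T) 1 u = 0)
    (h0 : ∀ A, ∀ᶠ y in atTop, u A y = 0) : u = 0 := by
  have h2 : ∀ (A : T) (y : ℤ), u A (y + 1) = u A y := by
    intro A y
    have := congrFun (congrFun h A) y
    simp only [dl, mul_one, Pi.zero_apply] at this
    omega
  have h3 : ∀ (A : T) (y : ℤ) (n : ℕ), u A (y + n) = u A y := by
    intro A y n
    induction n with
    | zero => simp
    | succ n ihn =>
      push_cast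
      rw [← add_assoc, h2, ihn]
  funext A y
  obtain ⟨a, ha⟩ := eventually_atTop.1 (h0 A)
  have h4 := ha (y + (a - y).toNat) (by omega)
  rw [h3] at h4
  exact h4

variable (S) in
/-- Snapper's theorem -/
theorem snap [WellFoundedGT V] (J : V) : ∃ p, Snap S J p := by
  induction J using WellFoundedGT.induction with
  | ind J ih =>
    by_cases hJ : S.pr J
    · -- a prime
      obtain ⟨H, hH, -, hH2⟩ := S.hyp J hJ
      obtain ⟨q, hq⟩ := ih H hH
      -- construction of the function
      have hext : ∀ A, ∃ g : ℤ → ℤ, (∀ y, g y = g (y - 1) + q A y) ∧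
          ∀ᶠ y in atTop, S.h J A y = g y := by
        intro A
        refine exists_ext ?_
        filter_upwards [hq.ev A, eventually_shift (S.serre J A) (-1)] with y h1 h2
        rw [← sub_eq_add_neg] at h2
        rw [← h1]
        exact hH2 A y h2
      choose p hp1 hp2 using hext
      have hdl1 : dl (1 : T) 1 p = tr 1 1 q := by
        funext A y
        simp only [dl, tr, mul_one]
        rw [hp1 A (y + 1), show y + 1 - 1 = y by ring]
        ring
      -- degrees
      have hdim : ∀ k, Ev k (S.h J 1) → Dg k p := by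
        intro k hk
        rcases k with _ | k
        · exact absurd hk (not_ev_zero hJ)
        · refine Dg.of ?_ ?_
          · rw [hdl1]
            exact (hq.dim k (ev_lt hJ hH hq hk)).tr _ _
          · intro B
            obtain ⟨n, hn⟩ := (S.sec J hJ B).exists
            obtain ⟨E, hE, hE2⟩ := S.div J hJ B n hn
            obtain ⟨r, hr⟩ := ih E hE
            refine ⟨n, ?_⟩
            have h1 : Dg k (tr B n r) := (hr.dim k (ev_lt hJ hE hr hk)).tr _ _
            -- the difference is a function of bounded degree in `y`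
            have h2 : dl B n p = tr B n r := by
              have h3 : dl B n p - tr B n r = 0 := by
                have h4 : ∀ A, ∀ᶠ y in atTop, (dl B n p - tr B n r) A y = 0 := by
                  intro A
                  filter_upwards [ev_div hp2 hr.ev hE2 A] with y hy
                  rw [Pi.sub_apply, Pi.sub_apply, hy, sub_self]
                have h5 : dl (1 : T) 1 (dl B n p - tr B n r) = 0 := by
                  rw [dl_sub, dl_dl, hdl1]
                  have h6 : Dg k (dl B n (tr 1 1 q) - dl (1 : T) 1 (tr B n r)) := by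
                    refine Dg.sub ?_ ?_
                    · have h7 : Dg k (tr 1 1 q) := (hq.dim k (ev_lt hJ hH hq hk)).tr _ _
                      have h8 := h7.succ B n
                      exact h8
                    · exact h1.succ 1 1
                  refine h6.eq_zero fun A => ?_
                  have h9 := h4 A
                  filter_upwards [h9, eventually_shift h9 1] with y h10 h11
                  have h12 : dl (1 : T) 1 (dl B n p - tr B n r) A y = 0 := by
                    simp only [dl, mul_one] at h10 h11 ⊢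
                    rw [h10, h11, sub_zero]
                  rw [dl_sub, dl_dl, hdl1] at h12
                  exact h12
                exact eq_zero_of_dl h5 h4
              exact sub_eq_zero.1 h3
            rw [h2]
            exact h1
      obtain ⟨k, hk⟩ := hq.exists_ev
      have hk1 : Ev (k + 1) (S.h J 1) := by
        refine ev_succ_of hk ?_
        filter_upwards [eventually_shift (S.serre J 1) (-1)] with y hy
        rw [← sub_eq_add_neg] at hy
        exact hH2 1 y hy
      exact ⟨p, ⟨⟨k + 1, hdim _ hk1⟩, hp2, hdim⟩⟩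
    · rcases S.dec J hJ with h0 | ⟨J₁, J₂, h1, h2, δ, hd1, hd2, -⟩
      · refine ⟨0, ⟨0, rfl⟩, fun A => Eventually.of_forall fun y => ?_, fun k _ => Dg.zero k⟩
        exact (h0 A y).1
      · obtain ⟨p₁, hp₁⟩ := ih J₁ h1
        obtain ⟨p₂, hp₂⟩ := ih J₂ h2
        have hadd : ∀ A, ∀ᶠ y in atTop, S.h J A y = S.h J₁ A (y - δ) + S.h J₂ A y := by
          intro A
          filter_upwards [eventually_shift (S.serre J₁ A) (-δ)] with y hy
          rw [← sub_eq_add_neg] at hy
          exact hd2 A y hy
        have hdim : ∀ k, Ev k (S.h J 1) → Dg k p₁ ∧ Dg k p₂ := by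
          intro k hk
          constructor
          · refine hp₁.dim k ?_
            obtain ⟨l, hl⟩ := hp₁.exists_ev
            have h3 : Ev k (fun y => S.h J₁ 1 (y + -δ)) := by
              refine (hl.shift (-δ)).of_le hk (Eventually.of_forall fun y => S.h_nonneg _ _ _)
                (Eventually.of_forall fun y => ?_)
              exact hd1 1 y
            refine (h3.shift δ).congr (Eventually.of_forall fun y => ?_)
            rw [show y + δ + -δ = y by ring]
          · refine hp₂.dim k ?_
            obtain ⟨l, hl⟩ := hp₂.exists_ev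
            refine hl.of_le hk (Eventually.of_forall fun y => S.h_nonneg _ _ _) ?_
            filter_upwards [hadd 1] with y hy
            rw [hy]
            have := S.h_nonneg J₁ 1 (y - δ)
            omega
        refine ⟨tr 1 (-δ) p₁ + p₂, ?_, ?_, ?_⟩
        · obtain ⟨k, hk⟩ := hp₁.deg
          obtain ⟨l, hl⟩ := hp₂.deg
          exact ⟨max k l, ((hk.mono (le_max_left _ _)).tr _ _).add (hl.mono (le_max_right _ _))⟩
        · intro A
          filter_upwards [hadd A, eventually_shift (hp₁.ev A) (-δ), hp₂.ev A] with y h3 h4 h5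
          rw [h3, h5, sub_eq_add_neg, h4]
          simp only [tr, Pi.add_apply, mul_one]
        · intro k hk
          exact ((hdim k hk).1.tr _ _).add (hdim k hk).2

/-- the function of Snapper -/
noncomputable def Sys.p [WellFoundedGT V] (S : Sys V T) (J : V) : T → ℤ → ℤ := (snap S J).choose

theorem Sys.snap [WellFoundedGT V] (S : Sys V T) (J : V) : Snap S J (S.p J) :=
  (Kl.snap S J).choose_spec

theorem Sys.dl_hyp [WellFoundedGT V] {P H : V}
    (hH : ∀ A y, S.hv P A (y - 1) → S.h P A y = S.h P A (y - 1) + S.h H A y) :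
    dl (1 : T) 1 (S.p P) = tr 1 1 (S.p H) := by
  obtain ⟨k, hk⟩ := (S.snap P).deg
  obtain ⟨l, hl⟩ := (S.snap H).deg
  refine eq_of_ev ⟨k, hk.succ 1 1⟩ ⟨l, hl.tr _ _⟩ fun A => ?_
  have := Kl.dl_hyp (S.snap P).ev (S.snap H).ev hH A
  filter_upwards [eventually_shift this 1] with y hy
  simp only [dl, tr, mul_one]
  rw [hy, show y + 1 - 1 = y by ring]
  ring

theorem Sys.dl_div [WellFoundedGT V] {P E : V} {B : T} {n : ℤ}
    (hE : ∀ A y, S.hv P A y → S.h P (A * B) (y + n) = S.h P A y + S.h E (A * B) (y + n)) :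
    dl B n (S.p P) = tr B n (S.p E) := by
  obtain ⟨k, hk⟩ := (S.snap P).deg
  obtain ⟨l, hl⟩ := (S.snap E).deg
  exact eq_of_ev ⟨k, hk.succ B n⟩ ⟨l, hl.tr _ _⟩ (ev_div (S.snap P).ev (S.snap E).ev hE)

end Kl

end Pool.Agent.Lib.MP_0b721b_ag
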